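import Mathlib

/-!
# HNN extensions: the interface used below
-/

set_option autoImplicit false

namespace Pool.Agent.W395

/-- the two associated subgroups -/
def assoc {G I : Type} [Group G] [Group I] (f g : I →* G) (u : ℤˣ) : Subgroup G :=
  if u = 1 then f.range else g.range

/-- the product of a list of pairs `(u, g)` standing for `t ^ u * g` -/
def lprod {G H : Type} [Group G] [Group H] (o : G →* H) (t : H) (l : List (ℤˣ × G)) : H :=
  (l.map (fun x => t ^ (x.1 : ℤ) * o x.2)).prod

/-- no pinches -/
def NoPinch {G I : Type} [Group G] [Group I] (f g : I →* G) (l : List (ℤˣ × G)) : Prop :=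
  l.IsChain (fun a b => a.2 ∈ assoc f g a.1 → a.1 = b.1)

theorem exists_hnn {G I : Type} [Group G] [Group I] (f g : I →* G)
    (hf : Function.Injective f) (hg : Function.Injective g) :
    ∃ (H : Type) (_ : Group H) (o : G →* H) (t : H),
      (∀ x, t * o (f x) = o (g x) * t) ∧
      ∀ (a b : G) (l l' : List (ℤˣ × G)), NoPinch f g l → NoPinch f g l' →
        o a * lprod o t l = o b * lprod o t l' →
        l.map Prod.fst = l'.map Prod.fst ∧
          (∀ u ∈ (l.map Prod.fst).head?, a⁻¹ * b ∈ assoc f g (-u)) ∧ (l = [] → a = b) := by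
  let e1 : I ≃* f.range := MonoidHom.ofInjective hf
  let e2 : I ≃* g.range := MonoidHom.ofInjective hg
  let φ : f.range ≃* g.range := e1.symm.trans e2
  refine ⟨HNNExtension G f.range g.range φ, inferInstance, HNNExtension.of, HNNExtension.t,
    ?_, ?_⟩
  · intro x
    have h := HNNExtension.t_mul_of (φ := φ) (e1 x)
    have h2 : φ (e1 x) = e2 x := by simp [φ]
    rw [h2] at h
    exact h
  · intro a b l l' hl hl' h
    let w1 : HNNExtension.NormalWord.ReducedWord G f.range g.range := ⟨a, l, hl⟩
    let w2 : HNNExtension.NormalWord.ReducedWord G f.range g.range := ⟨b, l', hl'⟩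
    have h3 : w1.prod φ = w2.prod φ := h
    have h4 := HNNExtension.ReducedWord.map_fst_eq_and_of_prod_eq φ h3
    refine ⟨h4.1, ?_, ?_⟩
    · intro u hu
      have h5 := h4.2 u
      rw [List.head?_map] at hu
      exact h5 hu
    · intro hnil
      have h6 := h4.1
      simp only [w1, w2, hnil, List.map_nil] at h6
      have h7 : l' = [] := by
        rw [eq_comm, List.map_eq_nil_iff] at h6
        exact h6
      subst hnil
      subst h7
      simp only [lprod, List.map_nil, List.prod_nil, mul_one] at h
      exact HNNExtension.of_injective φ h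

end Pool.Agent.W395
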