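import Mathlib

/-!
# Closure properties of regular languages
-/

set_option autoImplicit false

namespace Pool.Agent.W395

variable {α β : Type}

/-- words read along a path of a finite graph whose edges carry languages -/
inductive Run {Q : Type} (R : Q → Q → Language α) (F : Q → Language α) : Q → List α → Prop
  | fin {q : Q} {w : List α} : w ∈ F q → Run R F q w
  | step {q q' : Q} {u w : List α} : u ∈ R q q' → Run R F q' w → Run R F q (u ++ w)

/-- the language of the words read along a path -/
def runL {Q : Type} (R : Q → Q → Language α) (F : Q → Language α) (q : Q) : Language α :=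
  {w | Run R F q w}

theorem mem_runL {Q : Type} {R : Q → Q → Language α} {F : Q → Language α} {q : Q} {w : List α} :
    w ∈ runL R F q ↔ Run R F q w := Iff.rfl

/-- states reachable by empty words -/
inductive ERun {Q : Type} (R : Q → Q → Language α) : Q → Q → Prop
  | refl {q : Q} : ERun R q q
  | step {q q' q'' : Q} : [] ∈ R q q' → ERun R q' q'' → ERun R q q''

theorem ERun.run {Q : Type} {R : Q → Q → Language α} {F : Q → Language α} {q q' : Q}
    (h : ERun R q q') {w : List α} (hw : Run R F q' w) : Run R F q w := by
  induction h with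
  | refl => exact hw
  | step h1 _ ih => exact Run.step h1 (ih hw)

theorem Run.cons_cases {Q : Type} {R : Q → Q → Language α} {F : Q → Language α} {q : Q}
    {w : List α} (h : Run R F q w) : ∀ (a : α) (x : List α), w = a :: x →
    (∃ q1 q2 k y, ERun R q q1 ∧ a :: k ∈ R q1 q2 ∧ Run R F q2 y ∧ x = k ++ y) ∨
      (∃ q1, ERun R q q1 ∧ a :: x ∈ F q1) := by
  induction h with
  | @fin q w hw =>
    rintro a x rfl
    exact Or.inr ⟨q, ERun.refl, hw⟩
  | @step q q' u w hu hw ih =>
    intro a x e
    rcases u with _ | ⟨c, u⟩
    · simp only [List.nil_append] at e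
      rcases ih a x e with ⟨q1, q2, k, y, h1, h2, h3, h4⟩ | ⟨q1, h1, h2⟩
      · exact Or.inl ⟨q1, q2, k, y, ERun.step hu h1, h2, h3, h4⟩
      · exact Or.inr ⟨q1, ERun.step hu h1, h2⟩
    · simp only [List.cons_append, List.cons.injEq] at e
      obtain ⟨rfl, rfl⟩ := e
      exact Or.inl ⟨q, q', u, w, ERun.refl, hu, hw, rfl⟩

theorem Run.isRegular {Q : Type} [Finite Q] {R : Q → Q → Language α} {F : Q → Language α}
    (hR : ∀ q q', (R q q').IsRegular) (hF : ∀ q, (F q).IsRegular) (q : Q) :
    (runL R F q).IsRegular := by
  classical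
  -- the finite family of pieces
  let P1 : Set (Q × Language α) := ⋃ q : Q, ⋃ q' : Q, (fun K => (q', K)) '' Set.range (R q q').leftQuotient
  let P2 : Set (Language α) := ⋃ q : Q, Set.range (F q).leftQuotient
  have hP1 : P1.Finite := Set.finite_iUnion fun q => Set.finite_iUnion fun q' =>
    (hR q q').finite_range_leftQuotient.image _
  have hP2 : P2.Finite := Set.finite_iUnion fun q => (hF q).finite_range_leftQuotient
  let lang : Set (Q × Language α) × Set (Language α) → Language α := fun Z =>
    {x | (∃ p ∈ Z.1, ∃ k ∈ p.2, ∃ y, Run R F p.1 y ∧ x = k ++ y) ∨ ∃ K ∈ Z.2, x ∈ K}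
  have key : ∀ s : List α, s ≠ [] → ∃ Z1 ⊆ P1, ∃ Z2 ⊆ P2,
      (runL R F q).leftQuotient s = lang (Z1, Z2) := by
    intro s
    induction s using List.reverseRecOn with
    | nil => intro h; exact absurd rfl h
    | append_singleton s a ih =>
      intro _
      -- quotient of a run language by a letter
      let G : Q → Set (Q × Language α) × Set (Language α) := fun q =>
        ({p | ∃ q1, ERun R q q1 ∧ p = (p.1, (R q1 p.1).leftQuotient [a])},
          {K | ∃ q1, ERun R q q1 ∧ K = (F q1).leftQuotient [a]})
      have hG1 : ∀ q, (G q).1 ⊆ P1 := by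
        rintro q p ⟨q1, _, h2⟩
        simp only [P1, Set.mem_iUnion, Set.mem_image, Set.mem_range]
        exact ⟨q1, p.1, _, ⟨[a], rfl⟩, h2.symm⟩
      have hG2 : ∀ q, (G q).2 ⊆ P2 := by
        rintro q K ⟨q1, _, rfl⟩
        simp only [P2, Set.mem_iUnion, Set.mem_range]
        exact ⟨q1, [a], rfl⟩
      have hG : ∀ q x, Run R F q (a :: x) ↔ x ∈ lang (G q) := by
        intro q x
        constructor
        · intro h
          rcases h.cons_cases a x rfl with ⟨q1, q2, k, y, h1, h2, h3, h4⟩ | ⟨q1, h1, h2⟩
          · exact Or.inl ⟨(q2, (R q1 q2).leftQuotient [a]), ⟨q1, h1, rfl⟩, k, h2, y, h3, h4⟩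
          · exact Or.inr ⟨_, ⟨q1, h1, rfl⟩, h2⟩
        · rintro (⟨p, ⟨q1, h1, hp⟩, k, hk, y, hy, rfl⟩ | ⟨K, ⟨q1, h1, rfl⟩, h2⟩)
          · rw [hp] at hk
            have : a :: k ∈ R q1 p.1 := hk
            exact h1.run (Run.step this hy)
          · exact h1.run (Run.fin h2)
      by_cases hs : s = []
      · subst hs
        refine ⟨(G q).1, hG1 q, (G q).2, hG2 q, ?_⟩
        ext x
        exact hG q x
      · obtain ⟨Z1, hZ1, Z2, hZ2, e⟩ := ih hs
        refine ⟨{p | ∃ p' ∈ Z1, p = (p'.1, p'.2.leftQuotient [a])} ∪
            ⋃ p ∈ {p ∈ Z1 | [] ∈ p.2}, (G p.1).1, ?_,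
          {K | ∃ K' ∈ Z2, K = K'.leftQuotient [a]} ∪
            ⋃ p ∈ {p ∈ Z1 | [] ∈ p.2}, (G p.1).2, ?_, ?_⟩
        · rintro p (⟨p', hp', rfl⟩ | hp)
          · have := hZ1 hp'
            simp only [P1, Set.mem_iUnion, Set.mem_image, Set.mem_range] at this ⊢
            obtain ⟨q1, q2, K, ⟨s', rfl⟩, rfl⟩ := this
            exact ⟨q1, q2, _, ⟨s' ++ [a], rfl⟩, by simp [Language.leftQuotient_append]⟩
          · simp only [Set.mem_iUnion] at hp
            obtain ⟨p', _, hp⟩ := hp
            exact hG1 _ hp
        · rintro K (⟨K', hK', rfl⟩ | hK)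
          · have := hZ2 hK'
            simp only [P2, Set.mem_iUnion, Set.mem_range] at this ⊢
            obtain ⟨q1, s', rfl⟩ := this
            exact ⟨q1, s' ++ [a], by simp [Language.leftQuotient_append]⟩
          · simp only [Set.mem_iUnion] at hK
            obtain ⟨p', _, hK⟩ := hK
            exact hG2 _ hK
        · rw [Language.leftQuotient_append, e]
          ext x
          constructor
          · rintro (⟨p, hp, k, hk, y, hy, e1⟩ | ⟨K, hK, hx⟩)
            · rcases k with _ | ⟨c, k⟩
              · have e2 : a :: x = y := by simpa using e1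
                subst e2
                have h3 := (hG _ _).1 hy
                rcases h3 with ⟨p2, hp2, k2, hk2, y2, hy2, e3⟩ | ⟨K2, hK2, hx2⟩
                · refine Or.inl ⟨p2, Or.inr ?_, k2, hk2, y2, hy2, e3⟩
                  simp only [Set.mem_iUnion]
                  exact ⟨p, ⟨hp, hk⟩, hp2⟩
                · refine Or.inr ⟨K2, Or.inr ?_, hx2⟩
                  simp only [Set.mem_iUnion]
                  exact ⟨p, ⟨hp, hk⟩, hK2⟩
              · have e2 : a = c ∧ x = k ++ y := by simpa using e1
                obtain ⟨rfl, rfl⟩ := e2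
                exact Or.inl ⟨(p.1, p.2.leftQuotient [a]), Or.inl ⟨p, hp, rfl⟩, k, hk, y, hy, rfl⟩
            · exact Or.inr ⟨_, Or.inl ⟨K, hK, rfl⟩, hx⟩
          · rintro (⟨p, hp | hp, k, hk, y, hy, rfl⟩ | ⟨K, hK | hK, hx⟩)
            · obtain ⟨p', hp', rfl⟩ := hp
              exact Or.inl ⟨p', hp', a :: k, hk, y, hy, rfl⟩
            · simp only [Set.mem_iUnion] at hp
              obtain ⟨p', ⟨hp', hn⟩, hp⟩ := hp
              have h3 : Run R F p'.1 (a :: (k ++ y)) := (hG _ _).2 (Or.inl ⟨p, hp, k, hk, y, hy, rfl⟩)
              exact Or.inl ⟨p', hp', [], hn, _, h3, rfl⟩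
            · obtain ⟨K', hK', rfl⟩ := hK
              exact Or.inr ⟨K', hK', hx⟩
            · simp only [Set.mem_iUnion] at hK
              obtain ⟨p', ⟨hp', hn⟩, hK⟩ := hK
              have h3 : Run R F p'.1 (a :: x) := (hG _ _).2 (Or.inr ⟨K, hK, hx⟩)
              exact Or.inl ⟨p', hp', [], hn, _, h3, rfl⟩
  apply Language.IsRegular.of_finite_range_leftQuotient
  have hfin : (lang '' (𝒫 P1 ×ˢ 𝒫 P2)).Finite :=
    ((hP1.finite_subsets).prod (hP2.finite_subsets)).image _
  refine (hfin.insert (runL R F q)).subset ?_
  rintro _ ⟨s, rfl⟩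
  by_cases hs : s = []
  · subst hs
    exact Or.inl rfl
  · obtain ⟨Z1, hZ1, Z2, hZ2, e⟩ := key s hs
    exact Or.inr ⟨(Z1, Z2), ⟨hZ1, hZ2⟩, e.symm⟩

theorem reg_congr {L L' : Language α} (h : L'.IsRegular) (e : ∀ w : List α, w ∈ L ↔ w ∈ L') :
    L.IsRegular := by
  have : L = L' := Set.ext e
  rw [this]
  exact h

theorem isRegular_single (P : α → Prop) :
    Language.IsRegular ({w | ∃ a, P a ∧ w = [a]} : Language α) := by
  apply Language.IsRegular.of_finite_range_leftQuotient
  let L : Language α := {w | ∃ a, P a ∧ w = [a]}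
  refine (Set.toFinite {L, ({w | w = []} : Language α), ({_w | False} : Language α)}).subset ?_
  rintro _ ⟨s, rfl⟩
  rcases s with _ | ⟨a, _ | ⟨b, s⟩⟩
  · exact Or.inl rfl
  · by_cases h : P a
    · refine Or.inr (Or.inl ?_)
      ext w
      constructor
      · rintro ⟨c, _, hc⟩
        simp only [List.cons_append, List.nil_append, List.cons.injEq] at hc
        exact hc.2
      · intro hw
        have hw : w = [] := hw
        subst hw
        exact ⟨a, h, rfl⟩
    · refine Or.inr (Or.inr ?_)
      ext w
      constructor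
      · rintro ⟨c, hc1, hc⟩
        simp only [List.cons_append, List.nil_append, List.cons.injEq] at hc
        exact h (hc.1 ▸ hc1)
      · intro hw
        exact hw.elim
  · refine Or.inr (Or.inr ?_)
    ext w
    constructor
    · rintro ⟨c, hc1, hc⟩
      simp at hc
    · intro hw
      exact hw.elim

theorem isRegular_const_nil (p : Prop) : Language.IsRegular ({w | p ∧ w = []} : Language α) := by
  apply Language.IsRegular.of_finite_range_leftQuotient
  let L : Language α := {w | p ∧ w = []}
  refine (Set.toFinite {L, ({_w | False} : Language α)}).subset ?_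
  rintro _ ⟨s, rfl⟩
  rcases s with _ | ⟨a, s⟩
  · exact Or.inl rfl
  · refine Or.inr ?_
    ext w
    constructor
    · rintro ⟨_, h⟩
      simp at h
    · intro hw
      exact hw.elim

/-- acceptance by a nondeterministic automaton -/
def NP {Q : Type} (T : Q → α → Q → Prop) (acc : Q → Prop) : Q → List α → Prop
  | q, [] => acc q
  | q, a :: w => ∃ q', T q a q' ∧ NP T acc q' w

theorem isRegular_nfa {Q : Type} [Finite Q] (T : Q → α → Q → Prop) (acc : Q → Prop) (q : Q) :
    Language.IsRegular ({w | NP T acc q w} : Language α) := by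
  have h := Run.isRegular (R := fun q q' => ({w | ∃ a, T q a q' ∧ w = [a]} : Language α))
    (F := fun q => ({w | acc q ∧ w = []} : Language α))
    (fun q q' => isRegular_single _) (fun q => isRegular_const_nil _) q
  refine reg_congr h fun w => ?_
  clear h
  constructor
  · intro hw
    induction w generalizing q with
    | nil => exact Run.fin ⟨hw, rfl⟩
    | cons a w ih =>
      obtain ⟨q', h1, h2⟩ := hw
      exact Run.step (u := [a]) ⟨a, h1, rfl⟩ (ih q' h2)
  · intro hw
    induction hw with
    | fin h =>
      obtain ⟨h1, rfl⟩ := h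
      exact h1
    | step h1 _ ih =>
      obtain ⟨a, h1, rfl⟩ := h1
      exact ⟨_, h1, ih⟩

theorem isRegular_map (f : α → β) {L : Language α} (hL : L.IsRegular) :
    Language.IsRegular ({W | ∃ w ∈ L, w.map f = W} : Language β) := by
  obtain ⟨σ, _, M, rfl⟩ := hL
  have h := isRegular_nfa (fun (q : σ) (b : β) (q' : σ) => ∃ a, f a = b ∧ M.step q a = q')
    (fun q => q ∈ M.accept) M.start
  refine reg_congr h fun W => ?_
  have key : ∀ (W : List β) (q : σ), NP (fun (q : σ) (b : β) (q' : σ) => ∃ a, f a = b ∧ M.step q a = q')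
      (fun q => q ∈ M.accept) q W ↔ ∃ w, M.evalFrom q w ∈ M.accept ∧ w.map f = W := by
    intro W
    induction W with
    | nil =>
      intro q
      constructor
      · intro h
        exact ⟨[], h, rfl⟩
      · rintro ⟨w, h1, h2⟩
        rw [List.map_eq_nil_iff] at h2
        subst h2
        exact h1
    | cons b W ih =>
      intro q
      constructor
      · rintro ⟨q', ⟨a, rfl, rfl⟩, h2⟩
        obtain ⟨w, h3, rfl⟩ := (ih _).1 h2
        exact ⟨a :: w, h3, rfl⟩
      · rintro ⟨w, h1, h2⟩
        rcases w with _ | ⟨a, w⟩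
        · simp at h2
        · simp only [List.map_cons, List.cons.injEq] at h2
          obtain ⟨rfl, rfl⟩ := h2
          exact ⟨_, ⟨a, rfl, rfl⟩, (ih _).2 ⟨w, h1, rfl⟩⟩
  exact (key W M.start).symm

theorem isRegular_all (P : α → Prop) : Language.IsRegular ({w | ∀ x ∈ w, P x} : Language α) := by
  have h := isRegular_nfa (fun (_ : Unit) (b : α) (_ : Unit) => P b) (fun _ => True) ()
  refine reg_congr h fun w => ?_
  constructor
  · intro hw
    induction w with
    | nil => trivial
    | cons a w ih =>
      exact ⟨(), hw a (by simp), ih fun x hx => hw x (List.mem_cons_of_mem _ hx)⟩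
  · intro hw
    induction w with
    | nil => intro x hx; simp at hx
    | cons a w ih =>
      obtain ⟨_, h1, h2⟩ := hw
      intro x hx
      rcases List.mem_cons.1 hx with rfl | hx
      · exact h1
      · exact ih h2 x hx

theorem isRegular_ne_nil : Language.IsRegular ({w | w ≠ []} : Language α) := by
  have h := (isRegular_const_nil (α := α) True).compl
  refine reg_congr h fun w => ?_
  constructor
  · rintro hw ⟨_, h⟩
    exact hw h
  · intro hw h
    exact hw ⟨trivial, h⟩

/-- chains are regular -/
theorem isRegular_chain [Finite α] (r : α → α → Prop) :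
    Language.IsRegular ({w | w.IsChain r} : Language α) := by
  have h := isRegular_nfa (fun (q : Option α) (b : α) (q' : Option α) => (∀ a ∈ q, r a b) ∧ q' = some b)
    (fun _ => True) none
  refine reg_congr h fun w => ?_
  have key : ∀ (w : List α) (a : α), (a :: w).IsChain r ↔
      NP (fun (q : Option α) (b : α) (q' : Option α) => (∀ a ∈ q, r a b) ∧ q' = some b)
        (fun _ => True) (some a) w := by
    intro w
    induction w with
    | nil =>
      intro a
      simp [NP]
    | cons b w ih =>
      intro a
      rw [List.isChain_cons_cons, ih]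
      simp [NP]
  rcases w with _ | ⟨a, w⟩
  · exact ⟨fun _ => trivial, fun _ => List.IsChain.nil⟩
  · have := key w a
    constructor
    · intro h
      exact ⟨some a, ⟨by simp, rfl⟩, this.1 h⟩
    · rintro ⟨q', ⟨_, rfl⟩, h⟩
      exact this.2 h

theorem isRegular_last (P : α → Prop) :
    Language.IsRegular ({w | ∀ x ∈ w.getLast?, P x} : Language α) := by
  have h2 := isRegular_nfa (fun (_ : Prop) (b : α) (q' : Prop) => q' = P b)
    (fun q => q) True
  refine reg_congr h2 fun w => ?_
  have key : ∀ (w : List α) (q : Prop), NP (fun (_ : Prop) (b : α) (q' : Prop) => q' = P b)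
    (fun q => q) q w ↔ ((w = [] → q) ∧ ∀ x ∈ w.getLast?, P x) := by
    intro w
    induction w with
    | nil => intro q; simp [NP]
    | cons a w ih =>
      intro q
      simp only [NP]
      constructor
      · rintro ⟨q', rfl, h⟩
        rw [ih] at h
        refine ⟨by simp, ?_⟩
        rcases w with _ | ⟨b, w⟩
        · simpa using h.1 rfl
        · rw [List.getLast?_cons_cons]
          exact h.2
      · rintro ⟨_, h⟩
        refine ⟨_, rfl, (ih _).2 ?_⟩
        rcases w with _ | ⟨b, w⟩
        · simpa using h
        · rw [List.getLast?_cons_cons] at h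
          exact ⟨by simp, h⟩
  constructor
  · intro h
    exact (key w True).2 ⟨fun _ => trivial, h⟩
  · intro h
    exact ((key w True).1 h).2

theorem isRegular_and {L1 L2 : Language α} (h1 : L1.IsRegular) (h2 : L2.IsRegular) :
    Language.IsRegular ({w | w ∈ L1 ∧ w ∈ L2} : Language α) := h1.inf h2

theorem isRegular_and' {P1 P2 : List α → Prop} (h1 : Language.IsRegular ({w | P1 w} : Language α))
    (h2 : Language.IsRegular ({w | P2 w} : Language α)) :
    Language.IsRegular ({w | P1 w ∧ P2 w} : Language α) := h1.inf h2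

theorem isRegular_not {P : List α → Prop} (h1 : Language.IsRegular ({w | P w} : Language α)) :
    Language.IsRegular ({w | ¬ P w} : Language α) := h1.compl

theorem isRegular_prop (p : Prop) : Language.IsRegular ({_w | p} : Language α) := by
  by_cases h : p
  · have := isRegular_all (α := α) fun _ => True
    refine reg_congr this fun w => ?_
    exact ⟨fun _ _ _ => trivial, fun _ => h⟩
  · have := (isRegular_all (α := α) fun _ => True).compl
    refine reg_congr this fun w => ?_
    constructor
    · intro h'
      exact absurd h' h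
    · intro h'
      exact absurd (fun _ _ => trivial) h'

/-- finite unions of concatenations -/
theorem isRegular_cat {Z : Type} [Finite Z] {L1 L2 : Z → Language α}
    (h1 : ∀ z, (L1 z).IsRegular) (h2 : ∀ z, (L2 z).IsRegular) :
    Language.IsRegular ({w | ∃ z, ∃ u ∈ L1 z, ∃ v ∈ L2 z, w = u ++ v} : Language α) := by
  have h := Run.isRegular
    (R := fun (q q' : Option Z) => match q, q' with
      | none, some z => L1 z
      | _, _ => ({_w | False} : Language α))
    (F := fun (q : Option Z) => match q with
      | none => ({_w | False} : Language α)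
      | some z => L2 z) (by
        rintro (_ | z) (_ | z')
        · exact isRegular_prop False
        · exact h1 z'
        · exact isRegular_prop False
        · exact isRegular_prop False) (by
        rintro (_ | z)
        · exact isRegular_prop False
        · exact h2 z) none
  refine reg_congr h fun w => ?_
  constructor
  · rintro ⟨z, u, hu, v, hv, rfl⟩
    exact Run.step (q' := some z) hu (Run.fin hv)
  · intro hw
    rcases hw with h | @⟨_, q', u, w, hu, hw⟩
    · exact h.elim
    · rcases q' with _ | z
      · exact hu.elim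
      · rcases hw with h | @⟨_, q'', u', w', hu', hw'⟩
        · exact ⟨z, u, hu, w, h, rfl⟩
        · exact hu'.elim

end Pool.Agent.W395
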