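import Mathlib
import Pool.Agent.W395.Lang

/-!
# Words, paths in finite graphs, and one-relator quotients
-/

set_option autoImplicit false

namespace Pool.Agent.W395

/-- words in the letters and their inverses -/
abbrev Wd (E : Type) := List (E × Bool)

/-- all letters of the word satisfy `P` -/
def Over {E : Type} (P : E → Prop) (W : Wd E) : Prop := ∀ x ∈ W, P x.1

/-- a directed graph with edge set `E` and vertex set `V` -/
structure Gr (V E : Type) where
  s : E → V
  t : E → V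

variable {V E : Type}

/-- start of an oriented edge -/
def Gr.src (Γ : Gr V E) (x : E × Bool) : V := if x.2 then Γ.s x.1 else Γ.t x.1

/-- end of an oriented edge -/
def Gr.tgt (Γ : Gr V E) (x : E × Bool) : V := if x.2 then Γ.t x.1 else Γ.s x.1

/-- `W` is an edge path from `u` to `v` -/
def Gr.Path (Γ : Gr V E) : V → Wd E → V → Prop
  | u, [], v => u = v
  | u, x :: W, v => Γ.src x = u ∧ Γ.Path (Γ.tgt x) W v

/-- the one-relator group -/
abbrev Gp (w : Wd E) : Type := PresentedGroup ({FreeGroup.mk w} : Set (FreeGroup E))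

/-- the element of the one-relator group given by a word -/
def q (w W : Wd E) : Gp w := PresentedGroup.mk _ (FreeGroup.mk W)

section group

theorem q_append (w W W' : Wd E) : q w (W ++ W') = q w W * q w W' := by
  unfold q
  rw [← FreeGroup.mul_mk, map_mul]

theorem q_nil (w : Wd E) : q w [] = 1 := by
  unfold q
  rw [← FreeGroup.one_eq_mk, map_one]

theorem q_inv (w W : Wd E) : q w (FreeGroup.invRev W) = (q w W)⁻¹ := by
  unfold q
  rw [← FreeGroup.inv_mk, map_inv]

theorem q_self (w : Wd E) : q w w = 1 := PresentedGroup.one_of_mem (Set.mem_singleton _)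

theorem q_congr (w : Wd E) {W W' : Wd E} (h : FreeGroup.mk W = FreeGroup.mk W') :
    q w W = q w W' := by
  unfold q
  rw [h]

theorem q_surj (w : Wd E) (g : Gp w) : ∃ W, q w W = g := by
  obtain ⟨x, rfl⟩ := PresentedGroup.mk_surjective _ g
  obtain ⟨W, rfl⟩ := Quot.exists_rep x
  exact ⟨W, rfl⟩

end group

section overs

theorem Over.nil (P : E → Prop) : Over P [] := by intro x hx; simp at hx

theorem Over.append {P : E → Prop} {W W' : Wd E} (h : Over P W) (h' : Over P W') :
    Over P (W ++ W') := by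
  intro x hx
  rcases List.mem_append.1 hx with hx | hx
  · exact h x hx
  · exact h' x hx

theorem Over.left {P : E → Prop} {W W' : Wd E} (h : Over P (W ++ W')) : Over P W :=
  fun x hx => h x (List.mem_append_left _ hx)

theorem Over.right {P : E → Prop} {W W' : Wd E} (h : Over P (W ++ W')) : Over P W' :=
  fun x hx => h x (List.mem_append_right _ hx)

theorem Over.mono {P P' : E → Prop} {W : Wd E} (h : Over P W) (hP : ∀ e, P e → P' e) :
    Over P' W := fun x hx => hP _ (h x hx)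

theorem Over.invRev {P : E → Prop} {W : Wd E} (h : Over P W) : Over P (FreeGroup.invRev W) := by
  intro x hx
  simp only [FreeGroup.invRev, List.mem_reverse, List.mem_map] at hx
  obtain ⟨y, hy, rfl⟩ := hx
  exact h y hy

theorem Over.step {P : E → Prop} {W W' : Wd E} (h : Over P W) (hs : FreeGroup.Red.Step W W') :
    Over P W' := by
  rcases hs with ⟨⟩
  rename_i L1 L2 x b
  intro y hy
  apply h y
  simp only [List.mem_append, List.mem_cons] at hy ⊢
  tauto

theorem Over.red {P : E → Prop} {W W' : Wd E} (h : Over P W) (hs : FreeGroup.Red W W') :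
    Over P W' := by
  induction hs with
  | refl => exact h
  | tail _ h2 ih => exact ih.step h2

end overs

section path

variable (Γ : Gr V E)

theorem Gr.path_append {u v : V} {W W' : Wd E} :
    Γ.Path u (W ++ W') v ↔ ∃ m, Γ.Path u W m ∧ Γ.Path m W' v := by
  induction W generalizing u with
  | nil => simp [Gr.Path]
  | cons x W ih =>
    simp only [List.cons_append, Gr.Path, ih]
    constructor
    · rintro ⟨h, m, h1, h2⟩
      exact ⟨m, ⟨h, h1⟩, h2⟩
    · rintro ⟨m, ⟨h, h1⟩, h2⟩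
      exact ⟨h, m, h1, h2⟩

theorem Gr.path_unique {u v v' : V} {W : Wd E} (h : Γ.Path u W v) (h' : Γ.Path u W v') : v = v' := by
  induction W generalizing u with
  | nil => exact h.symm.trans h'
  | cons x W ih => exact ih h.2 h'.2

theorem Gr.path_singleton {u v : V} {x : E × Bool} :
    Γ.Path u [x] v ↔ Γ.src x = u ∧ Γ.tgt x = v := Iff.rfl

theorem Gr.src_inv (x : E) (b : Bool) : Γ.src (x, !b) = Γ.tgt (x, b) := by
  cases b <;> rfl

theorem Gr.tgt_inv (x : E) (b : Bool) : Γ.tgt (x, !b) = Γ.src (x, b) := by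
  cases b <;> rfl

theorem Gr.path_step {u v : V} {W W' : Wd E} (h : Γ.Path u W v) (hs : FreeGroup.Red.Step W W') :
    Γ.Path u W' v := by
  rcases hs with ⟨⟩
  rename_i L1 L2 x b
  rw [Gr.path_append] at h ⊢
  obtain ⟨m, h1, h2, h3, h4⟩ := h
  refine ⟨m, h1, ?_⟩
  rw [Γ.tgt_inv, h2] at h4
  exact h4

theorem Gr.path_red {u v : V} {W W' : Wd E} (h : Γ.Path u W v) (hs : FreeGroup.Red W W') :
    Γ.Path u W' v := by
  induction hs with
  | refl => exact h
  | tail _ h2 ih => exact Γ.path_step ih h2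

theorem Gr.path_invRev {u v : V} {W : Wd E} (h : Γ.Path u W v) :
    Γ.Path v (FreeGroup.invRev W) u := by
  induction W generalizing u with
  | nil => exact h.symm
  | cons x W ih =>
    rw [FreeGroup.invRev_cons, Gr.path_append]
    refine ⟨Γ.tgt x, ih h.2, ?_⟩
    obtain ⟨e, b⟩ := x
    rw [show FreeGroup.invRev [(e, b)] = [(e, !b)] by rfl, Gr.path_singleton, Γ.src_inv, Γ.tgt_inv]
    exact ⟨rfl, h.1⟩

theorem isRegular_path [Finite V] (u v : V) :
    Language.IsRegular ({W | Γ.Path u W v} : Language (E × Bool)) := by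
  refine reg_congr (isRegular_nfa (fun (m : V) (x : E × Bool) (m' : V) => Γ.src x = m ∧ Γ.tgt x = m')
    (fun m => m = v) u) fun W => ?_
  show Γ.Path u W v ↔ NP _ _ u W
  induction W generalizing u with
  | nil => rfl
  | cons x W ih =>
    constructor
    · rintro ⟨h1, h2⟩
      exact ⟨_, ⟨h1, rfl⟩, (ih _).1 h2⟩
    · rintro ⟨m, ⟨h1, rfl⟩, h2⟩
      exact ⟨h1, (ih _).2 h2⟩

end path

section free

open FreeGroup

theorem exists_isReduced (W : Wd E) : ∃ W', IsReduced W' ∧ Red W W' := by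
  classical
  exact ⟨reduce W, isReduced_iff_reduce_eq.2 reduce.idem, reduce.red⟩

theorem mk_eq_of_red {W W' : Wd E} (h : Red W W') : FreeGroup.mk W = FreeGroup.mk W' := by
  classical
  exact reduce.exact (reduce.eq_of_red h)

theorem eq_of_mk_eq {W W' : Wd E} (h : IsReduced W) (h' : IsReduced W')
    (e : FreeGroup.mk W = FreeGroup.mk W') : W = W' := by
  classical
  have := congrArg FreeGroup.toWord e
  rwa [toWord_mk, toWord_mk, h.reduce_eq, h'.reduce_eq] at this

theorem isReduced_append {N S : E → Prop} {ν σ : Wd E} (h : IsReduced ν) (h' : IsReduced σ)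
    (hN : ∀ x ∈ ν.getLast?, ¬ S x.1) (hS : Over S σ) : IsReduced (ν ++ σ) := by
  unfold FreeGroup.IsReduced at *
  rw [List.isChain_append]
  refine ⟨h, h', ?_⟩
  intro x hx y hy e
  exfalso
  apply hN x hx
  rw [e]
  exact hS y (List.mem_of_mem_head? hy)

/-- reduced words whose last letter is not in `S` are determined modulo words over `S` -/
theorem free_trans_inj {S : E → Prop} {ν ν' σ : Wd E} (h : IsReduced ν) (h' : IsReduced ν')
    (hl : ∀ x ∈ ν.getLast?, ¬ S x.1) (hl' : ∀ x ∈ ν'.getLast?, ¬ S x.1) (hS : Over S σ)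
    (e : FreeGroup.mk ν' = FreeGroup.mk (ν ++ σ)) : ν' = ν := by
  obtain ⟨σ', hr, hred⟩ := exists_isReduced σ
  have hS' : Over S σ' := hS.red hred
  have e2 : FreeGroup.mk ν' = FreeGroup.mk (ν ++ σ') := by
    rw [e, ← mul_mk, ← mul_mk, mk_eq_of_red hred]
  have e3 := eq_of_mk_eq h' (isReduced_append (N := S) h hr hl hS') e2
  rcases List.eq_nil_or_concat σ' with rfl | ⟨L, x, rfl⟩
  · simpa using e3
  · exfalso
    apply hl' x
    · rw [e3, List.concat_eq_append, ← List.append_assoc, List.getLast?_concat]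
      rfl
    · exact hS' x (by simp)

/-- if a reduced word whose last letter is not in `T` is a product of a word over `D` and a word
over `T`, then it is a word over `D` -/
theorem free_over_of {D T : E → Prop} {ν δ α : Wd E} (h : IsReduced ν)
    (hl : ∀ x ∈ ν.getLast?, ¬ T x.1) (hD : Over D δ) (hT : Over T α)
    (e : FreeGroup.mk ν = FreeGroup.mk (δ ++ α)) : Over D ν := by
  obtain ⟨α', hr, hred⟩ := exists_isReduced (FreeGroup.invRev α)
  obtain ⟨δ', hr', hred'⟩ := exists_isReduced δ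
  have hT' : Over T α' := hT.invRev.red hred
  have e2 : FreeGroup.mk (ν ++ α') = FreeGroup.mk δ' := by
    rw [← mul_mk, e, ← mk_eq_of_red hred, ← inv_mk, ← mul_mk, mul_inv_cancel_right,
      mk_eq_of_red hred']
  have e3 := eq_of_mk_eq (isReduced_append (N := T) h hr hl hT') hr' e2
  have : Over D (ν ++ α') := by
    rw [e3]
    exact hD.red hred'
  exact this.left

theorem exists_split (S : E → Prop) (W : Wd E) :
    ∃ ν δ, W = ν ++ δ ∧ Over S δ ∧ ∀ x ∈ ν.getLast?, ¬ S x.1 := by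
  classical
  induction W using List.reverseRecOn with
  | nil => exact ⟨[], [], rfl, Over.nil _, by simp⟩
  | append_singleton W x ih =>
    by_cases hx : S x.1
    · obtain ⟨ν, δ, rfl, h1, h2⟩ := ih
      refine ⟨ν, δ ++ [x], by simp, h1.append ?_, h2⟩
      intro y hy
      rw [List.mem_singleton] at hy
      rw [hy]
      exact hx
    · refine ⟨W ++ [x], [], by simp, Over.nil _, ?_⟩
      intro y hy
      rw [List.getLast?_concat] at hy
      simp only [Option.mem_def, Option.some.injEq] at hy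
      rw [← hy]
      exact hx

end free

/-- the words over `N` generate a free group in the one-relator group -/
def FreeOn (w : Wd E) (N : E → Prop) : Prop :=
  ∀ W, Over N W → q w W = 1 → FreeGroup.mk W = 1

theorem FreeOn.eq {w : Wd E} {N : E → Prop} (h : FreeOn w N) {W W' : Wd E} (hW : Over N W)
    (hW' : Over N W') (e : q w W = q w W') : FreeGroup.mk W = FreeGroup.mk W' := by
  have := h (W ++ FreeGroup.invRev W') (hW.append hW'.invRev) (by
    rw [q_append, q_inv, e, mul_inv_cancel])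
  rw [← FreeGroup.mul_mk, ← FreeGroup.inv_mk, mul_inv_eq_one] at this
  exact this

/-- `L` is a regular system of representatives of the classes of paths starting at `u` modulo
words over `N` -/
structure IsTrans (Γ : Gr V E) (w : Wd E) (N : E → Prop) (u : V) (L : Language (E × Bool)) :
    Prop where
  reg : L.IsRegular
  nil : [] ∈ L
  path : ∀ ℓ ∈ L, ∃ v, Γ.Path u ℓ v
  surj : ∀ W v, Γ.Path u W v → ∃ ℓ ∈ L, ∃ v' α, Γ.Path u ℓ v' ∧ Γ.Path v' α v ∧ Over N α ∧
    q w W = q w (ℓ ++ α)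
  inj : ∀ ℓ ∈ L, ∀ ℓ' ∈ L, ∀ α, Over N α → q w ℓ' = q w (ℓ ++ α) → ℓ' = ℓ

/-- the property proved by induction -/
structure Good (Γ : Gr V E) (w : Wd E) (b : E) : Prop where
  free : FreeOn w (fun e => e ≠ b)
  trans : ∀ u, ∃ L, IsTrans Γ w (fun e => e ≠ b) u L

/-- representatives modulo the words over `S`, a subset of `N` -/
def TW (Γ : Gr V E) (N S : E → Prop) (L : Language (E × Bool)) (u : V) (h : Wd E) : Prop :=
  ∃ ℓ ∈ L, ∃ ν v v', h = ℓ ++ ν ∧ Γ.Path u ℓ v ∧ Γ.Path v ν v' ∧ FreeGroup.IsReduced ν ∧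
    Over N ν ∧ ∀ x ∈ ν.getLast?, ¬ S x.1

section TW

variable {Γ : Gr V E} {N S : E → Prop} {L : Language (E × Bool)} {u : V} {w : Wd E}

theorem TW.path {h : Wd E} (H : TW Γ N S L u h) : ∃ v, Γ.Path u h v := by
  obtain ⟨ℓ, _, ν, v, v', rfl, h1, h2, _⟩ := H
  exact ⟨v', Γ.path_append.2 ⟨v, h1, h2⟩⟩

theorem TW.nil (hL : IsTrans Γ w N u L) : TW Γ N S L u [] :=
  ⟨[], hL.nil, [], u, u, rfl, rfl, rfl, FreeGroup.IsReduced.nil, Over.nil _, by simp⟩

theorem TW.inj (hL : IsTrans Γ w N u L) (hF : FreeOn w N) (hS : ∀ e, S e → N e) {h h' σ : Wd E}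
    (H : TW Γ N S L u h) (H' : TW Γ N S L u h') (hσ : Over S σ) (e : q w h' = q w (h ++ σ)) :
    h' = h := by
  obtain ⟨ℓ, hℓ, ν, v, v', rfl, h1, h2, h3, h4, h5⟩ := H
  obtain ⟨ℓ', hℓ', ν', v1, v1', rfl, h1', h2', h3', h4', h5'⟩ := H'
  have hσN : Over N σ := hσ.mono hS
  have e1 : ℓ' = ℓ := by
    apply hL.inj ℓ hℓ ℓ' hℓ' (ν ++ σ ++ FreeGroup.invRev ν') ((h4.append hσN).append h4'.invRev)
    have : q w ℓ' = q w (ℓ' ++ ν') * (q w ν')⁻¹ := by
      rw [q_append, mul_inv_cancel_right]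
    rw [this, e, ← q_inv, ← q_append]
    simp only [List.append_assoc]
  subst e1
  have e2 : q w ν' = q w (ν ++ σ) := by
    rw [q_append, List.append_assoc, q_append] at e
    exact mul_left_cancel e
  rw [free_trans_inj h3 h3' h5 h5' hσ (hF.eq h4' (h4.append hσN) e2)]

theorem TW.over (hL : IsTrans Γ w N u L) (hF : FreeOn w N) {D T : E → Prop}
    (hD : ∀ e, D e → N e) (hT : ∀ e, T e → N e) {h δ α : Wd E} (H : TW Γ N T L u h)
    (hδ : Over D δ) (hα : Over T α) (e : q w h = q w (δ ++ α)) : Over D h := by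
  obtain ⟨ℓ, hℓ, ν, v, v', rfl, h1, h2, h3, h4, h5⟩ := H
  have hδN := hδ.mono hD
  have hαN := hα.mono hT
  have e1 : ℓ = [] := by
    apply hL.inj [] hL.nil ℓ hℓ (δ ++ α ++ FreeGroup.invRev ν) ((hδN.append hαN).append h4.invRev)
    have : q w ℓ = q w (ℓ ++ ν) * (q w ν)⁻¹ := by
      rw [q_append, mul_inv_cancel_right]
    rw [this, e, ← q_inv, ← q_append]
    simp only [List.nil_append]
  subst e1
  rw [List.nil_append] at e ⊢
  exact free_over_of h3 h5 hδ hα (hF.eq h4 (hδN.append hαN) e)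

theorem TW.exists (hL : IsTrans Γ w N u L) {W : Wd E} {v : V} (hW : Γ.Path u W v) :
    ∃ h z δ, TW Γ N S L u h ∧ Γ.Path u h z ∧ Γ.Path z δ v ∧ Over S δ ∧
      q w W = q w (h ++ δ) := by
  obtain ⟨ℓ, hℓ, v', α, h1, h2, h3, h4⟩ := hL.surj W v hW
  obtain ⟨α', hr, hred⟩ := exists_isReduced α
  have h2' := Γ.path_red h2 hred
  have h3' := h3.red hred
  obtain ⟨ν, δ, rfl, h5, h6⟩ := exists_split S α'
  obtain ⟨z, h7, h8⟩ := Γ.path_append.1 h2'
  refine ⟨ℓ ++ ν, z, δ, ⟨ℓ, hℓ, ν, v', z, rfl, h1, h7, ?_, h3'.left, h6⟩,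
    Γ.path_append.2 ⟨v', h1, h7⟩, h8, h5, ?_⟩
  · exact (List.isChain_append.1 hr).1
  · rw [h4, List.append_assoc, q_append, q_append w ℓ, q_congr w (mk_eq_of_red hred)]

theorem TW.isRegular [Finite V] [Finite E] (hL : L.IsRegular) (y : V) :
    Language.IsRegular ({h | TW Γ N S L u h ∧ Γ.Path u h y} : Language (E × Bool)) := by
  have h := isRegular_cat (Z := V)
    (L1 := fun z => ({ℓ | ℓ ∈ L ∧ Γ.Path u ℓ z} : Language (E × Bool)))
    (L2 := fun z => ({ν | (Γ.Path z ν y ∧ FreeGroup.IsReduced ν) ∧ (Over N ν ∧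
      ∀ x ∈ ν.getLast?, ¬ S x.1)} : Language (E × Bool)))
    (fun z => isRegular_and' hL (isRegular_path Γ u z))
    (fun z => isRegular_and' (isRegular_and' (isRegular_path Γ z y) (isRegular_chain _))
      (isRegular_and' (isRegular_all _) (isRegular_last _)))
  refine reg_congr h fun W => ?_
  constructor
  · rintro ⟨⟨ℓ, hℓ, ν, v, v', rfl, h1, h2, h3, h4, h5⟩, h6⟩
    obtain ⟨z, h7, h8⟩ := Γ.path_append.1 h6
    obtain rfl := Γ.path_unique h7 h1
    exact ⟨z, ℓ, ⟨hℓ, h1⟩, ν, ⟨⟨h8, h3⟩, h4, h5⟩, rfl⟩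
  · rintro ⟨z, ℓ, ⟨hℓ, h1⟩, ν, ⟨⟨h8, h3⟩, h4, h5⟩, rfl⟩
    exact ⟨⟨ℓ, hℓ, ν, z, y, rfl, h1, h8, h3, h4, h5⟩, Γ.path_append.2 ⟨z, h1, h8⟩⟩

end TW

end Pool.Agent.W395
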