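import Mathlib
import Pool.Agent.W395.Words
import Pool.Agent.W395.Hnn

/-!
# The base case: powers of a word in which `b` occurs once
-/

set_option autoImplicit false

namespace Pool.Agent.W395

variable {V E : Type}

theorem isRegular_word {α : Type} (c : List α) :
    Language.IsRegular ({w | w = c} : Language α) := by
  induction c with
  | nil => exact reg_congr (isRegular_const_nil True) fun w => ⟨fun h => ⟨trivial, h⟩, fun h => h.2⟩
  | cons a c ih =>
    have h := isRegular_cat (Z := Unit)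
      (L1 := fun _ => ({w | ∃ x, x = a ∧ w = [x]} : Language α))
      (L2 := fun _ => ({w | w = c} : Language α)) (fun _ => isRegular_single _) (fun _ => ih)
    refine reg_congr h fun w => ?_
    constructor
    · intro hw
      have hw : w = a :: c := hw
      exact ⟨(), [a], ⟨a, rfl, rfl⟩, c, rfl, hw⟩
    · rintro ⟨_, u, ⟨x, rfl, rfl⟩, v, hv, rfl⟩
      have hv : v = c := hv
      rw [hv]
      rfl

/-- powers of a word -/
def pw (B : Wd E) : ℕ → Wd E
  | 0 => []
  | k + 1 => B ++ pw B k

theorem pw_succ (B : Wd E) (k : ℕ) : pw B (k + 1) = pw B k ++ B := by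
  induction k with
  | zero => simp [pw]
  | succ k ih =>
    show B ++ pw B (k + 1) = (B ++ pw B k) ++ B
    rw [ih, List.append_assoc]

theorem path_pw (Γ : Gr V E) {B : Wd E} {p : V} (hB : Γ.Path p B p) (k : ℕ) :
    Γ.Path p (pw B k) p := by
  induction k with
  | zero => rfl
  | succ k ih => exact Γ.path_append.2 ⟨p, hB, ih⟩

section lang

variable (Γ : Gr V E) (b : E) (B : Wd E) (p u : V) (k : ℕ)

/-- the vertex of a state -/
def bv (q : Bool) : V := if q then p else u

/-- admissible pieces -/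
def RB (q q' : Bool) (i : ℕ) (a : Wd E) : Prop :=
  ((q' = true ∧ 1 ≤ i ∧ i < k) ∧ (q = true → a ≠ [])) ∧
    ((Γ.Path (bv p u q) a p ∧ FreeGroup.IsReduced a) ∧ Over (fun e => e ≠ b) a)

def RBL (q q' : Bool) : Language (E × Bool) :=
  {W | ∃ i : Fin k, ∃ a ∈ ({a | RB Γ b p u k q q' i.1 a} : Language (E × Bool)),
    ∃ c ∈ ({c | c = pw B i.1} : Language (E × Bool)), W = a ++ c}

def FBL (_q : Bool) : Language (E × Bool) := {W | True ∧ W = []}

theorem RBL_reg [Finite V] [Finite E] (q q' : Bool) : (RBL Γ b B p u k q q').IsRegular := by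
  refine isRegular_cat (fun i => ?_) (fun i => isRegular_word _)
  refine isRegular_and' (P1 := fun a => (q' = true ∧ 1 ≤ i.1 ∧ i.1 < k) ∧ (q = true → a ≠ [])) ?_ ?_
  · refine isRegular_and' (P1 := fun _ => q' = true ∧ 1 ≤ i.1 ∧ i.1 < k) (isRegular_prop _) ?_
    by_cases hq : q = true
    · exact reg_congr isRegular_ne_nil fun w => ⟨fun h => h hq, fun h _ => h⟩
    · exact reg_congr (isRegular_prop True) fun w => ⟨fun _ => trivial, fun _ h => absurd h hq⟩
  · exact isRegular_and' (isRegular_and' (isRegular_path Γ _ _) (isRegular_chain _))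
      (isRegular_all _)

inductive BPre : Wd E → Bool → Prop
  | nil : BPre [] false
  | snoc {ℓ : Wd E} {q : Bool} {i : ℕ} {a : Wd E} : BPre ℓ q → RB Γ b p u k q true i a →
      BPre (ℓ ++ a ++ pw B i) true

theorem BPre.run {ℓ W : Wd E} {q : Bool} (h : BPre Γ b B p u k ℓ q)
    (hW : Run (RBL Γ b B p u k) (FBL (E := E)) q W) :
    Run (RBL Γ b B p u k) (FBL (E := E)) false (ℓ ++ W) := by
  induction h generalizing W with
  | nil => exact hW
  | @snoc ℓ q i a h1 h2 ih =>
    rw [List.append_assoc, List.append_assoc, ← List.append_assoc a]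
    exact ih (Run.step ⟨⟨i, h2.1.1.2.2⟩, a, h2, _, rfl, rfl⟩ hW)

end lang

section surj

variable {Γ : Gr V E} {b : E} {B : Wd E} {p u : V} {k : ℕ}

/-- decompositions of a group element -/
def BCfg (Γ : Gr V E) (b : E) (B : Wd E) (p u : V) (k : ℕ) (g : Gp (pw B k)) (v : V) : Prop :=
  ∃ ℓ c α, BPre Γ b B p u k ℓ c ∧ Γ.Path (bv p u c) α v ∧ Over (fun e => e ≠ b) α ∧
    g = q (pw B k) (ℓ ++ α)

theorem BCfg.appendA {g : Gp (pw B k)} {v v' : V} (h : BCfg Γ b B p u k g v) {β : Wd E}
    (hβ : Γ.Path v β v') (hb : Over (fun e => e ≠ b) β) :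
    BCfg Γ b B p u k (g * q (pw B k) β) v' := by
  obtain ⟨ℓ, c, α, h1, h2, h3, h4⟩ := h
  refine ⟨ℓ, c, α ++ β, h1, Γ.path_append.2 ⟨v, h2, hβ⟩, h3.append hb, ?_⟩
  rw [h4, ← q_append, List.append_assoc]

theorem BCfg.appendB (hk : 1 ≤ k) {g : Gp (pw B k)} (h : BCfg Γ b B p u k g p) :
    BCfg Γ b B p u k (g * q (pw B k) B) p := by
  obtain ⟨ℓ, c, α, h1, h2, h3, h4⟩ := h
  obtain ⟨α', hr, hred⟩ := exists_isReduced α
  have h2' := Γ.path_red h2 hred
  have h3' := h3.red hred
  have h4' : g = q (pw B k) (ℓ ++ α') := by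
    rw [h4, q_append, q_append, q_congr _ (mk_eq_of_red hred)]
  by_cases hk1 : k = 1
  · subst hk1
    refine ⟨ℓ, c, α', h1, h2', h3', ?_⟩
    have e : pw B 1 = B := by simp [pw]
    have : q (pw B 1) B = 1 := (congrArg (q (pw B 1)) e.symm).trans (q_self _)
    rw [this, mul_one, h4']
  · by_cases hc : c = true ∧ α' = []
    · obtain ⟨rfl, rfl⟩ := hc
      generalize hcc : true = cc at h1
      rcases h1 with _ | @⟨ℓ1, c1, i, a, h5, h6⟩
      · simp at hcc
      · obtain ⟨⟨⟨_, hi1, hi2⟩, h7⟩, ⟨h8, h9⟩, h10⟩ := h6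
        by_cases hi : i + 1 = k
        · refine ⟨ℓ1, c1, a, h5, h8, h10, ?_⟩
          rw [h4', List.append_nil, q_append, q_append, mul_assoc, mul_assoc, ← q_append _ (pw B i),
            ← pw_succ, hi, q_self, mul_one, ← q_append]
        · refine ⟨ℓ1 ++ a ++ pw B (i + 1), true, [], BPre.snoc h5
            ⟨⟨⟨rfl, by omega, by omega⟩, h7⟩, ⟨h8, h9⟩, h10⟩, rfl, Over.nil _, ?_⟩
          rw [h4', List.append_nil, List.append_nil, q_append, q_append _ (ℓ1 ++ a) (pw B (i + 1)),
            pw_succ, q_append _ (pw B i), mul_assoc]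
    · refine ⟨ℓ ++ α' ++ pw B 1, true, [], BPre.snoc h1
          ⟨⟨⟨rfl, le_rfl, by omega⟩, fun h h' => hc ⟨h, h'⟩⟩, ⟨h2', hr⟩, h3'⟩, rfl, Over.nil _, ?_⟩
      have e : pw B 1 = B := by simp [pw]
      rw [h4', List.append_nil, q_append _ (ℓ ++ α') (pw B 1), e]

theorem BCfg.appendBs (hk : 1 ≤ k) {g : Gp (pw B k)} (h : BCfg Γ b B p u k g p) (i : ℕ) :
    BCfg Γ b B p u k (g * q (pw B k) (pw B i)) p := by
  induction i with
  | zero =>
    rw [show pw B 0 = [] from rfl, q_nil, mul_one]
    exact h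
  | succ i ih =>
    rw [pw_succ B i, q_append, ← mul_assoc]
    exact BCfg.appendB hk ih

theorem BCfg.exists (hk : 1 ≤ k) {ε : Bool} {v : Wd E} (hB : B = (b, ε) :: v)
    (hv : Over (fun e => e ≠ b) v) (hp : Γ.Path p B p) (W : Wd E) :
    ∀ z, Γ.Path u W z → BCfg Γ b B p u k (q (pw B k) W) z := by
  have hp1 : Γ.src (b, ε) = p := by
    rw [hB] at hp
    exact hp.1
  have hp2 : Γ.Path (Γ.tgt (b, ε)) v p := by
    rw [hB] at hp
    exact hp.2
  induction W using List.reverseRecOn with
  | nil =>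
    intro z hz
    exact ⟨[], false, [], BPre.nil, hz, Over.nil _, rfl⟩
  | append_singleton W a ih =>
    intro z hz
    obtain ⟨m, h1, h2, h3⟩ := Γ.path_append.1 hz
    have h3 : Γ.tgt a = z := h3
    have h4 := ih m h1
    rw [q_append]
    by_cases ha : a.1 = b
    · by_cases hε : a.2 = ε
      · have ha' : a = (b, ε) := Prod.ext ha hε
        subst ha'
        rw [hp1] at h2
        subst h2
        have h5 := BCfg.appendB hk h4
        have h6 := BCfg.appendA h5 (Γ.path_invRev hp2) hv.invRev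
        rw [h3] at h6
        have e : q (pw B k) W * q (pw B k) [(b, ε)] =
            q (pw B k) W * q (pw B k) B * q (pw B k) (FreeGroup.invRev v) := by
          rw [mul_assoc, q_inv]
          congr 1
          rw [eq_mul_inv_iff_mul_eq, ← q_append, hB]
          rfl
        rw [e]
        exact h6
      · have ha' : a = (b, !ε) := Prod.ext ha (by
          rcases h : a.2 with _ | _ <;> rcases h' : ε with _ | _ <;> simp_all)
        subst ha'
        rw [Γ.src_inv] at h2
        rw [Γ.tgt_inv, hp1] at h3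
        subst h2
        subst h3
        have h5 := BCfg.appendA h4 hp2 hv
        have h6 := BCfg.appendBs hk h5 (k - 1)
        have e : q (pw B k) W * q (pw B k) [(b, !ε)] =
            q (pw B k) W * q (pw B k) v * q (pw B k) (pw B (k - 1)) := by
          rw [mul_assoc]
          congr 1
          have e1 : q (pw B k) [(b, !ε)] = (q (pw B k) [(b, ε)])⁻¹ := by
            rw [← q_inv]
            rfl
          have e2 : q (pw B k) B * q (pw B k) (pw B (k - 1)) = 1 := by
            rw [← q_append]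
            have : B ++ pw B (k - 1) = pw B k := by
              conv_rhs => rw [show k = (k - 1) + 1 by omega]
              rfl
            rw [this, q_self]
          have e3 : q (pw B k) B = q (pw B k) [(b, ε)] * q (pw B k) v := by
            rw [← q_append, hB]
            rfl
          rw [e3, mul_assoc] at e2
          rw [e1, inv_eq_of_mul_eq_one_right e2]
        rw [e]
        exact h6
    · have h5 := BCfg.appendA (β := [a]) h4 ⟨h2, h3⟩ (by
        intro x hx
        rw [List.mem_singleton] at hx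
        rw [hx]
        exact ha)
      exact h5

end surj

section inj

variable {Γ : Gr V E} {b : E} {B : Wd E} {p u : V} {k : ℕ} {H : Type} [Group H]
  {o : FreeGroup E × Multiplicative (ZMod k) →* H} {t : H}

/-- the comparison property for trivial associated subgroups -/
def NP0 {G : Type} [Group G] (l : List (ℤˣ × G)) : Prop :=
  l.IsChain (fun a b => a.2 = 1 → a.1 = b.1)

theorem exists_hnn0 (G : Type) [Group G] : ∃ (H : Type) (_ : Group H) (o : G →* H) (t : H),
      ∀ (a b : G) (l l' : List (ℤˣ × G)), NP0 l → NP0 l' →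
        o a * lprod o t l = o b * lprod o t l' →
        l.map Prod.fst = l'.map Prod.fst ∧
          (l ≠ [] → a = b) ∧ (l = [] → a = b) := by
  obtain ⟨H, iH, o, t, _, h⟩ := exists_hnn (G := G) (I := PUnit) 1 1
    (fun _ _ _ => rfl) (fun _ _ _ => rfl)
  have has : ∀ (u : ℤˣ) (x : G), x ∈ assoc (1 : PUnit →* G) 1 u ↔ x = 1 := by
    intro u x
    unfold assoc
    rw [ite_self]
    constructor
    · rintro ⟨_, rfl⟩
      rfl
    · rintro rfl
      exact ⟨1, rfl⟩
  have hnp : ∀ l : List (ℤˣ × G), NP0 l → NoPinch (1 : PUnit →* G) 1 l := by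
    intro l hl
    refine List.IsChain.imp ?_ hl
    intro a b hab h
    exact hab ((has _ _).1 h)
  refine ⟨H, iH, o, t, ?_⟩
  intro a b l l' hl hl' e
  obtain ⟨h1, h2, h3⟩ := h a b l l' (hnp l hl) (hnp l' hl') e
  refine ⟨h1, ?_, h3⟩
  intro hne
  rcases l with _ | ⟨x, l⟩
  · exact absurd rfl hne
  · have := (has _ _).1 (h2 x.1 rfl)
    exact inv_mul_eq_one.1 this

/-- the value of the generator of the cyclic group -/
def cv (o : FreeGroup E × Multiplicative (ZMod k) →* H) (t : H) (i : ℕ) : H :=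
  t * o (1, Multiplicative.ofAdd (i : ZMod k)) * t⁻¹

inductive BV (Γ : Gr V E) (b : E) (B : Wd E) (p u : V) (k : ℕ)
    (o : FreeGroup E × Multiplicative (ZMod k) →* H) (t : H) : Bool → Wd E → H → Prop
  | fin {c : Bool} : BV Γ b B p u k o t c [] 1
  | step {c c' : Bool} {i : ℕ} {a : Wd E} {W : Wd E} {X : H} : RB Γ b p u k c c' i a →
      BV Γ b B p u k o t c' W X →
      BV Γ b B p u k o t c (a ++ pw B i ++ W) (o (FreeGroup.mk a, 1) * cv o t i * X)

theorem zmod_ne {k i : ℕ} (h1 : 1 ≤ i) (h2 : i < k) : ((1 : FreeGroup E),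
    Multiplicative.ofAdd (i : ZMod k)) ≠ 1 := by
  intro h
  have h3 : Multiplicative.ofAdd (i : ZMod k) = 1 := congrArg Prod.snd h
  have h4 : (i : ZMod k) = 0 := h3
  rw [ZMod.natCast_eq_zero_iff] at h4
  have := Nat.le_of_dvd (by omega) h4
  omega

theorem BV.rep {c : Bool} {W : Wd E} {X : H} (h : BV Γ b B p u k o t c W X) (α : FreeGroup E) :
    ∃ g l, NP0 l ∧ X * o (α, 1) = o g * lprod o t l ∧ (c = true → l = [] ∨ g ≠ 1) ∧
      ∀ x ∈ l.head?, x.1 = 1 := by
  induction h with
  | fin => exact ⟨(α, 1), [], List.IsChain.nil, by rw [one_mul]; simp [lprod], fun _ => Or.inl rfl,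
      by simp⟩
  | @step c c' i a W X hR hV ih =>
    obtain ⟨g, l, h1, h2, h3, h4⟩ := ih
    obtain ⟨⟨⟨h5, h6, h7⟩, h8⟩, ⟨h9, h10⟩, h11⟩ := hR
    refine ⟨(FreeGroup.mk a, 1), (1, (1, Multiplicative.ofAdd (i : ZMod k))) :: (-1, g) :: l,
      ?_, ?_, ?_, ?_⟩
    · unfold NP0
      rw [List.isChain_cons_cons]
      refine ⟨fun h => absurd h (zmod_ne h6 h7), ?_⟩
      rw [List.isChain_cons]
      refine ⟨?_, h1⟩
      intro y hy hg
      exfalso
      rcases h3 h5 with rfl | h12
      · simp at hy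
      · exact h12 hg
    · rw [mul_assoc, h2]
      unfold cv lprod
      simp only [List.map_cons, List.prod_cons, Units.val_one, zpow_one, Units.val_neg, zpow_neg,
        mul_assoc]
    · intro hc
      right
      intro h12
      have h13 : FreeGroup.mk a = 1 := congrArg Prod.fst h12
      rw [FreeGroup.one_eq_mk] at h13
      exact h8 hc (eq_of_mk_eq h10 FreeGroup.IsReduced.nil h13)
    · intro x hx
      simp only [List.head?_cons, Option.mem_def, Option.some.injEq] at hx
      rw [← hx]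

theorem BV.inj (hcmp : ∀ (a b : FreeGroup E × Multiplicative (ZMod k))
      (l l' : List (ℤˣ × (FreeGroup E × Multiplicative (ZMod k)))), NP0 l → NP0 l' →
        o a * lprod o t l = o b * lprod o t l' →
        l.map Prod.fst = l'.map Prod.fst ∧ (l ≠ [] → a = b) ∧ (l = [] → a = b))
    {c : Bool} {W W' : Wd E} {X X' : H}
    (h : BV Γ b B p u k o t c W X) (h' : BV Γ b B p u k o t c W' X') {α : FreeGroup E}
    (e : X * o (α, 1) = X') : W' = W := by
  have hnp2 : ∀ {c : Bool} {W : Wd E} {X : H} (_ : BV Γ b B p u k o t c W X) (_ : c = true)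
      (α : FreeGroup E), ∃ g l, X * o (α, 1) = o g * lprod o t l ∧
        NP0 ((-1, g) :: l) ∧ ∀ i, 1 ≤ i → i < k →
          NP0 ((1, ((1 : FreeGroup E), Multiplicative.ofAdd (i : ZMod k))) :: (-1, g) :: l) := by
    intro c W X hX hc α
    obtain ⟨g, l, h1, h2, h3, h4⟩ := hX.rep α
    have h5 : NP0 ((-1, g) :: l) := by
      unfold NP0
      rw [List.isChain_cons]
      refine ⟨?_, h1⟩
      intro y hy hg
      exfalso
      rcases h3 hc with rfl | h12
      · simp at hy
      · exact h12 hg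
    refine ⟨g, l, h2, h5, ?_⟩
    intro i hi1 hi2
    unfold NP0
    rw [List.isChain_cons_cons]
    exact ⟨fun h => absurd h (zmod_ne hi1 hi2), h5⟩
  have key : ∀ {c' : Bool} {i : ℕ} {W : Wd E} {X : H} (_ : BV Γ b B p u k o t c' W X) (_ : c' = true)
      (_ : 1 ≤ i ∧ i < k) (a α : FreeGroup E),
      ∃ g l, X * o (α, 1) = o g * lprod o t l ∧ NP0 ((-1, g) :: l) ∧
        NP0 ((1, ((1 : FreeGroup E), Multiplicative.ofAdd (i : ZMod k))) :: (-1, g) :: l) ∧
        o (a, 1) * cv o t i * X * o (α, 1) = o (a, 1) * lprod o t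
          ((1, ((1 : FreeGroup E), Multiplicative.ofAdd (i : ZMod k))) :: (-1, g) :: l) := by
    intro c' i W X hX hc hi a α
    obtain ⟨g, l, h1, h2, h3⟩ := hnp2 hX hc α
    refine ⟨g, l, h1, h2, h3 i hi.1 hi.2, ?_⟩
    rw [mul_assoc, h1]
    unfold cv lprod
    simp only [List.map_cons, List.prod_cons, Units.val_one, zpow_one, Units.val_neg, zpow_neg,
        mul_assoc]
  induction h generalizing W' X' α with
  | @fin c =>
    rcases h' with _ | @⟨_, c', i', a', W', X', hR', hV'⟩
    · rfl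
    · exfalso
      obtain ⟨g, l, h1, h2, h3, h4⟩ := key hV' hR'.1.1.1 hR'.1.1.2 (FreeGroup.mk a') 1
      have h5 : o ((1 : FreeGroup E), (1 : Multiplicative (ZMod k))) = 1 := map_one o
      rw [h5, mul_one, ← e, one_mul] at h4
      have h6 : o (α, 1) * lprod o t [] = o (α, 1) := by simp [lprod]
      rw [← h6] at h4
      have := (hcmp _ _ _ _ List.IsChain.nil h3 h4).1
      simp at this
  | @step c c' i a W X hR hV ih =>
    have h5 : o ((1 : FreeGroup E), (1 : Multiplicative (ZMod k))) = 1 := map_one o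
    rcases h' with _ | @⟨_, c2, i', a', W', X', hR', hV'⟩
    · exfalso
      obtain ⟨g, l, h1, h2, h3, h4⟩ := key hV hR.1.1.1 hR.1.1.2 (FreeGroup.mk a) α
      rw [e] at h4
      have h6 : o ((1 : FreeGroup E), 1) * lprod o t [] = 1 := by
        rw [h5]
        simp [lprod]
      rw [← h6] at h4
      have := (hcmp _ _ _ _ List.IsChain.nil h3 h4).1
      simp at this
    · obtain ⟨g, l, h1, h2, h3, h4⟩ := key hV hR.1.1.1 hR.1.1.2 (FreeGroup.mk a) α
      obtain ⟨g', l', h1', h2', h3', h4'⟩ := key hV' hR'.1.1.1 hR'.1.1.2 (FreeGroup.mk a') 1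
      rw [h5, mul_one] at h4' h1'
      have e1 := e
      rw [h4, h4'] at e1
      obtain ⟨c3, c4, c5⟩ := hcmp _ _ _ _ h3 h3' e1
      have c6 := c4 (by simp)
      have c7 : FreeGroup.mk a = FreeGroup.mk a' := congrArg Prod.fst c6
      have c8 : a = a' := eq_of_mk_eq hR.2.1.2 hR'.2.1.2 c7
      subst c8
      have e2 : o ((1 : FreeGroup E), Multiplicative.ofAdd (i : ZMod k)) * lprod o t ((-1, g) :: l) =
          o ((1 : FreeGroup E), Multiplicative.ofAdd (i' : ZMod k)) *
            lprod o t ((-1, g') :: l') := by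
        have e3 := mul_left_cancel e1
        unfold lprod at e3 ⊢
        rw [List.map_cons, List.prod_cons, List.map_cons (l := (-1, g') :: l'), List.prod_cons] at e3
        simp only [Units.val_one, zpow_one, mul_assoc] at e3
        exact mul_left_cancel e3
      obtain ⟨c9, c10, c11⟩ := hcmp _ _ _ _ h2 h2' e2
      have c12 := c10 (by simp)
      have c13 : (i : ZMod k) = (i' : ZMod k) := congrArg Prod.snd c12
      rw [ZMod.natCast_eq_natCast_iff] at c13
      have c14 : i = i' := Nat.ModEq.eq_of_lt_of_lt c13 hR.1.1.2.2 hR'.1.1.2.2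
      subst c14
      have hcc : c2 = c' := by rw [hR.1.1.1, hR'.1.1.1]
      subst hcc
      rw [ih hV' (by
        rw [mul_assoc] at e
        exact mul_left_cancel e) (α := α)]

end inj

end Pool.Agent.W395
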