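import Mathlib
import Pool.Agent.W395.Base

/-!
# The base case: conclusion
-/

set_option autoImplicit false

namespace Pool.Agent.W395

variable {V E : Type}

section

variable {k : ℕ} {H : Type} [Group H] (o : FreeGroup E × Multiplicative (ZMod k) →* H) (t : H)

theorem cv_zero : cv o t 0 = 1 := by
  unfold cv
  have : ((1 : FreeGroup E), Multiplicative.ofAdd ((0 : ℕ) : ZMod k)) = 1 := by
    rw [Nat.cast_zero]
    rfl
  rw [this, map_one, mul_one, mul_inv_cancel]

theorem cv_add (i j : ℕ) : cv o t (i + j) = cv o t i * cv o t j := by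
  unfold cv
  have : ((1 : FreeGroup E), Multiplicative.ofAdd ((i + j : ℕ) : ZMod k)) =
      ((1 : FreeGroup E), Multiplicative.ofAdd (i : ZMod k)) *
        ((1 : FreeGroup E), Multiplicative.ofAdd (j : ZMod k)) := by
    rw [Nat.cast_add, Prod.mk_mul_mk, mul_one, ofAdd_add]
  rw [this, map_mul]
  group

theorem cv_self : cv o t k = 1 := by
  unfold cv
  have : ((1 : FreeGroup E), Multiplicative.ofAdd (k : ZMod k)) = 1 := by
    rw [ZMod.natCast_self]
    rfl
  rw [this, map_one, mul_one, mul_inv_cancel]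

end

theorem good_power [Finite V] [Finite E] (Γ : Gr V E) (b : E) (ε : Bool) (v : Wd E)
    (hv : Over (fun e => e ≠ b) v) (p : V) (hp : Γ.Path p ((b, ε) :: v) p) (k : ℕ) (hk : 1 ≤ k) :
    Good Γ (pw ((b, ε) :: v) k) b := by
  classical
  obtain ⟨B, hBdef⟩ : ∃ B, B = (b, ε) :: v := ⟨_, rfl⟩
  rw [← hBdef] at hp ⊢
  obtain ⟨H, iH, o, t, hcmp⟩ := exists_hnn0 (FreeGroup E × Multiplicative (ZMod k))
  let oF : FreeGroup E →* H := o.comp (MonoidHom.inl _ _)
  let bb : H := cv o t 1 * (oF (FreeGroup.mk v))⁻¹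
  let f0 : E → H := fun e => if e = b then (if ε = true then bb else bb⁻¹)
    else oF (FreeGroup.of e)
  have hmk : ∀ W W' : Wd E, FreeGroup.lift f0 (FreeGroup.mk (W ++ W')) =
      FreeGroup.lift f0 (FreeGroup.mk W) * FreeGroup.lift f0 (FreeGroup.mk W') := by
    intro W W'
    rw [← FreeGroup.mul_mk, map_mul]
  have hA : ∀ W, Over (fun e => e ≠ b) W →
      FreeGroup.lift f0 (FreeGroup.mk W) = oF (FreeGroup.mk W) := by
    intro W hW
    induction W with
    | nil => rw [← FreeGroup.one_eq_mk, map_one, map_one]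
    | cons a W ih =>
      have h1 := ih fun y hy => hW y (List.mem_cons_of_mem _ hy)
      have h2 := hmk [a] W
      have h3 : FreeGroup.mk (a :: W) = FreeGroup.mk [a] * FreeGroup.mk W := by
        rw [FreeGroup.mul_mk]
        rfl
      have h4 : FreeGroup.lift f0 (FreeGroup.mk [a]) = oF (FreeGroup.mk [a]) := by
        have ha : a.1 ≠ b := hW a List.mem_cons_self
        obtain ⟨e, β⟩ := a
        have ha : e ≠ b := ha
        have h5 : f0 e = oF (FreeGroup.of e) := if_neg ha
        rw [FreeGroup.lift_mk]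
        rcases β with _ | _
        · simp only [List.map_cons, List.map_nil, List.prod_singleton, cond_false]
          rw [h5, ← map_inv]
          rfl
        · simp only [List.map_cons, List.map_nil, List.prod_singleton, cond_true]
          rw [h5]
          rfl
      rw [h3, map_mul, map_mul, h4, h1]
  have hb : FreeGroup.lift f0 (FreeGroup.mk [(b, ε)]) = bb := by
    have h5 : f0 b = if ε = true then bb else bb⁻¹ := if_pos rfl
    rw [FreeGroup.lift_mk]
    rcases ε with _ | _
    · simp only [List.map_cons, List.map_nil, List.prod_singleton, cond_false]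
      rw [h5]
      simp
    · simp only [List.map_cons, List.map_nil, List.prod_singleton, cond_true]
      rw [h5]
      simp
  have hBv : FreeGroup.lift f0 (FreeGroup.mk B) = cv o t 1 := by
    have h1 : B = [(b, ε)] ++ v := hBdef
    rw [h1, hmk, hb, hA v hv, inv_mul_cancel_right]
  have hpw : ∀ i, FreeGroup.lift f0 (FreeGroup.mk (pw B i)) = cv o t i := by
    intro i
    induction i with
    | zero => rw [show pw B 0 = [] from rfl, ← FreeGroup.one_eq_mk, map_one, cv_zero]
    | succ i ih => rw [pw_succ, hmk, ih, hBv, cv_add]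
  have hw : FreeGroup.lift f0 (FreeGroup.mk (pw B k)) = 1 := by rw [hpw, cv_self]
  have hr : ∀ r ∈ ({FreeGroup.mk (pw B k)} : Set (FreeGroup E)), FreeGroup.lift f0 r = 1 := by
    intro r hr
    rw [Set.mem_singleton_iff] at hr
    rw [hr, hw]
  have hom : ∀ W W', q (pw B k) W = q (pw B k) W' →
      FreeGroup.lift f0 (FreeGroup.mk W) = FreeGroup.lift f0 (FreeGroup.mk W') := by
    intro W W' e
    exact congrArg (PresentedGroup.toGroup hr) e
  have hrun : ∀ (u : V) {c : Bool} {W : Wd E},
      Run (RBL Γ b B p u k) (FBL (E := E)) c W →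
      BV Γ b B p u k o t c W (FreeGroup.lift f0 (FreeGroup.mk W)) := by
    intro u c W h
    induction h with
    | fin h =>
      obtain ⟨_, rfl⟩ := h
      rw [← FreeGroup.one_eq_mk, map_one]
      exact BV.fin
    | step h _ ih =>
      obtain ⟨i, a, ha, c, hc, rfl⟩ := h
      have hc : c = pw B i.1 := hc
      subst hc
      have ha : RB Γ b p u k _ _ i.1 a := ha
      have := BV.step ha ih
      rw [hmk, hmk, hpw, hA a ha.2.2]
      exact this
  constructor
  · intro W hW e
    have h1 := hom W [] (by rw [e, q_nil])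
    rw [hA W hW, ← FreeGroup.one_eq_mk, map_one] at h1
    have h2 : o (FreeGroup.mk W, 1) * lprod o t [] = o 1 * lprod o t [] := by
      have h1 : o (FreeGroup.mk W, 1) = 1 := h1
      rw [h1, map_one]
    have h3 := (hcmp _ _ _ _ List.IsChain.nil List.IsChain.nil h2).2.2 rfl
    exact congrArg Prod.fst h3
  · intro u
    refine ⟨runL (RBL Γ b B p u k) (FBL (E := E)) false, ?_, ?_, ?_, ?_, ?_⟩
    · exact Run.isRegular (RBL_reg Γ b B p u k) (fun c => isRegular_const_nil True) false
    · exact Run.fin ⟨trivial, rfl⟩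
    · intro ℓ hℓ
      have key : ∀ {c : Bool} {W : Wd E}, Run (RBL Γ b B p u k) (FBL (E := E)) c W →
          ∃ v, Γ.Path (bv p u c) W v := by
        intro c W h
        induction h with
        | fin h =>
          obtain ⟨_, rfl⟩ := h
          exact ⟨_, rfl⟩
        | step h _ ih =>
          obtain ⟨i, a, ha, c, hc, rfl⟩ := h
          have hc : c = pw B i.1 := hc
          subst hc
          have ha : RB Γ b p u k _ _ i.1 a := ha
          obtain ⟨v, hv⟩ := ih
          rw [ha.1.1.1] at hv
          exact ⟨v, Γ.path_append.2 ⟨p, Γ.path_append.2 ⟨p, ha.2.1.1, path_pw Γ hp _⟩, hv⟩⟩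
      exact key hℓ
    · intro W z hW
      obtain ⟨ℓ, c, α, h1, h2, h3, h4⟩ := BCfg.exists (u := u) hk hBdef hv hp W z hW
      refine ⟨ℓ, ?_, ?_⟩
      · have h5 := BPre.run Γ b B p u k h1 (W := []) (Run.fin ⟨trivial, rfl⟩)
        rw [List.append_nil] at h5
        exact h5
      · have key : ∀ {ℓ : Wd E} {c : Bool}, BPre Γ b B p u k ℓ c → Γ.Path u ℓ (bv p u c) := by
          intro ℓ c h
          induction h with
          | nil => rfl
          | snoc h1 h2 ih =>
            exact Γ.path_append.2 ⟨p, Γ.path_append.2 ⟨_, ih, h2.2.1.1⟩, path_pw Γ hp _⟩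
        exact ⟨_, α, key h1, h2, h3, h4⟩
    · intro ℓ hℓ ℓ' hℓ' α hα e
      have h1 := hrun u hℓ
      have h2 := hrun u hℓ'
      have h3 := hom _ _ e
      rw [hmk, hA α hα] at h3
      exact BV.inj hcmp h1 h2 (α := FreeGroup.mk α) h3.symm

end Pool.Agent.W395
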