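import Mathlib

/-!
# Combinatorics of cyclic words: either some function separates two occurrences of a letter, or
each letter determines the next one
-/

set_option autoImplicit false

namespace Pool.Agent.W395

section seq

variable {S : Type}

/-- the inverse of an oriented letter -/
def iv (a : S × Bool) : S × Bool := (a.1, !a.2)

theorem iv_iv (a : S × Bool) : iv (iv a) = a := by
  unfold iv
  simp

theorem iv_ne (a : S × Bool) : iv a ≠ a := by
  intro h
  have : (!a.2) = a.2 := congrArg Prod.snd h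
  simp at this

/-- the change of level along an oriented letter -/
def vl (φ : S → ℤ) (a : S × Bool) : ℤ := if a.2 then φ a.1 else - φ a.1

/-- the level before position `i` -/
def PP (x : ℕ → S × Bool) (φ : S → ℤ) (i : ℕ) : ℤ := ∑ k ∈ Finset.range i, vl φ (x k)

theorem PP_zero (x : ℕ → S × Bool) (φ : S → ℤ) : PP x φ 0 = 0 := rfl

theorem PP_succ (x : ℕ → S × Bool) (φ : S → ℤ) (i : ℕ) :
    PP x φ (i + 1) = PP x φ i + vl φ (x i) := by
  unfold PP
  rw [Finset.sum_range_succ]

/-- the level of the letter in position `i` -/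
def JJ (x : ℕ → S × Bool) (φ : S → ℤ) (i : ℕ) : ℤ :=
  if (x i).2 then PP x φ i else PP x φ (i + 1)

/-- a cyclically reduced cyclic word in which all letters occur -/
structure Cyc (n : ℕ) (x : ℕ → S × Bool) : Prop where
  pos : 0 < n
  per : ∀ i, x (i + n) = x i
  red : ∀ i, x (i + 1) ≠ iv (x i)

theorem PP_per {n : ℕ} {x : ℕ → S × Bool} (hx : Cyc n x) {φ : S → ℤ} (h : PP x φ n = 0) (i : ℕ) :
    PP x φ (i + n) = PP x φ i := by
  induction i with
  | zero => rw [zero_add, h, PP_zero]
  | succ i ih =>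
    rw [show i + 1 + n = i + n + 1 by omega, PP_succ, ih, hx.per, PP_succ]

theorem JJ_per {n : ℕ} {x : ℕ → S × Bool} (hx : Cyc n x) {φ : S → ℤ} (h : PP x φ n = 0) (i : ℕ) :
    JJ x φ (i + n) = JJ x φ i := by
  unfold JJ
  rw [hx.per, PP_per hx h, show i + n + 1 = i + 1 + n by omega, PP_per hx h]

theorem per_mul {n : ℕ} {x : ℕ → S × Bool} (hx : Cyc n x) (i k : ℕ) : x (i + k * n) = x i := by
  induction k with
  | zero => rw [zero_mul, add_zero]
  | succ k ih => rw [show i + (k + 1) * n = i + k * n + n by ring, hx.per, ih]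

theorem JJ_mod {n : ℕ} {x : ℕ → S × Bool} (hx : Cyc n x) {φ : S → ℤ} (h : PP x φ n = 0) (i : ℕ) :
    JJ x φ (i % n) = JJ x φ i := by
  have : ∀ k i, JJ x φ (i + k * n) = JJ x φ i := by
    intro k
    induction k with
    | zero => intro i; rw [zero_mul, add_zero]
    | succ k ih => intro i; rw [show i + (k + 1) * n = i + k * n + n by ring, JJ_per hx h, ih]
  conv_rhs => rw [← Nat.mod_add_div i n, mul_comm, this]

/-- no function vanishing on the cycle separates two occurrences of a letter -/
def NoSep (n : ℕ) (x : ℕ → S × Bool) : Prop :=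
  ∀ φ : S → ℤ, PP x φ n = 0 → ∀ i i', (x i).1 = (x i').1 → JJ x φ i = JJ x φ i'

theorem third [Fintype S] {n : ℕ} {x : ℕ → S × Bool} (hx : Cyc n x) (hocc : ∀ e, ∃ i, (x i).1 = e)
    (hns : NoSep n x) :
    ∃ src : S × Bool → ({φ : S → ℤ // PP x φ n = 0} → ℤ),
      (∀ i, src (x i) = fun φ => PP x φ.1 i) ∧ (∀ i, src (iv (x i)) = fun φ => PP x φ.1 (i + 1)) ∧
      ∀ i y, src y = (fun φ => PP x φ.1 (i + 1)) → y = x (i + 1) ∨ y = iv (x i) := by
  classical
  choose c hc using hocc
  let src : S × Bool → ({φ : S → ℤ // PP x φ n = 0} → ℤ) :=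
    fun y φ => if y.2 then JJ x φ.1 (c y.1) else JJ x φ.1 (c y.1) + φ.1 y.1
  have hJ : ∀ (i : ℕ) (φ : {φ : S → ℤ // PP x φ n = 0}),
      JJ x φ.1 (c (x i).1) = JJ x φ.1 i := fun i φ => hns φ.1 φ.2 _ _ (hc _)
  have h1 : ∀ i, src (x i) = fun φ => PP x φ.1 i := by
    intro i
    funext φ
    simp only [src]
    rw [hJ]
    unfold JJ
    split_ifs with h
    · rfl
    · rw [PP_succ]
      unfold vl
      rw [if_neg h]
      ring
  have h2 : ∀ i, src (iv (x i)) = fun φ => PP x φ.1 (i + 1) := by
    intro i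
    funext φ
    simp only [src, iv]
    rw [hJ]
    unfold JJ
    rcases h : (x i).2 with _ | _
    · simp
    · simp only [Bool.not_true, Bool.false_eq_true, if_false, if_true]
      rw [PP_succ]
      unfold vl
      rw [if_pos h]
  refine ⟨src, h1, h2, ?_⟩
  intro i y hy
  by_contra hcon
  rw [not_or] at hcon
  let K : Finset ({φ : S → ℤ // PP x φ n = 0} → ℤ) := Finset.univ.image src
  -- each class is the class of a position
  have hK : ∀ k ∈ K, ∃ j, k = fun φ => PP x φ.1 (j + 1) := by
    intro k hk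
    obtain ⟨z, _, rfl⟩ := Finset.mem_image.1 hk
    by_cases hz : z.2 = (x (c z.1)).2
    · have : z = x (c z.1) := Prod.ext (hc _).symm hz
      rw [this, h1]
      have hn := hx.pos
      refine ⟨c z.1 + (n - 1), ?_⟩
      funext φ
      rw [show c z.1 + (n - 1) + 1 = c z.1 + n by omega, PP_per hx φ.2]
    · have : z = iv (x (c z.1)) := by
        refine Prod.ext (hc _).symm ?_
        show z.2 = !(x (c z.1)).2
        rcases h : z.2 with _ | _ <;> rcases h' : (x (c z.1)).2 with _ | _ <;> simp_all
      rw [this, h2]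
      exact ⟨_, rfl⟩
  -- the number of classes is at least the number of letters
  have hle : Fintype.card S ≤ K.card := by
    have hKp : ∀ k : K, ∃ j, k.1 = fun φ => PP x φ.1 j := fun k => by
      obtain ⟨j, hj⟩ := hK k.1 k.2
      exact ⟨j + 1, hj⟩
    choose p hp using hKp
    have hadd : ∀ (φ ψ : S → ℤ) (i : ℕ), PP x (φ + ψ) i = PP x φ i + PP x ψ i := by
      intro φ ψ i
      induction i with
      | zero => rfl
      | succ i ih =>
        rw [PP_succ, PP_succ, PP_succ, ih]
        unfold vl
        split_ifs <;> simp only [Pi.add_apply] <;> ring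
    have hsmul : ∀ (a : ℤ) (φ : S → ℤ) (i : ℕ), PP x (a • φ) i = a * PP x φ i := by
      intro a φ i
      induction i with
      | zero => rw [PP_zero, PP_zero, mul_zero]
      | succ i ih =>
        rw [PP_succ, PP_succ, ih]
        unfold vl
        split_ifs <;> simp only [Pi.smul_apply, smul_eq_mul] <;> ring
    let g : K → ℕ := fun k => if k.1 = (fun φ => PP x φ.1 0) then n else p k
    let f : (S → ℤ) →ₗ[ℤ] (K → ℤ) :=
      { toFun := fun φ k => PP x φ (g k)
        map_add' := fun φ ψ => by
          funext k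
          exact hadd φ ψ _
        map_smul' := fun a φ => by
          funext k
          exact hsmul a φ _ }
    have hf : Function.Injective f := by
      rw [← LinearMap.ker_eq_bot, LinearMap.ker_eq_bot']
      intro φ hφ
      have hφ' : ∀ k : K, PP x φ (g k) = 0 := fun k => congrFun hφ k
      have hmem : ∀ i, (fun φ : {φ : S → ℤ // PP x φ n = 0} => PP x φ.1 i) ∈ K := by
        intro i
        rw [← h1]
        exact Finset.mem_image_of_mem _ (Finset.mem_univ _)
      have h0 : PP x φ n = 0 := by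
        have := hφ' ⟨_, hmem 0⟩
        simp only [g, if_true] at this
        exact this
      have hall : ∀ i, PP x φ i = 0 := by
        intro i
        have h3 := hφ' ⟨_, hmem i⟩
        by_cases h4 : (fun φ : {φ : S → ℤ // PP x φ n = 0} => PP x φ.1 i) = fun φ => PP x φ.1 0
        · exact congrFun h4 ⟨φ, h0⟩
        · simp only [g] at h3
          rw [if_neg h4] at h3
          have h5 := congrFun (hp ⟨_, hmem i⟩) ⟨φ, h0⟩
          simp only at h5
          rw [h5, h3]
      funext e
      have h5 := PP_succ x φ (c e)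
      rw [hall, hall, zero_add] at h5
      unfold vl at h5
      rw [hc] at h5
      split_ifs at h5
      · exact h5.symm
      · have : φ e = 0 := by omega
        exact this
    have := card_le_of_injective ℤ f hf
    rwa [Fintype.card_coe] at this
  -- counting
  have hsum := Finset.card_eq_sum_card_image src Finset.univ
  have hfib : ∀ k ∈ K, 2 ≤ (Finset.univ.filter fun z => src z = k).card := by
    intro k hk
    obtain ⟨j, rfl⟩ := hK k hk
    have h3 : ({x (j + 1), iv (x j)} : Finset (S × Bool)) ⊆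
        Finset.univ.filter fun z => src z = fun φ => PP x φ.1 (j + 1) := by
      intro z hz
      rw [Finset.mem_insert, Finset.mem_singleton] at hz
      rw [Finset.mem_filter]
      refine ⟨Finset.mem_univ _, ?_⟩
      rcases hz with rfl | rfl
      · exact h1 _
      · exact h2 _
    have h4 := Finset.card_le_card h3
    rwa [Finset.card_pair (hx.red j)] at h4
  have hy2 : (fun φ : {φ : S → ℤ // PP x φ n = 0} => PP x φ.1 (i + 1)) ∈ K := by
    rw [← hy]
    exact Finset.mem_image_of_mem _ (Finset.mem_univ _)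
  have hfib3 : 3 ≤ (Finset.univ.filter fun z => src z = fun φ => PP x φ.1 (i + 1)).card := by
    have h3 : ({y, x (i + 1), iv (x i)} : Finset (S × Bool)) ⊆
        Finset.univ.filter fun z => src z = fun φ => PP x φ.1 (i + 1) := by
      intro z hz
      rw [Finset.mem_insert, Finset.mem_insert, Finset.mem_singleton] at hz
      rw [Finset.mem_filter]
      refine ⟨Finset.mem_univ _, ?_⟩
      rcases hz with rfl | rfl | rfl
      · exact hy
      · exact h1 _
      · exact h2 _
    have h4 := Finset.card_le_card h3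
    rwa [Finset.card_eq_three.2 ⟨_, _, _, hcon.1, hcon.2, hx.red i, rfl⟩] at h4
  have hlt : ∑ _k ∈ K, 2 < ∑ k ∈ K, (Finset.univ.filter fun z => src z = k).card :=
    Finset.sum_lt_sum hfib ⟨_, hy2, by omega⟩
  rw [Finset.sum_const, smul_eq_mul] at hlt
  rw [Finset.card_univ, Fintype.card_prod, Fintype.card_bool] at hsum
  have hsum' : Fintype.card S * 2 = ∑ k ∈ K, (Finset.univ.filter fun z => src z = k).card := hsum
  omega

theorem next [Fintype S] {n : ℕ} {x : ℕ → S × Bool} (hx : Cyc n x) (hocc : ∀ e, ∃ i, (x i).1 = e)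
    (hns : NoSep n x) (i i' : ℕ) (h : x i = x i') : x (i + 1) = x (i' + 1) := by
  obtain ⟨src, h1, h2, h3⟩ := third hx hocc hns
  have h4 : (fun φ : {φ : S → ℤ // PP x φ n = 0} => PP x φ.1 (i + 1)) =
      fun φ => PP x φ.1 (i' + 1) := by
    rw [← h2, ← h2, h]
  rcases h3 i (x (i' + 1)) (by rw [h1, h4]) with h5 | h5
  · exact h5.symm
  · rw [h] at h5
    exact absurd h5 (hx.red i')

theorem noinv [Fintype S] {n : ℕ} {x : ℕ → S × Bool} (hx : Cyc n x) (hocc : ∀ e, ∃ i, (x i).1 = e)
    (hns : NoSep n x) (i i' : ℕ) : x i ≠ iv (x i') := by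
  intro h
  obtain ⟨src, h1, h2, h3⟩ := third hx hocc hns
  have key : ∀ (i i' : ℕ), x i = iv (x i') → ∀ k, k ≤ i → x (i - k) = iv (x (i' + k)) := by
    intro i i' h k
    induction k with
    | zero =>
      intro _
      exact h
    | succ k ih =>
      intro hk
      have h4 := ih (by omega)
      obtain ⟨a, ha⟩ : ∃ a, i - k = a + 1 := ⟨i - k - 1, by omega⟩
      rw [ha] at h4
      have ha2 : i - (k + 1) = a := by omega
      rw [ha2, show i' + (k + 1) = i' + k + 1 by omega]
      have h5 : (fun φ : {φ : S → ℤ // PP x φ n = 0} => PP x φ.1 (a + 1)) =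
          fun φ => PP x φ.1 (i' + k + 1) := by
        rw [← h2 (i' + k), ← h1, h4]
      rcases h3 a (x (i' + k + 1)) (by rw [h1, h5]) with h6 | h6
      · rw [h4] at h6
        exact absurd h6 (hx.red _)
      · rw [h6, iv_iv]
  have hle : i' ≤ i + i' * n := by
    have := hx.pos
    nlinarith
  have h' : x (i + i' * n) = iv (x i') := by rw [per_mul hx, h]
  obtain ⟨m, hm⟩ : ∃ m, i + i' * n = m := ⟨_, rfl⟩
  rw [hm] at hle h'
  rcases Nat.even_or_odd' (m - i') with ⟨k, hk | hk⟩
  · have h4 := key m i' h' k (by omega)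
    rw [show m - k = i' + k by omega] at h4
    exact iv_ne _ h4.symm
  · have h4 := key m i' h' k (by omega)
    rw [show m - k = i' + k + 1 by omega] at h4
    exact hx.red _ h4

theorem struct [Fintype S] {n : ℕ} {x : ℕ → S × Bool} (hx : Cyc n x)
    (hocc : ∀ e, ∃ i, (x i).1 = e) (hns : NoSep n x) (i0 : ℕ) :
    ∃ d k, 1 ≤ d ∧ 1 ≤ k ∧ n = k * d ∧ (∀ i, x (i0 + i + d) = x (i0 + i)) ∧
      ∀ i, 0 < i → i < d → (x (i0 + i)).1 ≠ (x i0).1 := by
  classical
  have hex : ∃ d, 0 < d ∧ (x (i0 + d)).1 = (x i0).1 := ⟨n, hx.pos, by rw [hx.per]⟩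
  obtain ⟨hd1, hd2⟩ := Nat.find_spec hex
  have hd3 : ∀ m, m < Nat.find hex → ¬ (0 < m ∧ (x (i0 + m)).1 = (x i0).1) := fun m hm =>
    Nat.find_min hex hm
  generalize Nat.find hex = d at hd1 hd2 hd3
  have h1 : x (i0 + d) = x i0 := by
    by_contra hne
    apply noinv hx hocc hns (i0 + d) i0
    refine Prod.ext hd2 ?_
    have : (x (i0 + d)).2 ≠ (x i0).2 := fun h => hne (Prod.ext hd2 h)
    show _ = !(x i0).2
    rcases h : (x (i0 + d)).2 with _ | _ <;> rcases h' : (x i0).2 with _ | _ <;> simp_all
  have h2 : ∀ i, x (i0 + i + d) = x (i0 + i) := by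
    intro i
    induction i with
    | zero => exact h1
    | succ i ih =>
      have := next hx hocc hns _ _ ih
      rw [show i0 + (i + 1) + d = i0 + i + d + 1 by omega, this]
      rfl
  have h3 : ∀ j i, x (i0 + i + j * d) = x (i0 + i) := by
    intro j
    induction j with
    | zero => intro i; rw [zero_mul, add_zero]
    | succ j ih =>
      intro i
      rw [show i0 + i + (j + 1) * d = i0 + (i + j * d) + d by ring, h2, ← ih i]
      rw [show i0 + (i + j * d) = i0 + i + j * d by ring]
  have h4 : n % d = 0 := by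
    by_contra hne
    apply hd3 (n % d) (Nat.mod_lt _ hd1)
    refine ⟨Nat.pos_of_ne_zero hne, ?_⟩
    have h5 := h3 (n / d) (n % d)
    rw [show i0 + n % d + n / d * d = i0 + n by
      have := Nat.mod_add_div n d
      rw [mul_comm] at this
      omega] at h5
    rw [← h5, hx.per]
  refine ⟨d, n / d, hd1, ?_, ?_, h2, ?_⟩
  · have := hx.pos
    have h5 := Nat.div_add_mod n d
    rw [h4, add_zero] at h5
    by_contra hcon
    have h6 : n / d = 0 := Nat.lt_one_iff.1 (not_le.1 hcon)
    rw [h6, mul_zero] at h5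
    omega
  · have h5 := Nat.div_add_mod n d
    rw [h4, add_zero, mul_comm] at h5
    exact h5.symm
  · intro i hi1 hi2 h5
    exact hd3 i hi2 ⟨hi1, h5⟩

end seq

end Pool.Agent.W395
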