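import Mathlib
import Pool.Agent.W395.Base2
import Pool.Agent.W395.Sep

/-!
# Cyclic words: the case where no function separates
-/

set_option autoImplicit false

namespace Pool.Agent.W395

variable {V E : Type}

theorem nc_conj {G : Type} [Group G] (g x : G) :
    Subgroup.normalClosure {g * x * g⁻¹} = Subgroup.normalClosure {x} := by
  apply le_antisymm
  · apply Subgroup.normalClosure_le_normal
    intro y hy
    rw [Set.mem_singleton_iff] at hy
    rw [hy]
    exact Subgroup.normalClosure_normal.conj_mem x (Subgroup.subset_normalClosure (Set.mem_singleton x)) g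
  · apply Subgroup.normalClosure_le_normal
    intro y hy
    rw [Set.mem_singleton_iff] at hy
    rw [hy]
    have := Subgroup.normalClosure_normal.conj_mem _
      (Subgroup.subset_normalClosure (Set.mem_singleton (g * x * g⁻¹))) g⁻¹
    have e : g⁻¹ * (g * x * g⁻¹) * g⁻¹⁻¹ = x := by group
    rw [e] at this
    exact this

theorem q_eq_iff (w W W' : Wd E) : q w W = q w W' ↔
    (FreeGroup.mk W)⁻¹ * FreeGroup.mk W' ∈
      Subgroup.normalClosure ({FreeGroup.mk w} : Set (FreeGroup E)) := QuotientGroup.eq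

theorem Good.congr {Γ : Gr V E} {w w' : Wd E} {b : E}
    (hN : Subgroup.normalClosure ({FreeGroup.mk w} : Set (FreeGroup E)) =
      Subgroup.normalClosure {FreeGroup.mk w'}) (h : Good Γ w b) : Good Γ w' b := by
  have hq : ∀ W W', q w' W = q w' W' ↔ q w W = q w W' := by
    intro W W'
    rw [q_eq_iff, q_eq_iff, hN]
  constructor
  · intro W hW e
    apply h.free W hW
    rw [← q_nil] at e ⊢
    exact (hq _ _).1 e
  · intro u
    obtain ⟨L, hL⟩ := h.trans u
    refine ⟨L, hL.reg, hL.nil, hL.path, ?_, ?_⟩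
    · intro W v hW
      obtain ⟨ℓ, hℓ, v', α, h1, h2, h3, h4⟩ := hL.surj W v hW
      exact ⟨ℓ, hℓ, v', α, h1, h2, h3, (hq _ _).2 h4⟩
    · intro ℓ hℓ ℓ' hℓ' α hα e
      exact hL.inj ℓ hℓ ℓ' hℓ' α hα ((hq _ _).1 e)

/-- segments of a sequence -/
def seg {α : Type} (x : ℕ → α) (a m : ℕ) : List α := (List.range m).map fun i => x (a + i)

theorem seg_zero {α : Type} (x : ℕ → α) (a : ℕ) : seg x a 0 = [] := rfl

theorem seg_succ {α : Type} (x : ℕ → α) (a m : ℕ) :
    seg x a (m + 1) = x a :: seg x (a + 1) m := by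
  unfold seg
  rw [List.range_succ_eq_map, List.map_cons, List.map_map, add_zero]
  congr 1
  apply List.map_congr_left
  intro i _
  simp only [Function.comp_apply]
  congr 1
  omega

theorem seg_succ' {α : Type} (x : ℕ → α) (a m : ℕ) :
    seg x a (m + 1) = seg x a m ++ [x (a + m)] := by
  unfold seg
  rw [List.range_succ, List.map_append]
  rfl

theorem seg_add {α : Type} (x : ℕ → α) (a m m' : ℕ) :
    seg x a (m + m') = seg x a m ++ seg x (a + m) m' := by
  induction m' with
  | zero => rw [add_zero, seg_zero, List.append_nil]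
  | succ m' ih =>
    rw [← add_assoc, seg_succ', ih, seg_succ', List.append_assoc, add_assoc]

theorem seg_pw (x : ℕ → E × Bool) (i0 d : ℕ) (h : ∀ i, x (i0 + i + d) = x (i0 + i)) (k : ℕ) :
    seg x i0 (k * d) = pw (seg x i0 d) k := by
  induction k with
  | zero => rw [zero_mul]; rfl
  | succ k ih =>
    rw [show (k + 1) * d = d + k * d by ring, seg_add]
    show _ = seg x i0 d ++ pw (seg x i0 d) k
    rw [← ih]
    congr 1
    unfold seg
    apply List.map_congr_left
    intro i _
    rw [← h i]
    congr 1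
    omega

theorem seg_rot {n : ℕ} (x : ℕ → E × Bool) (hn : 0 < n) (hper : ∀ i, x (i + n) = x i) (a : ℕ) :
    Subgroup.normalClosure ({FreeGroup.mk (seg x a n)} : Set (FreeGroup E)) =
      Subgroup.normalClosure {FreeGroup.mk (seg x 0 n)} := by
  induction a with
  | zero => rfl
  | succ a ih =>
    obtain ⟨m, rfl⟩ : ∃ m, n = m + 1 := ⟨n - 1, by omega⟩
    rw [← ih]
    have h1 : seg x (a + 1) (m + 1) = seg x (a + 1) m ++ [x a] := by
      rw [seg_succ', show a + 1 + m = a + (m + 1) by omega, hper]
    have h2 : FreeGroup.mk (seg x (a + 1) (m + 1)) = (FreeGroup.mk [x a])⁻¹ *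
        FreeGroup.mk (seg x a (m + 1)) * (FreeGroup.mk [x a])⁻¹⁻¹ := by
      rw [h1, seg_succ, inv_inv, ← FreeGroup.mul_mk]
      have : FreeGroup.mk (x a :: seg x (a + 1) m) =
          FreeGroup.mk [x a] * FreeGroup.mk (seg x (a + 1) m) := by
        rw [FreeGroup.mul_mk]
        rfl
      rw [this, inv_mul_cancel_left]
    rw [h2, nc_conj]

theorem seg_closed {n : ℕ} (Γ : Gr V E) (x : ℕ → E × Bool) (hn : 0 < n)
    (hper : ∀ i, x (i + n) = x i) (h0 : ∃ p, Γ.Path p (seg x 0 n) p) (a : ℕ) :
    ∃ p, Γ.Path p (seg x a n) p := by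
  induction a with
  | zero => exact h0
  | succ a ih =>
    obtain ⟨m, rfl⟩ : ∃ m, n = m + 1 := ⟨n - 1, by omega⟩
    obtain ⟨p, hp⟩ := ih
    have h1 : seg x (a + 1) (m + 1) = seg x (a + 1) m ++ [x a] := by
      rw [seg_succ', show a + 1 + m = a + (m + 1) by omega, hper]
    rw [seg_succ] at hp
    refine ⟨Γ.tgt (x a), ?_⟩
    rw [h1, Γ.path_append]
    exact ⟨p, hp.2, hp.1, rfl⟩

/-- the lift of a word, as a list of letters with levels -/
def lf (φ : E → ℤ) : ℤ → Wd E → List ((E × ℤ) × Bool)
  | _, [] => []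
  | l, a :: W => ((a.1, if a.2 then l else l + vl φ a), a.2) :: lf φ (l + vl φ a) W

/-- the total change of level -/
def expo (φ : E → ℤ) (W : Wd E) : ℤ := (W.map (vl φ)).sum

theorem expo_nil (φ : E → ℤ) : expo φ [] = 0 := rfl

theorem expo_cons (φ : E → ℤ) (a : E × Bool) (W : Wd E) : expo φ (a :: W) = vl φ a + expo φ W := by
  unfold expo
  rw [List.map_cons, List.sum_cons]

theorem expo_seg (φ : E → ℤ) (x : ℕ → E × Bool) (m : ℕ) : expo φ (seg x 0 m) = PP x φ m := by
  induction m with
  | zero => rfl
  | succ m ih =>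
    rw [seg_succ', PP_succ, ← ih]
    unfold expo
    rw [List.map_append, List.sum_append, zero_add]
    simp

theorem mem_lf_seg (φ : E → ℤ) (x : ℕ → E × Bool) (m : ℕ) :
    ∀ a i, a ≤ i → i < a + m →
      (((x i).1, JJ x φ i), (x i).2) ∈ lf φ (PP x φ a) (seg x a m) := by
  induction m with
  | zero => intro a i h1 h2; omega
  | succ m ih =>
    intro a i h1 h2
    rw [seg_succ]
    show _ ∈ (((x a).1, if (x a).2 then PP x φ a else PP x φ a + vl φ (x a)), (x a).2) ::
      lf φ (PP x φ a + vl φ (x a)) (seg x (a + 1) m)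
    rw [← PP_succ]
    rcases Nat.eq_or_lt_of_le h1 with rfl | h3
    · exact List.mem_cons_self
    · exact List.mem_cons_of_mem _ (ih (a + 1) i h3 (by omega))

/-- no function separates two occurrences of a letter -/
def NS (w : Wd E) : Prop :=
  ∀ φ : E → ℤ, expo φ w = 0 → ∀ e j j' β β', ((e, j), β) ∈ lf φ 0 w →
    ((e, j'), β') ∈ lf φ 0 w → j = j'

theorem base_case [Finite V] [Finite E] (Γ : Gr V E) (w : Wd E) (b : E)
    (hcr : FreeGroup.IsCyclicallyReduced w) (hcl : ∃ p, Γ.Path p w p) (hb : ∃ β, (b, β) ∈ w)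
    (hns : NS w) : Good Γ w b := by
  classical
  obtain ⟨β, hβ⟩ := hb
  have hn : 0 < w.length := List.length_pos_of_mem hβ
  let n := w.length
  let x : ℕ → E × Bool := fun i => w[i % w.length]'(Nat.mod_lt _ hn)
  have hxi : ∀ i, (hi : i < w.length) → x i = w[i] := by
    intro i hi
    simp only [x]
    congr 1
    exact Nat.mod_eq_of_lt hi
  have hseg : seg x 0 w.length = w := by
    apply List.ext_getElem
    · unfold seg
      simp
    · intro i h1 h2
      unfold seg
      simp only [List.getElem_map, List.getElem_range, zero_add]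
      exact hxi i h2
  have hper : ∀ i, x (i + w.length) = x i := by
    intro i
    simp only [x, Nat.add_mod_right]
  have hred : ∀ i, x (i + 1) ≠ iv (x i) := by
    intro i h
    have h1 : (x (i + 1)).1 = (x i).1 := by
      rw [h]
      rfl
    have h2 : (x (i + 1)).2 = !(x i).2 := by
      rw [h]
      rfl
    have hx1 : ∀ j, x j = x (j % w.length) := by
      intro j
      simp only [x, Nat.mod_mod]
    by_cases hi : i % w.length + 1 < w.length
    · have h3 := (List.isChain_iff_getElem.1 hcr.1) (i % w.length) hi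
      have h4 : x (i + 1) = w[i % w.length + 1] := by
        rw [hx1 (i + 1), ← hxi _ hi]
        congr 1
        rw [Nat.add_mod]
        rcases Nat.eq_or_lt_of_le hn with h5 | h5
        · omega
        · rw [Nat.mod_eq_of_lt h5, Nat.mod_eq_of_lt hi]
      have h5 : x i = w[i % w.length] := rfl
      rw [h4, h5] at h1 h2
      have := h3 h1.symm
      rw [← this] at h2
      simp at h2
    · have h3 : i % w.length = w.length - 1 := by
        have := Nat.mod_lt i hn
        omega
      have h4 : (i + 1) % w.length = 0 := by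
        have h5 := Nat.mod_add_div i w.length
        rw [h3] at h5
        have h6 : i + 1 = w.length * (i / w.length + 1) := by
          rw [mul_add, mul_one]
          omega
        rw [h6, Nat.mul_mod_right]
      have h5 : x (i + 1) = w[0] := by
        simp only [x, h4]
      have h6 : x i = w[w.length - 1] := by
        simp only [x, h3]
      have h7 := hcr.2 (x i) (by
        rw [h6, List.getLast?_eq_getElem?]
        exact List.getElem?_eq_getElem _) (x (i + 1)) (by
        rw [h5, List.head?_eq_getElem?]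
        exact List.getElem?_eq_getElem _) h1.symm
      rw [← h7] at h2
      simp at h2
  have hcyc : Cyc w.length x := ⟨hn, hper, hred⟩
  -- restriction to the letters which occur
  let S := {e : E // ∃ i, (x i).1 = e}
  let x' : ℕ → S × Bool := fun i => (⟨(x i).1, i, rfl⟩, (x i).2)
  have hcyc' : Cyc w.length x' := by
    refine ⟨hn, ?_, ?_⟩
    · intro i
      refine Prod.ext (Subtype.ext ?_) ?_
      · show (x (i + w.length)).1 = (x i).1
        rw [hper]
      · show (x (i + w.length)).2 = (x i).2
        rw [hper]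
    · intro i h
      apply hred i
      refine Prod.ext ?_ ?_
      · exact congrArg (fun y : S × Bool => y.1.1) h
      · exact congrArg (fun y : S × Bool => y.2) h
  have hocc : ∀ e : S, ∃ i, (x' i).1 = e := by
    rintro ⟨e, i, hi⟩
    exact ⟨i, Subtype.ext hi⟩
  have hns' : NoSep w.length x' := by
    intro φ hφ i i' hii
    let ψ : E → ℤ := fun e => if h : ∃ i, (x i).1 = e then φ ⟨e, h⟩ else 0
    have h1 : ∀ i, vl ψ (x i) = vl φ (x' i) := by
      intro i
      have h2 : ψ (x i).1 = φ (x' i).1 := dif_pos (⟨i, rfl⟩ : ∃ j, (x j).1 = (x i).1)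
      unfold vl
      rw [h2]
    have h2 : ∀ i, PP x ψ i = PP x' φ i := by
      intro i
      unfold PP
      exact Finset.sum_congr rfl fun k _ => h1 k
    have h3 : ∀ i, JJ x ψ i = JJ x' φ i := by
      intro i
      unfold JJ
      rw [h2, h2]
    have h4 : PP x ψ w.length = 0 := by rw [h2, hφ]
    have h5 : expo ψ w = 0 := by
      conv_lhs => rw [← hseg]
      rw [expo_seg, h4]
    have h6 : ∀ i, (((x i).1, JJ x ψ i), (x i).2) ∈ lf ψ 0 w := by
      intro i
      have h7 := mem_lf_seg ψ x w.length 0 (i % w.length) (Nat.zero_le _)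
        (by rw [zero_add]; exact Nat.mod_lt _ hn)
      rw [hseg, JJ_mod hcyc h4] at h7
      have h8 : x (i % w.length) = x i := by
        simp only [x, Nat.mod_mod]
      rw [h8] at h7
      exact h7
    have h7 : (x i).1 = (x i').1 := congrArg Subtype.val hii
    rw [← h3, ← h3]
    have h8 := h6 i'
    rw [← h7] at h8
    exact hns ψ h5 _ _ _ _ _ (h6 i) h8
  have : Fintype S := Fintype.ofFinite S
  obtain ⟨i0, hi0, hi0'⟩ := List.getElem_of_mem hβ
  have hxi0 : x i0 = (b, β) := by rw [hxi i0 hi0, hi0']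
  obtain ⟨d, k, hd, hk, hdk, hp, hne⟩ := struct hcyc' hocc hns' i0
  have hp' : ∀ i, x (i0 + i + d) = x (i0 + i) := by
    intro i
    have := hp i
    refine Prod.ext ?_ ?_
    · exact congrArg (fun y : S × Bool => y.1.1) this
    · exact congrArg (fun y : S × Bool => y.2) this
  have h1 := seg_pw x i0 d hp' k
  obtain ⟨d', rfl⟩ : ∃ d', d = d' + 1 := ⟨d - 1, by omega⟩
  rw [← hdk, seg_succ, hxi0] at h1
  have hv : Over (fun e => e ≠ b) (seg x (i0 + 1) d') := by
    intro y hy
    unfold seg at hy
    rw [List.mem_map] at hy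
    obtain ⟨i, hi, rfl⟩ := hy
    rw [List.mem_range] at hi
    have h2 := hne (i + 1) (by omega) (by omega)
    intro h3
    apply h2
    apply Subtype.ext
    show (x (i0 + (i + 1))).1 = (x i0).1
    rw [hxi0]
    show _ = b
    rw [← h3]
    congr 2
    omega
  obtain ⟨p, hpath⟩ := seg_closed Γ x hn hper (by rw [hseg]; exact hcl) i0
  rw [h1] at hpath
  have hB : Γ.Path p ((b, β) :: seg x (i0 + 1) d') p := by
    obtain ⟨k', rfl⟩ : ∃ k', k = k' + 1 := ⟨k - 1, by omega⟩
    obtain ⟨m, h2, h3⟩ := Γ.path_append.1 hpath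
    rcases k' with _ | k'
    · have h3 : m = p := h3
      rw [h3] at h2
      exact h2
    · have h4 : Γ.src (b, β) = m := h3.1
      have h5 : Γ.src (b, β) = p := h2.1
      rw [← h4, h5] at h2
      exact h2
  have hgood := good_power Γ b β _ hv p hB k hk
  rw [← h1] at hgood
  refine hgood.congr ?_
  rw [seg_rot x hn hper, hseg]

end Pool.Agent.W395
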