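import Mathlib
import Pool.Agent.W395.Words

/-!
# A window of the infinite cyclic cover
-/

set_option autoImplicit false

namespace Pool.Agent.W395

/-- data of a window in the infinite cyclic cover: the levels are `0, ..., m`, and the lifts of the
edge `b` have starting level in `[j0, j1]` -/
structure Win (E : Type) where
  φ : E → ℤ
  m : ℤ
  b : E
  j0 : ℤ
  j1 : ℤ

variable {V E : Type}

namespace Win

/-- the lift of `e` with starting level `j` is in the window -/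
def In (C : Win E) (e : E) (j : ℤ) : Prop :=
  ((0 ≤ j ∧ j ≤ C.m) ∧ 0 ≤ j + C.φ e ∧ j + C.φ e ≤ C.m) ∧ (e = C.b → C.j0 ≤ j ∧ j ≤ C.j1)

/-- the edges of the window -/
abbrev ED (C : Win E) : Type := {p : E × ℤ // C.In p.1 p.2}

/-- the levels of the window -/
abbrev Lev (C : Win E) : Type := {l : ℤ // 0 ≤ l ∧ l ≤ C.m}

instance (C : Win E) : Finite C.Lev := by
  have : (Set.Icc (0 : ℤ) C.m).Finite := Set.finite_Icc _ _
  exact this.to_subtype

instance [Finite E] (C : Win E) : Finite C.ED := by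
  have h : ((Set.univ : Set E) ×ˢ (Set.Icc (0 : ℤ) C.m)).Finite :=
    (Set.toFinite _).prod (Set.finite_Icc _ _)
  have h2 : ({p : E × ℤ | C.In p.1 p.2}).Finite := by
    apply h.subset
    intro p hp
    exact ⟨trivial, hp.1.1.1, hp.1.1.2⟩
  exact h2.to_subtype

/-- the window as a graph -/
def GD (C : Win E) (Γ : Gr V E) : Gr (V × C.Lev) C.ED where
  s p := (Γ.s p.1.1, ⟨p.1.2, p.2.1.1⟩)
  t p := (Γ.t p.1.1, ⟨p.1.2 + C.φ p.1.1, p.2.1.2⟩)

/-- the projection of words -/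
def pr (C : Win E) (W : Wd C.ED) : Wd E := W.map (fun x => (x.1.1.1, x.2))

open scoped Classical in
/-- shift of an edge by `u` levels -/
noncomputable def shE (C : Win E) (u : ℤ) (p : C.ED) : C.ED :=
  if h : C.In p.1.1 (p.1.2 + u) then ⟨(p.1.1, p.1.2 + u), h⟩ else p

/-- shift of a word by `u` levels -/
noncomputable def sh (C : Win E) (u : ℤ) (W : Wd C.ED) : Wd C.ED :=
  W.map (fun x => (C.shE u x.1, x.2))

/-- the edges that can be shifted by `u` -/
def Dsub (C : Win E) (u : ℤ) (p : C.ED) : Prop := C.In p.1.1 (p.1.2 + u)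

/-- the lifts of the edges different from `b` -/
def AD (C : Win E) (p : C.ED) : Prop := p.1.1 ≠ C.b

theorem shE_of (C : Win E) {u : ℤ} {p : C.ED} (h : C.Dsub u p) :
    C.shE u p = ⟨(p.1.1, p.1.2 + u), h⟩ := by
  unfold shE
  exact dif_pos h

theorem shE_fst (C : Win E) (u : ℤ) (p : C.ED) : (C.shE u p).1.1 = p.1.1 := by
  by_cases h : C.In p.1.1 (p.1.2 + u)
  · rw [C.shE_of h]
  · have : C.shE u p = p := by
      unfold shE
      exact dif_neg h
    rw [this]

@[simp] theorem pr_nil (C : Win E) : C.pr [] = [] := rfl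

theorem pr_append (C : Win E) (W W' : Wd C.ED) : C.pr (W ++ W') = C.pr W ++ C.pr W' := by
  simp [pr]

theorem pr_sh (C : Win E) (u : ℤ) (W : Wd C.ED) : C.pr (C.sh u W) = C.pr W := by
  unfold pr sh
  rw [List.map_map]
  apply List.map_congr_left
  intro x _
  simp [shE_fst]

theorem Dsub_shE (C : Win E) {u : ℤ} {p : C.ED} (h : C.Dsub u p) : C.Dsub (-u) (C.shE u p) := by
  rw [C.shE_of h]
  unfold Dsub
  simp only [add_neg_cancel_right]
  exact p.2

theorem shE_shE (C : Win E) {u : ℤ} {p : C.ED} (h : C.Dsub u p) :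
    C.shE (-u) (C.shE u p) = p := by
  rw [C.shE_of (C.Dsub_shE h), ]
  apply Subtype.ext
  simp only [C.shE_of h, add_neg_cancel_right]

theorem over_sh (C : Win E) {u : ℤ} {W : Wd C.ED} (h : Over (C.Dsub u) W) :
    Over (C.Dsub (-u)) (C.sh u W) := by
  intro x hx
  unfold sh at hx
  rw [List.mem_map] at hx
  obtain ⟨y, hy, rfl⟩ := hx
  exact C.Dsub_shE (h y hy)

theorem sh_sh (C : Win E) {u : ℤ} {W : Wd C.ED} (h : Over (C.Dsub u) W) :
    C.sh (-u) (C.sh u W) = W := by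
  unfold sh
  rw [List.map_map]
  conv_rhs => rw [← List.map_id W]
  apply List.map_congr_left
  intro x hx
  simp only [Function.comp_apply, id]
  rw [C.shE_shE (h x hx)]

theorem sh_append (C : Win E) (u : ℤ) (W W' : Wd C.ED) : C.sh u (W ++ W') = C.sh u W ++ C.sh u W' := by
  simp [sh]

variable (C : Win E) (Γ : Gr V E)

theorem src_lev (x : C.ED × Bool) : ((C.GD Γ).src x).2.1 = if x.2 then x.1.1.2 else
    x.1.1.2 + C.φ x.1.1.1 := by
  unfold Gr.src GD
  split_ifs <;> rfl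

theorem tgt_lev (x : C.ED × Bool) : ((C.GD Γ).tgt x).2.1 = if x.2 then x.1.1.2 + C.φ x.1.1.1 else
    x.1.1.2 := by
  unfold Gr.tgt GD
  split_ifs <;> rfl

theorem src_vx (x : C.ED × Bool) : ((C.GD Γ).src x).1 = Γ.src (x.1.1.1, x.2) := by
  unfold Gr.src GD
  split_ifs <;> rfl

theorem tgt_vx (x : C.ED × Bool) : ((C.GD Γ).tgt x).1 = Γ.tgt (x.1.1.1, x.2) := by
  unfold Gr.tgt GD
  split_ifs <;> rfl

theorem path_pr {x y : V × C.Lev} {W : Wd C.ED} (h : (C.GD Γ).Path x W y) :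
    Γ.Path x.1 (C.pr W) y.1 := by
  induction W generalizing x with
  | nil => exact congrArg Prod.fst h
  | cons a W ih =>
    refine ⟨?_, ?_⟩
    · rw [← h.1]
      exact (C.src_vx Γ a).symm
    · have := ih h.2
      rw [C.tgt_vx] at this
      exact this

theorem src_sh {u : ℤ} {a : C.ED × Bool} (h : C.Dsub u a.1) (k : C.Lev)
    (hk : k.1 = ((C.GD Γ).src a).2.1 + u) :
    (C.GD Γ).src (C.shE u a.1, a.2) = (((C.GD Γ).src a).1, k) := by
  apply Prod.ext
  · rw [src_vx, src_vx, shE_fst]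
  · apply Subtype.ext
    show _ = k.1
    rw [hk, src_lev, src_lev, C.shE_of h]
    dsimp only
    split_ifs <;> ring

theorem tgt_sh {u : ℤ} {a : C.ED × Bool} (h : C.Dsub u a.1) (k : C.Lev)
    (hk : k.1 = ((C.GD Γ).tgt a).2.1 + u) :
    (C.GD Γ).tgt (C.shE u a.1, a.2) = (((C.GD Γ).tgt a).1, k) := by
  apply Prod.ext
  · rw [tgt_vx, tgt_vx, shE_fst]
  · apply Subtype.ext
    show _ = k.1
    rw [hk, tgt_lev, tgt_lev, C.shE_of h]
    dsimp only
    split_ifs <;> ring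

theorem src_in {u : ℤ} {a : C.ED × Bool} (h : C.Dsub u a.1) :
    0 ≤ ((C.GD Γ).src a).2.1 + u ∧ ((C.GD Γ).src a).2.1 + u ≤ C.m := by
  rw [src_lev]
  have := h.1
  split_ifs <;> omega

theorem tgt_in {u : ℤ} {a : C.ED × Bool} (h : C.Dsub u a.1) :
    0 ≤ ((C.GD Γ).tgt a).2.1 + u ∧ ((C.GD Γ).tgt a).2.1 + u ≤ C.m := by
  rw [tgt_lev]
  have := h.1
  split_ifs <;> omega

theorem path_sh {u : ℤ} {x y : V × C.Lev} {W : Wd C.ED} (hW : Over (C.Dsub u) W)
    (h : (C.GD Γ).Path x W y) {k k' : C.Lev} (hk : k.1 = x.2.1 + u) (hk' : k'.1 = y.2.1 + u) :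
    (C.GD Γ).Path (x.1, k) (C.sh u W) (y.1, k') := by
  induction W generalizing x k with
  | nil =>
    have h : x = y := h
    subst h
    have e : k = k' := Subtype.ext (by rw [hk, hk'])
    rw [e]
    exact rfl
  | cons a W ih =>
    have ha : C.Dsub u a.1 := hW a List.mem_cons_self
    obtain ⟨h1, h2⟩ := h
    have h3 := ih (x := (C.GD Γ).tgt a) (fun y hy => hW y (List.mem_cons_of_mem _ hy)) h2
      (k := ⟨_, C.tgt_in Γ ha⟩) rfl
    refine ⟨?_, ?_⟩
    · rw [← h1]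
      apply C.src_sh Γ ha
      rw [hk, h1]
    · show (C.GD Γ).Path ((C.GD Γ).tgt (C.shE u a.1, a.2)) (C.sh u W) (y.1, k')
      rw [C.tgt_sh Γ ha ⟨_, C.tgt_in Γ ha⟩ rfl]
      exact h3

end Win

end Pool.Agent.W395
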