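import Mathlib
import Pool.Agent.W395.Cover

/-!
# More on windows
-/

set_option autoImplicit false

namespace Pool.Agent.W395

variable {V E : Type}

/-- finite unions -/
theorem isRegular_exists {α Z : Type} [Finite Z] {P : Z → List α → Prop}
    (h : ∀ z, Language.IsRegular ({w | P z w} : Language α)) :
    Language.IsRegular ({w | ∃ z, P z w} : Language α) := by
  have h2 := isRegular_cat (Z := Z) (L1 := fun _ => ({w | True ∧ w = []} : Language α))
    (L2 := fun z => ({w | P z w} : Language α)) (fun _ => isRegular_const_nil _) h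
  refine reg_congr h2 fun w => ?_
  constructor
  · rintro ⟨z, hz⟩
    exact ⟨z, [], ⟨trivial, rfl⟩, w, hz, rfl⟩
  · rintro ⟨z, _, ⟨_, rfl⟩, v, hv, rfl⟩
    exact ⟨z, hv⟩

theorem isRegular_all_fin {α Z : Type} [Finite Z] {P : Z → List α → Prop}
    (h : ∀ z, Language.IsRegular ({w | P z w} : Language α)) :
    Language.IsRegular ({w | ∀ z, P z w} : Language α) := by
  have h2 := isRegular_not (isRegular_exists (Z := Z) (P := fun z w => ¬ P z w)
    fun z => isRegular_not (h z))
  refine reg_congr h2 fun w => ?_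
  constructor
  · rintro hw ⟨z, hz⟩
    exact hz (hw z)
  · intro hw z
    by_contra hz
    exact hw ⟨z, hz⟩

theorem isRegular_imp {α : Type} {p : Prop} {P : List α → Prop}
    (h : Language.IsRegular ({w | P w} : Language α)) :
    Language.IsRegular ({w | p → P w} : Language α) := by
  by_cases hp : p
  · exact reg_congr h fun w => ⟨fun h2 => h2 hp, fun h2 _ => h2⟩
  · exact reg_congr (isRegular_prop True) fun w => ⟨fun _ => trivial, fun _ h2 => absurd h2 hp⟩

theorem TW.isRegular' [Finite V] [Finite E] {Γ : Gr V E} {N S : E → Prop}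
    {L : Language (E × Bool)} {u : V} (hL : L.IsRegular) :
    Language.IsRegular ({h | TW Γ N S L u h} : Language (E × Bool)) := by
  have h := isRegular_exists (Z := V) (P := fun y h => TW Γ N S L u h ∧ Γ.Path u h y)
    fun y => TW.isRegular hL y
  refine reg_congr h fun w => ?_
  constructor
  · intro hw
    obtain ⟨v, hv⟩ := TW.path hw
    exact ⟨v, hw, hv⟩
  · rintro ⟨_, hw, _⟩
    exact hw

/-- images of one-relator groups -/
theorem q_map {E' : Type} (f : E → E') (w : Wd E) (w' : Wd E')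
    (h : q w' (w.map fun x => (f x.1, x.2)) = 1) {W W' : Wd E} (e : q w W = q w W') :
    q w' (W.map fun x => (f x.1, x.2)) = q w' (W'.map fun x => (f x.1, x.2)) := by
  have key : ∀ W : Wd E, FreeGroup.lift (fun e => q w' [(f e, true)]) (FreeGroup.mk W) =
      q w' (W.map fun x => (f x.1, x.2)) := by
    intro W
    have : FreeGroup.lift (fun e => q w' [(f e, true)]) =
        (PresentedGroup.mk ({FreeGroup.mk w'} : Set (FreeGroup E'))).comp (FreeGroup.map f) := by
      apply FreeGroup.ext_hom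
      intro a
      simp only [FreeGroup.lift_apply_of, MonoidHom.comp_apply, FreeGroup.map.of]
      rfl
    rw [this]
    rfl
  have hr : ∀ r ∈ ({FreeGroup.mk w} : Set (FreeGroup E)),
      FreeGroup.lift (fun e => q w' [(f e, true)]) r = 1 := by
    intro r hr
    rw [Set.mem_singleton_iff] at hr
    rw [hr, key, h]
  have key2 : ∀ W : Wd E, PresentedGroup.toGroup hr (q w W) =
      q w' (W.map fun x => (f x.1, x.2)) := by
    intro W
    rw [← key]
    rfl
  rw [← key2, ← key2, e]

namespace Win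

variable (C : Win E)

/-- the edges different from an extreme lift of `b` -/
def Nc (u : ℤˣ) (p : C.ED) : Prop := ¬ (p.1.1 = C.b ∧ p.1.2 = if u = 1 then C.j1 else C.j0)

theorem Dsub_Nc (u : ℤˣ) (p : C.ED) (h : C.Dsub u p) : C.Nc u p := by
  rintro ⟨h1, h2⟩
  have h3 := h.2 h1
  rcases Int.units_eq_one_or u with rfl | rfl
  · simp only [if_true] at h2
    simp only [Units.val_one] at h3
    omega
  · rw [if_neg (by decide)] at h2
    simp only [Units.val_neg, Units.val_one] at h3
    omega

theorem AD_Nc (u : ℤˣ) (p : C.ED) (h : C.AD p) : C.Nc u p := fun h1 => h h1.1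

theorem Nc_one (h : C.In C.b C.j1) : (fun p : C.ED => p ≠ ⟨(C.b, C.j1), h⟩) = C.Nc 1 := by
  funext p
  apply propext
  unfold Nc
  rw [if_pos rfl, not_iff_not]
  constructor
  · intro h1
    rw [h1]
    exact ⟨rfl, rfl⟩
  · rintro ⟨h1, h2⟩
    exact Subtype.ext (Prod.ext h1 h2)

theorem Nc_neg (h : C.In C.b C.j0) : (fun p : C.ED => p ≠ ⟨(C.b, C.j0), h⟩) = C.Nc (-1) := by
  funext p
  apply propext
  unfold Nc
  rw [if_neg (by decide), not_iff_not]
  constructor
  · intro h1
    rw [h1]
    exact ⟨rfl, rfl⟩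
  · rintro ⟨h1, h2⟩
    exact Subtype.ext (Prod.ext h1 h2)

theorem over_sh_AD {u : ℤ} {W : Wd C.ED} (h : Over C.AD W) : Over C.AD (C.sh u W) := by
  intro x hx
  unfold sh at hx
  rw [List.mem_map] at hx
  obtain ⟨y, hy, rfl⟩ := hx
  unfold AD
  rw [shE_fst]
  exact h y hy

theorem over_pr {W : Wd C.ED} (h : Over C.AD W) : Over (fun e => e ≠ C.b) (C.pr W) := by
  intro x hx
  unfold pr at hx
  rw [List.mem_map] at hx
  obtain ⟨y, hy, rfl⟩ := hx
  exact h y hy

theorem q_pr {w : Wd E} {w0 : Wd C.ED} (hpr : C.pr w0 = w) {W W' : Wd C.ED}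
    (e : q w0 W = q w0 W') : q w (C.pr W) = q w (C.pr W') := by
  apply q_map (fun p : C.ED => p.1.1) w0 w ?_ e
  have : (w0.map fun x => ((fun p : C.ED => p.1.1) x.1, x.2)) = w := hpr
  rw [this, q_self]

variable (Γ : Gr V E)

/-- along a path which can be shifted, the levels can be shifted -/
theorem lev_back {u : ℤ} {x y : V × C.Lev} {W : Wd C.ED} (hW : Over (C.Dsub u) W)
    (h : (C.GD Γ).Path x W y) (hy : 0 ≤ y.2.1 + u ∧ y.2.1 + u ≤ C.m) :
    0 ≤ x.2.1 + u ∧ x.2.1 + u ≤ C.m := by
  rcases W with _ | ⟨a, W⟩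
  · have h : x = y := h
    rw [h]
    exact hy
  · rw [← h.1]
    exact C.src_in Γ (hW a List.mem_cons_self)

theorem lev_forw {u : ℤ} {x y : V × C.Lev} {W : Wd C.ED} (hW : Over (C.Dsub u) W)
    (h : (C.GD Γ).Path x W y) (hx : 0 ≤ x.2.1 + u ∧ x.2.1 + u ≤ C.m) :
    0 ≤ y.2.1 + u ∧ y.2.1 + u ≤ C.m := by
  induction W generalizing x with
  | nil =>
    have h : x = y := h
    rw [← h]
    exact hx
  | cons a W ih =>
    exact ih (fun y hy => hW y (List.mem_cons_of_mem _ hy)) h.2
      (C.tgt_in Γ (hW a List.mem_cons_self))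

end Win

end Pool.Agent.W395
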