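import Mathlib
import Pool.Agent.W395.Cover2

/-!
# The inductive step: the language, and existence of representatives
-/

set_option autoImplicit false

namespace Pool.Agent.W395

variable {V E : Type}

/-- the states: a vertex of the window and the last move -/
abbrev Win.Q (C : Win E) (V : Type) : Type := (V × C.Lev) × Option ℤˣ

/-- admissible pieces followed by a move `u` -/
def RC (C : Win E) (Γ : Gr V E) (L : ℤˣ → V × C.Lev → Language (C.ED × Bool))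
    (q q' : C.Q V) (u : ℤˣ) (h : Wd C.ED) : Prop :=
  q'.2 = some u ∧ (q.2 = some (-u) → h ≠ []) ∧
    ∃ y, (TW (C.GD Γ) (C.Nc (-u)) (C.Dsub ((-u : ℤˣ) : ℤ)) (L (-u) q.1) q.1 h ∧
      (C.GD Γ).Path q.1 h y) ∧ (y.1 = q'.1.1 ∧ q'.1.2.1 = y.2.1 - (u : ℤ))

/-- admissible last pieces -/
def FC (C : Win E) (Γ : Gr V E) (L : ℤˣ → V × C.Lev → Language (C.ED × Bool))
    (q : C.Q V) (h : Wd C.ED) : Prop :=
  TW (C.GD Γ) (C.Nc (q.2.getD 1)) C.AD (L (q.2.getD 1) q.1) q.1 h ∧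
    ∀ u : ℤˣ, q.2 = some u → ¬ Over (C.Dsub (u : ℤ)) h

def RL (C : Win E) (Γ : Gr V E) (L : ℤˣ → V × C.Lev → Language (C.ED × Bool))
    (q q' : C.Q V) : Language (E × Bool) := {w | ∃ h, (∃ u, RC C Γ L q q' u h) ∧ C.pr h = w}

def FL (C : Win E) (Γ : Gr V E) (L : ℤˣ → V × C.Lev → Language (C.ED × Bool))
    (q : C.Q V) : Language (E × Bool) := {w | ∃ h, FC C Γ L q h ∧ C.pr h = w}

section reg

variable [Finite V] [Finite E] (C : Win E) (Γ : Gr V E)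
  (L : ℤˣ → V × C.Lev → Language (C.ED × Bool)) (hL : ∀ u x, (L u x).IsRegular)

include hL in
theorem RL_reg (q q' : C.Q V) : (RL C Γ L q q').IsRegular := by
  have h : Language.IsRegular ({h | ∃ u, RC C Γ L q q' u h} : Language (C.ED × Bool)) := by
    refine isRegular_exists (Z := ℤˣ) (P := fun u h => RC C Γ L q q' u h) fun u => ?_
    refine isRegular_and' (P1 := fun _ => q'.2 = some u) (isRegular_prop _) ?_
    refine isRegular_and' (P1 := fun h => q.2 = some (-u) → h ≠ []) ?_ ?_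
    · exact isRegular_imp isRegular_ne_nil
    · refine isRegular_exists (Z := V × C.Lev) (P := fun y h =>
        (TW (C.GD Γ) (C.Nc (-u)) (C.Dsub ((-u : ℤˣ) : ℤ)) (L (-u) q.1) q.1 h ∧
        (C.GD Γ).Path q.1 h y) ∧ (y.1 = q'.1.1 ∧ q'.1.2.1 = y.2.1 - (u : ℤ))) fun y => ?_
      exact isRegular_and' (TW.isRegular (hL _ _) y) (isRegular_prop _)
  exact isRegular_map (fun x : C.ED × Bool => (x.1.1.1, x.2)) h

include hL in
theorem FL_reg (q : C.Q V) : (FL C Γ L q).IsRegular := by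
  have h : Language.IsRegular ({h | FC C Γ L q h} : Language (C.ED × Bool)) := by
    refine isRegular_and' (TW.isRegular' (hL _ _)) ?_
    refine isRegular_all_fin (Z := ℤˣ)
      (P := fun u h => q.2 = some u → ¬ Over (C.Dsub (u : ℤ)) h) fun u => ?_
    exact isRegular_imp (isRegular_not (isRegular_all _))
  exact isRegular_map (fun x : C.ED × Bool => (x.1.1.1, x.2)) h

end reg

/-- beginnings of runs -/
inductive Pre (C : Win E) (Γ : Gr V E) (L : ℤˣ → V × C.Lev → Language (C.ED × Bool))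
    (q0 : C.Q V) : Wd E → C.Q V → Prop
  | nil : Pre C Γ L q0 [] q0
  | snoc {ℓ : Wd E} {q q' : C.Q V} {u : ℤˣ} {h : Wd C.ED} :
      Pre C Γ L q0 ℓ q → RC C Γ L q q' u h → Pre C Γ L q0 (ℓ ++ C.pr h) q'

section surj

variable (C : Win E) (Γ : Gr V E) (L : ℤˣ → V × C.Lev → Language (C.ED × Bool))
  {w : Wd E} {w0 : Wd C.ED} (hpr : C.pr w0 = w)
  (hL : ∀ u x, IsTrans (C.GD Γ) w0 (C.Nc u) x (L u x))
  (hne : ∀ e, ∃ j, C.In e j)

theorem Pre.run {q0 q1 : C.Q V} {ℓ W : Wd E} (h : Pre C Γ L q0 ℓ q1)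
    (hW : Run (RL C Γ L) (FL C Γ L) q1 W) : Run (RL C Γ L) (FL C Γ L) q0 (ℓ ++ W) := by
  induction h generalizing W with
  | nil => exact hW
  | snoc h1 h2 ih =>
    rw [List.append_assoc]
    exact ih (Run.step ⟨_, ⟨_, h2⟩, rfl⟩ hW)

theorem Pre.path {q0 q1 : C.Q V} {ℓ : Wd E} (h : Pre C Γ L q0 ℓ q1) :
    Γ.Path q0.1.1 ℓ q1.1.1 := by
  induction h with
  | nil => rfl
  | snoc h1 h2 ih =>
    obtain ⟨_, _, y, ⟨_, h3⟩, h4, _⟩ := h2
    refine Γ.path_append.2 ⟨_, ih, ?_⟩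
    rw [← h4]
    exact C.path_pr Γ h3

/-- the decomposition of a path ending at the vertex `y` of the window -/
def Cfg (w : Wd E) (q0 : C.Q V) (W : Wd E) (y : V × C.Lev) : Prop :=
  ∃ ℓ x o h, Pre C Γ L q0 ℓ (x, o) ∧ (C.GD Γ).Path x h y ∧ q w W = q w (ℓ ++ C.pr h)

include hpr hL in
theorem Cfg.move {q0 : C.Q V} (hq0 : q0.2 = none) {W : Wd E} {v : V} {l l' : C.Lev}
    (H : Cfg C Γ L w q0 W (v, l)) (u : ℤˣ) (hl : l'.1 = l.1 - (u : ℤ)) :
    Cfg C Γ L w q0 W (v, l') := by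
  obtain ⟨ℓ, x, o, h, hP, hh, e⟩ := H
  obtain ⟨h', z, δ, hT, h1, h2, h3, h4⟩ :=
    TW.exists (S := C.Dsub ((-u : ℤˣ) : ℤ)) (hL (-u) x) hh
  have hu : ((-u : ℤˣ) : ℤ) = -(u : ℤ) := Units.val_neg u
  have hz := C.lev_back Γ h3 h2 (by
    have := l'.2
    rw [hl] at this
    rw [hu]
    exact ⟨by have := this.1; show 0 ≤ l.1 + -(u : ℤ); omega, by
      have := this.2; show l.1 + -(u : ℤ) ≤ C.m; omega⟩)
  let z' : C.Lev := ⟨z.2.1 + ((-u : ℤˣ) : ℤ), hz⟩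
  have hδ : (C.GD Γ).Path (z.1, z') (C.sh ((-u : ℤˣ) : ℤ) δ) (v, l') := by
    have := C.path_sh Γ h3 h2 (k := z') (k' := l') rfl (by rw [hl, hu]; rfl)
    exact this
  have e2 : q w (C.pr h) = q w (C.pr (h' ++ δ)) := C.q_pr hpr h4
  by_cases hb : o = some (-u) ∧ h' = []
  · obtain ⟨rfl, rfl⟩ := hb
    have hzx : x = z := h1
    subst hzx
    -- the last move is undone
    generalize hq : (x, some (-u)) = qq at hP
    rcases hP with _ | @⟨ℓ1, q1, _, u1, k1, hP1, hR⟩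
    · rw [← hq] at hq0
      exact absurd hq0 (by simp)
    · obtain ⟨r1, _, y, ⟨_, r3⟩, r4, r5⟩ := hR
      subst hq
      have hu1 : u1 = -u := by
        have := r1
        simp only [Option.some.injEq] at this
        exact this.symm
      subst hu1
      refine ⟨ℓ1, q1.1, q1.2, k1 ++ C.sh ((-u : ℤˣ) : ℤ) δ, hP1, ?_, ?_⟩
      · refine (C.GD Γ).path_append.2 ⟨y, r3, ?_⟩
        have hy : y = (x.1, z') := by
          have r4' : y.1 = x.1 := r4
          refine Prod.ext (y := (x.1, z')) r4' ?_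
          apply Subtype.ext
          show y.2.1 = x.2.1 + ((-u : ℤˣ) : ℤ)
          have r5' : x.2.1 = y.2.1 - ((-u : ℤˣ) : ℤ) := r5
          rw [r5']
          ring
        rw [hy]
        exact hδ
      · rw [e, q_append, e2, C.pr_append, C.pr_append, C.pr_sh, q_append, q_append, q_append,
          q_append, C.pr_nil, q_nil, one_mul, mul_assoc]
  · refine ⟨ℓ ++ C.pr h', (z.1, z'), some u, C.sh ((-u : ℤˣ) : ℤ) δ, ?_, hδ, ?_⟩
    · refine Pre.snoc hP ⟨rfl, ?_, z, ⟨hT, h1⟩, rfl, ?_⟩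
      · intro h5 h6
        exact hb ⟨h5, h6⟩
      · show z.2.1 + ((-u : ℤˣ) : ℤ) = z.2.1 - (u : ℤ)
        rw [hu]
        ring
    · rw [e, q_append, e2, C.pr_append, C.pr_sh, q_append, q_append, q_append, mul_assoc]

include hpr hL in
theorem Cfg.moves {q0 : C.Q V} (hq0 : q0.2 = none) {W : Wd E} {v : V} (n : ℕ) :
    ∀ {l l' : C.Lev}, Cfg C Γ L w q0 W (v, l) → (l'.1 - l.1).natAbs = n →
      Cfg C Γ L w q0 W (v, l') := by
  induction n with
  | zero =>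
    intro l l' H h
    have : l' = l := Subtype.ext (by omega)
    rw [this]
    exact H
  | succ n ih =>
    intro l l' H h
    have hl := l.2
    have hl' := l'.2
    by_cases hlt : l.1 < l'.1
    · have H2 := Cfg.move C Γ L hpr hL hq0 (l' := ⟨l.1 + 1, by omega, by omega⟩) H (-1) (by
        simp only [Units.val_neg, Units.val_one]
        omega)
      apply ih H2
      show (l'.1 - (l.1 + 1)).natAbs = n
      omega
    · have H2 := Cfg.move C Γ L hpr hL hq0 (l' := ⟨l.1 - 1, by omega, by omega⟩) H 1 (by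
        simp only [Units.val_one])
      apply ih H2
      show (l'.1 - (l.1 - 1)).natAbs = n
      omega

include hpr hL hne in
theorem Cfg.exists {q0 : C.Q V} (hq0 : q0.2 = none) (W : Wd E) :
    ∀ v, Γ.Path q0.1.1 W v → ∃ l, Cfg C Γ L w q0 W (v, l) := by
  induction W using List.reverseRecOn with
  | nil =>
    intro v hv
    have hv : q0.1.1 = v := hv
    refine ⟨q0.1.2, [], q0.1, q0.2, [], Pre.nil, ?_, by rw [C.pr_nil, List.append_nil]⟩
    rw [← hv]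
    rfl
  | append_singleton W a ih =>
    intro v hv
    obtain ⟨m, h1, h2, h3⟩ := Γ.path_append.1 hv
    obtain ⟨l, H⟩ := ih m h1
    obtain ⟨j, hj⟩ := hne a.1
    let p : C.ED := ⟨(a.1, j), hj⟩
    have hs : ((C.GD Γ).src (p, a.2)).1 = m := by
      rw [C.src_vx, ← h2]
    have ht : ((C.GD Γ).tgt (p, a.2)).1 = v := by
      rw [C.tgt_vx]
      exact h3
    obtain ⟨ℓ, x, o, h, hP, hh, e⟩ :=
      Cfg.moves C Γ L hpr hL hq0 _ (l' := ((C.GD Γ).src (p, a.2)).2) H rfl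
    refine ⟨((C.GD Γ).tgt (p, a.2)).2, ℓ, x, o, h ++ [(p, a.2)], hP, ?_, ?_⟩
    · refine (C.GD Γ).path_append.2 ⟨_, hh, ?_, ?_⟩
      · rw [← hs]
      · rw [← ht]
        rfl
    · rw [q_append, e, C.pr_append, ← List.append_assoc, q_append w (ℓ ++ C.pr h)]
      rfl

include hpr hL in
theorem Pre.final {q0 q1 : C.Q V} (hq0 : q0.2 = none) {ℓ : Wd E} (hP : Pre C Γ L q0 ℓ q1) :
    ∀ (h : Wd C.ED) (y : V × C.Lev), (C.GD Γ).Path q1.1 h y →
      ∃ ℓ' v' α, Run (RL C Γ L) (FL C Γ L) q0 ℓ' ∧ Γ.Path q0.1.1 ℓ' v' ∧ Γ.Path v' α y.1 ∧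
        Over (fun e => e ≠ C.b) α ∧ q w (ℓ ++ C.pr h) = q w (ℓ' ++ α) := by
  induction hP with
  | nil =>
    intro h y hh
    obtain ⟨h', z, δ, hT, h1, h2, h3, h4⟩ :=
      TW.exists (S := C.AD) (hL (q0.2.getD 1) q0.1) hh
    refine ⟨C.pr h', z.1, C.pr δ, Run.fin ⟨h', ⟨hT, ?_⟩, rfl⟩, C.path_pr Γ h1, C.path_pr Γ h2,
      C.over_pr h3, ?_⟩
    · intro u hu
      rw [hq0] at hu
      exact absurd hu (by simp)
    · rw [List.nil_append, C.q_pr hpr h4, C.pr_append]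
  | @snoc ℓ1 q1 q2 u k hP1 hR ih =>
    intro h y hh
    obtain ⟨h', z, δ, hT, h1, h2, h3, h4⟩ :=
      TW.exists (S := C.AD) (hL (q2.2.getD 1) q2.1) hh
    obtain ⟨r1, r2, yy, ⟨r3, r4⟩, r5, r6⟩ := hR
    by_cases hb : Over (C.Dsub (u : ℤ)) h'
    · have hk : yy.2.1 = q2.1.2.1 + (u : ℤ) := by rw [r6]; ring
      have hz := C.lev_forw Γ hb h1 (by rw [← hk]; exact yy.2.2)
      have h5 := C.path_sh Γ hb h1 (k := yy.2) (k' := ⟨_, hz⟩) hk rfl
      rw [← r5] at h5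
      obtain ⟨ℓ', v', α, g1, g2, g3, g4, g5⟩ := ih (k ++ C.sh (u : ℤ) h') _
        ((C.GD Γ).path_append.2 ⟨yy, r4, h5⟩)
      refine ⟨ℓ', v', α ++ C.pr δ, g1, g2, Γ.path_append.2 ⟨z.1, g3, C.path_pr Γ h2⟩,
        g4.append (C.over_pr h3), ?_⟩
      rw [q_append, C.q_pr hpr h4, ← List.append_assoc, q_append w (ℓ' ++ α), ← g5]
      simp only [C.pr_append, C.pr_sh, q_append, mul_assoc]
    · refine ⟨ℓ1 ++ C.pr k ++ C.pr h', z.1, C.pr δ, ?_, ?_, C.path_pr Γ h2, C.over_pr h3, ?_⟩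
      · refine Pre.run C Γ L (Pre.snoc hP1 ⟨r1, r2, yy, ⟨r3, r4⟩, r5, r6⟩)
          (Run.fin ⟨h', ⟨hT, ?_⟩, rfl⟩)
        intro u' hu'
        rw [r1] at hu'
        simp only [Option.some.injEq] at hu'
        rw [← hu']
        exact hb
      · refine Γ.path_append.2 ⟨_, Pre.path C Γ L
          (Pre.snoc hP1 ⟨r1, r2, yy, ⟨r3, r4⟩, r5, r6⟩), C.path_pr Γ h1⟩
      · rw [q_append, C.q_pr hpr h4, C.pr_append]
        simp only [q_append, mul_assoc]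

theorem RL_path {q0 : C.Q V} {W : Wd E} (h : Run (RL C Γ L) (FL C Γ L) q0 W) :
    ∃ v, Γ.Path q0.1.1 W v := by
  induction h with
  | fin h =>
    obtain ⟨h, ⟨h1, _⟩, rfl⟩ := h
    obtain ⟨v, hv⟩ := h1.path
    exact ⟨_, C.path_pr Γ hv⟩
  | step h _ ih =>
    obtain ⟨h, ⟨u, h1, h2, y, ⟨h3, h4⟩, h5, h6⟩, rfl⟩ := h
    obtain ⟨v, hv⟩ := ih
    refine ⟨v, Γ.path_append.2 ⟨_, C.path_pr Γ h4, ?_⟩⟩
    rw [h5]
    exact hv

include hpr hL hne in
theorem surj_step (x : V × C.Lev) (W : Wd E) (v : V) (hW : Γ.Path x.1 W v) :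
    ∃ ℓ ∈ runL (RL C Γ L) (FL C Γ L) (x, none), ∃ v' α, Γ.Path x.1 ℓ v' ∧ Γ.Path v' α v ∧
      Over (fun e => e ≠ C.b) α ∧ q w W = q w (ℓ ++ α) := by
  obtain ⟨l, ℓ, x', o, h, h1, h2, h3⟩ :=
    Cfg.exists C Γ L hpr hL hne (q0 := (x, none)) rfl W v hW
  obtain ⟨ℓ', v', α, g1, g2, g3, g4, g5⟩ := Pre.final C Γ L hpr hL rfl h1 h _ h2
  exact ⟨ℓ', g1, v', α, g2, g3, g4, by rw [h3, g5]⟩

end surj

end Pool.Agent.W395
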