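import Mathlib
import Pool.Agent.W395.StepA
import Pool.Agent.W395.Hnn

/-!
# The inductive step: the HNN extension
-/

set_option autoImplicit false

namespace Pool.Agent.W395

variable {V E : Type}

/-- membership in an associated subgroup -/
def As (C : Win E) (w0 : Wd C.ED) (u : ℤ) (x : Gp w0) : Prop :=
  ∃ W, Over (C.Dsub u) W ∧ x = q w0 W

/-- no pinches -/
def NPi (C : Win E) (w0 : Wd C.ED) (l : List (ℤˣ × Gp w0)) : Prop :=
  l.IsChain (fun a b => As C w0 (a.1 : ℤ) a.2 → a.1 = b.1)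

structure Brit (C : Win E) (w0 : Wd C.ED) {H : Type} [Group H] (o : Gp w0 →* H) (t : H) :
    Prop where
  rel : ∀ (u : ℤˣ) (W : Wd C.ED), Over (C.Dsub (u : ℤ)) W →
    t ^ (u : ℤ) * o (q w0 W) = o (q w0 (C.sh (u : ℤ) W)) * t ^ (u : ℤ)
  cmp : ∀ (a b : Gp w0) (l l' : List (ℤˣ × Gp w0)), NPi C w0 l → NPi C w0 l' →
    o a * lprod o t l = o b * lprod o t l' →
    l.map Prod.fst = l'.map Prod.fst ∧
      (∀ u ∈ (l.map Prod.fst).head?, As C w0 ((-u : ℤˣ) : ℤ) (a⁻¹ * b)) ∧ (l = [] → a = b)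

theorem lift_q {I : Type} (w : Wd E) (g : I → E) (W : Wd I) :
    FreeGroup.lift (fun i => q w [(g i, true)]) (FreeGroup.mk W) =
      q w (W.map fun x => (g x.1, x.2)) := by
  have : FreeGroup.lift (fun i => q w [(g i, true)]) =
      (PresentedGroup.mk ({FreeGroup.mk w} : Set (FreeGroup E))).comp (FreeGroup.map g) := by
    apply FreeGroup.ext_hom
    intro a
    simp only [FreeGroup.lift_apply_of, MonoidHom.comp_apply, FreeGroup.map.of]
    rfl
  rw [this]
  rfl

theorem lift_q_inj {I : Type} (w : Wd E) {g : I → E} (hg : Function.Injective g) {N : E → Prop}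
    (hN : ∀ i, N (g i)) (hF : FreeOn w N) :
    Function.Injective (FreeGroup.lift (fun i => q w [(g i, true)])) := by
  rw [injective_iff_map_eq_one]
  intro x hx
  obtain ⟨W, rfl⟩ := Quot.exists_rep x
  have hx : FreeGroup.lift (fun i => q w [(g i, true)]) (FreeGroup.mk W) = 1 := hx
  rw [lift_q] at hx
  have h1 : FreeGroup.mk (W.map fun x => (g x.1, x.2)) = 1 := by
    apply hF _ _ hx
    intro y hy
    rw [List.mem_map] at hy
    obtain ⟨z, _, rfl⟩ := hy
    exact hN _
  rw [← FreeGroup.map.mk] at h1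
  apply FreeGroup.map_injective hg
  rw [map_one]
  exact h1

theorem lift_q_range {I : Type} (w : Wd E) (g : I → E) {N : E → Prop}
    (hN : ∀ i, N (g i)) (hN' : ∀ e, N e → ∃ i, g i = e) (x : Gp w) :
    x ∈ (FreeGroup.lift (fun i => q w [(g i, true)])).range ↔ ∃ W, Over N W ∧ x = q w W := by
  constructor
  · rintro ⟨y, rfl⟩
    obtain ⟨W, rfl⟩ := Quot.exists_rep y
    refine ⟨W.map fun x => (g x.1, x.2), ?_, ?_⟩
    swap
    · exact lift_q w g W
    intro y hy
    rw [List.mem_map] at hy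
    obtain ⟨z, _, rfl⟩ := hy
    exact hN _
  · rintro ⟨W, hW, rfl⟩
    have : ∃ W' : Wd I, W'.map (fun x => (g x.1, x.2)) = W := by
      induction W with
      | nil => exact ⟨[], rfl⟩
      | cons a W ih =>
        obtain ⟨W', hW'⟩ := ih fun y hy => hW y (List.mem_cons_of_mem _ hy)
        obtain ⟨i, hi⟩ := hN' a.1 (hW a List.mem_cons_self)
        refine ⟨(i, a.2) :: W', ?_⟩
        rw [List.map_cons, hW', hi]
    obtain ⟨W', rfl⟩ := this
    exact ⟨FreeGroup.mk W', lift_q w g W'⟩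

theorem exists_brit (C : Win E) (w0 : Wd C.ED) (hfree : ∀ u : ℤˣ, FreeOn w0 (C.Nc u)) :
    ∃ (H : Type) (_ : Group H) (o : Gp w0 →* H) (t : H), Brit C w0 o t := by
  let I := {p : C.ED // C.Dsub 1 p}
  let gA : I → C.ED := fun i => i.1
  let gB : I → C.ED := fun i => C.shE 1 i.1
  have hgA : Function.Injective gA := Subtype.val_injective
  have hgB : Function.Injective gB := by
    intro i i' h
    apply Subtype.ext
    have h : C.shE 1 i.1 = C.shE 1 i'.1 := h
    rw [← C.shE_shE i.2, h, C.shE_shE i'.2]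
  have hA : ∀ i, C.Dsub 1 (gA i) := fun i => i.2
  have hB : ∀ i, C.Dsub (-1) (gB i) := fun i => C.Dsub_shE i.2
  have hA' : ∀ e, C.Dsub 1 e → ∃ i, gA i = e := fun e he => ⟨⟨e, he⟩, rfl⟩
  have hB' : ∀ e, C.Dsub (-1) e → ∃ i, gB i = e := by
    intro e he
    refine ⟨⟨C.shE (-1) e, ?_⟩, ?_⟩
    · have := C.Dsub_shE he
      rwa [neg_neg] at this
    · have := C.shE_shE he
      rwa [neg_neg] at this
  obtain ⟨H, iH, o, t, h1, h2⟩ := exists_hnn
    (FreeGroup.lift (fun i => q w0 [(gA i, true)])) (FreeGroup.lift (fun i => q w0 [(gB i, true)]))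
    (lift_q_inj w0 hgA (N := C.Nc 1) (fun i => C.Dsub_Nc 1 _ (hA i)) (hfree 1))
    (lift_q_inj w0 hgB (N := C.Nc (-1)) (fun i => C.Dsub_Nc (-1) _ (hB i)) (hfree (-1)))
  have has : ∀ (u : ℤˣ) (x : Gp w0), x ∈ assoc (FreeGroup.lift (fun i => q w0 [(gA i, true)]))
      (FreeGroup.lift (fun i => q w0 [(gB i, true)])) u ↔ As C w0 (u : ℤ) x := by
    intro u x
    rcases Int.units_eq_one_or u with rfl | rfl
    · unfold assoc
      rw [if_pos rfl]
      exact lift_q_range w0 gA hA hA' x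
    · unfold assoc
      rw [if_neg (by decide)]
      exact lift_q_range w0 gB hB hB' x
  have hrel1 : ∀ (W : Wd C.ED), Over (C.Dsub 1) W →
      t * o (q w0 W) = o (q w0 (C.sh 1 W)) * t := by
    intro W hW
    have : ∃ W' : Wd I, W'.map (fun x => (gA x.1, x.2)) = W := by
      induction W with
      | nil => exact ⟨[], rfl⟩
      | cons a W ih =>
        obtain ⟨W', hW'⟩ := ih fun y hy => hW y (List.mem_cons_of_mem _ hy)
        obtain ⟨i, hi⟩ := hA' a.1 (hW a List.mem_cons_self)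
        refine ⟨(i, a.2) :: W', ?_⟩
        rw [List.map_cons, hW', hi]
    obtain ⟨W', rfl⟩ := this
    have h3 := h1 (FreeGroup.mk W')
    rw [lift_q, lift_q] at h3
    rw [h3]
    unfold Win.sh
    rw [List.map_map]
    rfl
  have hnp : ∀ l, NPi C w0 l → NoPinch (FreeGroup.lift (fun i => q w0 [(gA i, true)]))
      (FreeGroup.lift (fun i => q w0 [(gB i, true)])) l := by
    intro l hl
    unfold NoPinch
    refine List.IsChain.imp ?_ hl
    intro a b hab h
    exact hab ((has _ _).1 h)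
  refine ⟨H, iH, o, t, ?_, ?_⟩
  · intro u W hW
    rcases Int.units_eq_one_or u with rfl | rfl
    · rw [Units.val_one, zpow_one]
      exact hrel1 W hW
    · rw [Units.val_neg, Units.val_one] at hW ⊢
      have h3 : Over (C.Dsub 1) (C.sh (-1) W) := by
        have := C.over_sh hW
        rwa [neg_neg] at this
      have h4 := hrel1 _ h3
      have h5 : C.sh 1 (C.sh (-1) W) = W := by
        have := C.sh_sh hW
        rwa [neg_neg] at this
      rw [h5] at h4
      rw [zpow_neg, zpow_one, eq_mul_inv_iff_mul_eq, mul_assoc, ← h4, inv_mul_cancel_left]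
  · intro a b l l' hl hl' h
    obtain ⟨h3, h4, h5⟩ := h2 a b l l' (hnp l hl) (hnp l' hl') h
    exact ⟨h3, fun u hu => (has _ _).1 (h4 u hu), h5⟩

section iota

variable {C : Win E} {w0 : Wd C.ED} {H : Type} [Group H] {o : Gp w0 →* H} {t : H}

theorem Brit.lift_indep (hB : Brit C w0 o t) (e : E) (b : Bool) (j : ℤ) (hj : C.In e j) (n : ℕ)
    (hjn : C.In e (j + n)) :
    t ^ (n : ℤ) * o (q w0 [(⟨(e, j), hj⟩, b)]) = o (q w0 [(⟨(e, j + n), hjn⟩, b)]) * t ^ (n : ℤ) := by
  induction n generalizing j with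
  | zero =>
    simp only [Nat.cast_zero, zpow_zero, one_mul, mul_one, add_zero]
  | succ n ih =>
    have hj1 : C.In e (j + 1) := by
      obtain ⟨h1, h2⟩ := hj
      obtain ⟨h3, h4⟩ := hjn
      push_cast at h3 h4
      refine ⟨⟨⟨by omega, by omega⟩, by omega, by omega⟩, fun h => ?_⟩
      have := h2 h
      have := h4 h
      omega
    have h1 := hB.rel 1 [(⟨(e, j), hj⟩, b)] (by
      intro x hx
      rw [List.mem_singleton] at hx
      rw [hx]
      exact hj1)
    have h2 : C.sh ((1 : ℤˣ) : ℤ) [(⟨(e, j), hj⟩, b)] = [(⟨(e, j + 1), hj1⟩, b)] := by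
      unfold Win.sh
      simp only [List.map_cons, List.map_nil, Units.val_one]
      rw [C.shE_of (p := ⟨(e, j), hj⟩) (u := 1) hj1]
    rw [h2, Units.val_one, zpow_one] at h1
    have h3 : j + 1 + (n : ℤ) = j + ((n + 1 : ℕ) : ℤ) := by push_cast; ring
    have h4 : C.In e (j + 1 + (n : ℤ)) := by rw [h3]; exact hjn
    have h5 := ih (j + 1) hj1 h4
    have h6 : o (q w0 [(⟨(e, j + 1 + (n : ℤ)), h4⟩, b)]) =
        o (q w0 [(⟨(e, j + ((n + 1 : ℕ) : ℤ)), hjn⟩, b)]) := by
      have : (⟨(e, j + 1 + (n : ℤ)), h4⟩ : C.ED) = ⟨(e, j + ((n + 1 : ℕ) : ℤ)), hjn⟩ :=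
        Subtype.ext (Prod.ext rfl h3)
      rw [this]
    rw [h6] at h5
    have h7 : t ^ ((n + 1 : ℕ) : ℤ) = t ^ (n : ℤ) * t := by
      push_cast
      rw [zpow_add, zpow_one]
    rw [h7, mul_assoc, h1, ← mul_assoc, h5, mul_assoc]

theorem Brit.lift_indep' (hB : Brit C w0 o t) (e : E) (b : Bool) (j k : ℤ) (hj : C.In e j)
    (hk : C.In e k) :
    t ^ (k - j) * o (q w0 [(⟨(e, j), hj⟩, b)]) = o (q w0 [(⟨(e, k), hk⟩, b)]) * t ^ (k - j) := by
  rcases le_total j k with h | h
  · obtain ⟨n, hn⟩ := Int.le.dest h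
    subst hn
    have := hB.lift_indep e b j hj n hk
    rw [add_sub_cancel_left]
    exact this
  · obtain ⟨n, hn⟩ := Int.le.dest h
    subst hn
    have := hB.lift_indep e b k hk n hj
    have e1 : k - (k + (n : ℤ)) = -(n : ℤ) := by ring
    rw [e1, zpow_neg, eq_mul_inv_iff_mul_eq, mul_assoc, ← this, inv_mul_cancel_left]

theorem Brit.iota (hB : Brit C w0 o t) (Γ : Gr V E) {w : Wd E} (hpr : C.pr w0 = w)
    {x0 : V × C.Lev} (hcl : (C.GD Γ).Path x0 w0 x0) (hne : ∀ e, ∃ j, C.In e j) :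
    ∃ ι : Gp w →* H, ∀ (h : Wd C.ED) (x y : V × C.Lev), (C.GD Γ).Path x h y →
      t ^ x.2.1 * ι (q w (C.pr h)) = o (q w0 h) * t ^ y.2.1 := by
  choose J hJ using hne
  let f0 : E → H := fun e => t ^ (- J e) * o (q w0 [(⟨(e, J e), hJ e⟩, true)]) * t ^ (J e + C.φ e)
  have hinv : ∀ p : C.ED, q w0 [(p, false)] = (q w0 [(p, true)])⁻¹ := by
    intro p
    rw [← q_inv]
    rfl
  have key : ∀ (h : Wd C.ED) (x y : V × C.Lev), (C.GD Γ).Path x h y →
      t ^ x.2.1 * FreeGroup.lift f0 (FreeGroup.mk (C.pr h)) = o (q w0 h) * t ^ y.2.1 := by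
    intro h
    induction h with
    | nil =>
      intro x y hxy
      have hxy : x = y := hxy
      rw [C.pr_nil, ← FreeGroup.one_eq_mk, map_one, q_nil, map_one, hxy, mul_one, one_mul]
    | cons a h ih =>
      intro x y hxy
      obtain ⟨h1, h2⟩ := hxy
      have h3 := ih _ _ h2
      have h4 : t ^ x.2.1 * FreeGroup.lift f0 (FreeGroup.mk (C.pr [a])) =
          o (q w0 [a]) * t ^ ((C.GD Γ).tgt a).2.1 := by
        obtain ⟨⟨⟨e, j⟩, hj⟩, b⟩ := a
        rw [← h1, C.src_lev, C.tgt_lev]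
        have h6 := hB.lift_indep' e true (J e) j (hJ e) hj
        rcases b with _ | _
        · have h5 : FreeGroup.lift f0 (FreeGroup.mk (C.pr [(⟨(e, j), hj⟩, false)])) = (f0 e)⁻¹ := by
            show FreeGroup.lift f0 (FreeGroup.mk [(e, false)]) = _
            rw [FreeGroup.lift_mk]
            simp
          rw [h5, hinv]
          simp only [Bool.false_eq_true, if_false, f0]
          have h7 : o (q w0 [(⟨(e, j), hj⟩, true)]) = t ^ (j - J e) *
              o (q w0 [(⟨(e, J e), hJ e⟩, true)]) * (t ^ (j - J e))⁻¹ := by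
            rw [h6, mul_inv_cancel_right]
          rw [map_inv, h7]
          simp only [mul_inv_rev, ← zpow_neg, mul_assoc, ← zpow_add]
          rw [← mul_assoc, ← zpow_add]
          have e1 : j + C.φ e + -(J e + C.φ e) = j - J e := by ring
          have e2 : -(j - J e) + j = - -J e := by ring
          rw [e1, e2, neg_neg (j - J e)]
        · have h5 : FreeGroup.lift f0 (FreeGroup.mk (C.pr [(⟨(e, j), hj⟩, true)])) = f0 e := by
            show FreeGroup.lift f0 (FreeGroup.mk [(e, true)]) = _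
            rw [FreeGroup.lift_mk]
            simp
          rw [h5]
          simp only [if_true, f0]
          have h7 : o (q w0 [(⟨(e, j), hj⟩, true)]) = t ^ (j - J e) *
              o (q w0 [(⟨(e, J e), hJ e⟩, true)]) * (t ^ (j - J e))⁻¹ := by
            rw [h6, mul_inv_cancel_right]
          rw [h7]
          simp only [← zpow_neg, mul_assoc, ← zpow_add]
          rw [← mul_assoc, ← zpow_add]
          have e1 : j + - J e = j - J e := by ring
          have e2 : -(j - J e) + (j + C.φ e) = J e + C.φ e := by ring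
          rw [e1, e2]
      have h5 : C.pr (a :: h) = C.pr [a] ++ C.pr h := rfl
      have h6 : q w0 (a :: h) = q w0 [a] * q w0 h := q_append w0 [a] h
      rw [h5, ← FreeGroup.mul_mk, map_mul, ← mul_assoc, h4, mul_assoc, h3, h6, map_mul, mul_assoc]
  have hw : FreeGroup.lift f0 (FreeGroup.mk w) = 1 := by
    have := key w0 x0 x0 hcl
    rw [hpr, q_self, map_one, one_mul] at this
    exact mul_eq_left.1 this
  have hr : ∀ r ∈ ({FreeGroup.mk w} : Set (FreeGroup E)), FreeGroup.lift f0 r = 1 := by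
    intro r hr
    rw [Set.mem_singleton_iff] at hr
    rw [hr, hw]
  exact ⟨PresentedGroup.toGroup hr, key⟩

end iota

end Pool.Agent.W395
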