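import Mathlib
import Pool.Agent.W395.StepB

/-!
# The inductive step: uniqueness of representatives
-/

set_option autoImplicit false

namespace Pool.Agent.W395

variable {V E : Type}

/-- conjugated generators -/
def evf (C : Win E) (p : C.ED) : FreeGroup (Option E) :=
  FreeGroup.of none ^ p.1.2 * FreeGroup.of (some p.1.1) *
    FreeGroup.of none ^ (-(p.1.2 + C.φ p.1.1))

/-- evaluation of words of the window in a free group -/
def ev (C : Win E) : FreeGroup C.ED →* FreeGroup (Option E) := FreeGroup.lift (evf C)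

theorem ev_sh (C : Win E) (u : ℤ) (W : Wd C.ED) (hW : Over (C.Dsub u) W) :
    ev C (FreeGroup.mk (C.sh u W)) =
      FreeGroup.of none ^ u * ev C (FreeGroup.mk W) * (FreeGroup.of none ^ u)⁻¹ := by
  have h1 : ∀ p : C.ED, C.Dsub u p → evf C (C.shE u p) =
      FreeGroup.of none ^ u * evf C p * (FreeGroup.of none ^ u)⁻¹ := by
    intro p hp
    rw [C.shE_of hp]
    unfold evf
    simp only [← zpow_neg, mul_assoc, ← zpow_add]
    rw [← mul_assoc (FreeGroup.of none ^ u), ← zpow_add]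
    have e1 : u + p.1.2 = p.1.2 + u := by ring
    have e2 : -(p.1.2 + C.φ p.1.1) + -u = -(p.1.2 + u + C.φ p.1.1) := by ring
    rw [e1, e2]
  induction W with
  | nil =>
    have : C.sh u [] = [] := rfl
    rw [this, ← FreeGroup.one_eq_mk, map_one, mul_one, mul_inv_cancel]
  | cons a W ih =>
    have h2 := ih fun y hy => hW y (List.mem_cons_of_mem _ hy)
    have h3 := h1 a.1 (hW a List.mem_cons_self)
    have h4 : ev C (FreeGroup.mk (C.sh u [a])) =
        FreeGroup.of none ^ u * ev C (FreeGroup.mk [a]) * (FreeGroup.of none ^ u)⁻¹ := by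
      obtain ⟨p, b⟩ := a
      show ev C (FreeGroup.mk [(C.shE u p, b)]) = _
      unfold ev
      rw [FreeGroup.lift_mk, FreeGroup.lift_mk]
      rcases b with _ | _
      · simp only [List.map_cons, List.map_nil, List.prod_singleton, cond_false]
        rw [h3]
        group
      · simp only [List.map_cons, List.map_nil, List.prod_singleton, cond_true]
        rw [h3]
    have h5 : C.sh u (a :: W) = C.sh u [a] ++ C.sh u W := rfl
    have h6 : FreeGroup.mk (a :: W) = FreeGroup.mk [a] * FreeGroup.mk W := by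
      rw [FreeGroup.mul_mk]
      rfl
    rw [h5, ← FreeGroup.mul_mk, map_mul, h4, h2, h6, map_mul]
    group

section M

variable {C : Win E} {w0 : Wd C.ED} {H : Type} [Group H] {o : Gp w0 →* H} {t : H}

/-- the value of a list of moves and words in the free group -/
def evl (C : Win E) (l : List (ℤˣ × Wd C.ED)) : FreeGroup (Option E) :=
  (l.map fun y => FreeGroup.of none ^ (y.1 : ℤ) * ev C (FreeGroup.mk y.2)).prod

/-- the list of group elements -/
def ql (C : Win E) (w0 : Wd C.ED) (l : List (ℤˣ × Wd C.ED)) : List (ℤˣ × Gp w0) :=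
  l.map fun y => (y.1, q w0 y.2)

/-- pinch-free representations -/
def RepM (C : Win E) (w0 : Wd C.ED) (o : Gp w0 →* H) (t : H)
    (x : H × FreeGroup (Option E)) : Prop :=
  ∃ (α : Wd C.ED) (l : List (ℤˣ × Wd C.ED)), Over C.AD α ∧ (∀ y ∈ l, Over C.AD y.2) ∧
    NPi C w0 (ql C w0 l) ∧ x.1 = o (q w0 α) * lprod o t (ql C w0 l) ∧
    x.2 = ev C (FreeGroup.mk α) * evl C l

theorem RepM.one : RepM C w0 o t 1 := by
  refine ⟨[], [], Over.nil _, by simp, List.IsChain.nil, ?_, ?_⟩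
  · rw [q_nil, map_one, one_mul]
    rfl
  · rw [← FreeGroup.one_eq_mk, map_one, one_mul]
    rfl

theorem RepM.word {x : H × FreeGroup (Option E)} (hx : RepM C w0 o t x) {β : Wd C.ED}
    (hβ : Over C.AD β) : RepM C w0 o t ((o (q w0 β), ev C (FreeGroup.mk β)) * x) := by
  obtain ⟨α, l, h1, h2, h3, h4, h5⟩ := hx
  refine ⟨β ++ α, l, hβ.append h1, h2, h3, ?_, ?_⟩
  · rw [Prod.fst_mul, h4, q_append, map_mul, mul_assoc]
  · rw [Prod.snd_mul, h5, ← FreeGroup.mul_mk, map_mul, mul_assoc]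

theorem lprod_cons {G H : Type} [Group G] [Group H] (o : G →* H) (t : H) (x : ℤˣ × G)
    (l : List (ℤˣ × G)) : lprod o t (x :: l) = t ^ (x.1 : ℤ) * o x.2 * lprod o t l := by
  unfold lprod
  rw [List.map_cons, List.prod_cons]

theorem lprod_nil {G H : Type} [Group G] [Group H] (o : G →* H) (t : H) :
    lprod o t [] = 1 := rfl

theorem evl_cons (x : ℤˣ × Wd C.ED) (l : List (ℤˣ × Wd C.ED)) :
    evl C (x :: l) = FreeGroup.of none ^ (x.1 : ℤ) * ev C (FreeGroup.mk x.2) * evl C l := by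
  unfold evl
  rw [List.map_cons, List.prod_cons]

theorem RepM.move (hB : Brit C w0 o t) (hfree : ∀ u : ℤˣ, FreeOn w0 (C.Nc u))
    {x : H × FreeGroup (Option E)} (hx : RepM C w0 o t x) (u : ℤˣ) :
    RepM C w0 o t ((t ^ (u : ℤ), FreeGroup.of none ^ (u : ℤ)) * x) := by
  obtain ⟨α, l, h1, h2, h3, h4, h5⟩ := hx
  by_cases hnp : NPi C w0 (ql C w0 ((u, α) :: l))
  · refine ⟨[], (u, α) :: l, Over.nil _, ?_, hnp, ?_, ?_⟩
    · intro y hy
      rcases List.mem_cons.1 hy with rfl | hy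
      · exact h1
      · exact h2 y hy
    · rw [Prod.fst_mul, h4, q_nil, map_one, one_mul]
      show _ = lprod o t ((u, q w0 α) :: ql C w0 l)
      rw [lprod_cons, mul_assoc]
    · rw [Prod.snd_mul, h5, ← FreeGroup.one_eq_mk, map_one, one_mul, evl_cons, mul_assoc]
  · -- a pinch
    rcases l with _ | ⟨⟨u1, α1⟩, l1⟩
    · exact absurd (List.isChain_singleton _) hnp
    · have hnp2 : As C w0 (u : ℤ) (q w0 α) ∧ u ≠ u1 := by
        by_contra hcon
        apply hnp
        show List.IsChain _ ((u, q w0 α) :: (u1, q w0 α1) :: ql C w0 l1)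
        rw [List.isChain_cons_cons]
        refine ⟨?_, h3⟩
        intro ha
        by_contra hne
        exact hcon ⟨ha, hne⟩
      obtain ⟨⟨σ, hσ, e⟩, hne⟩ := hnp2
      have hu1 : u1 = -u := by
        rcases Int.units_eq_one_or u with rfl | rfl <;> rcases Int.units_eq_one_or u1 with rfl | rfl
        · exact absurd rfl hne
        · rfl
        · rw [neg_neg]
        · exact absurd rfl hne
      subst hu1
      have e2 : FreeGroup.mk α = FreeGroup.mk σ := (hfree u).eq (h1.mono (C.AD_Nc u))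
        (hσ.mono (C.Dsub_Nc u)) e
      obtain ⟨α', g1, g2⟩ := exists_isReduced α
      obtain ⟨σ', g3, g4⟩ := exists_isReduced σ
      have e3 : α' = σ' := by
        apply eq_of_mk_eq g1 g3
        rw [← mk_eq_of_red g2, e2, mk_eq_of_red g4]
      subst e3
      have hα' : Over (C.Dsub (u : ℤ)) α' := hσ.red g4
      have hα'' : Over C.AD α' := h1.red g2
      have e4 : FreeGroup.mk α = FreeGroup.mk α' := mk_eq_of_red g2
      refine ⟨C.sh (u : ℤ) α' ++ α1, l1, (C.over_sh_AD hα'').append (h2 _ List.mem_cons_self),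
        fun y hy => h2 y (List.mem_cons_of_mem _ hy), ?_, ?_, ?_⟩
      · exact (List.isChain_cons.1 h3).2
      · rw [Prod.fst_mul, h4, q_congr w0 e4]
        show _ * (_ * lprod o t ((-u, q w0 α1) :: ql C w0 l1)) = _
        rw [lprod_cons, q_append, map_mul, ← mul_assoc, hB.rel u α' hα', Units.val_neg, zpow_neg]
        simp only [mul_assoc]
        rw [mul_inv_cancel_left]
      · rw [Prod.snd_mul, h5, evl_cons, ← FreeGroup.mul_mk, map_mul, ev_sh C _ _ hα', e4,
          Units.val_neg, zpow_neg]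
        simp only [mul_assoc]

/-- the subgroup of pairs -/
def MP (C : Win E) (w0 : Wd C.ED) (o : Gp w0 →* H) (t : H) :
    Subgroup (H × FreeGroup (Option E)) :=
  Subgroup.closure ({x | ∃ u : ℤˣ, x = (t ^ (u : ℤ), FreeGroup.of none ^ (u : ℤ))} ∪
    {x | ∃ β, Over C.AD β ∧ x = (o (q w0 β), ev C (FreeGroup.mk β))})

theorem MP.rep (hB : Brit C w0 o t) (hfree : ∀ u : ℤˣ, FreeOn w0 (C.Nc u))
    {x : H × FreeGroup (Option E)} (hx : x ∈ MP C w0 o t) : RepM C w0 o t x := by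
  unfold MP at hx
  induction hx using Subgroup.closure_induction_left with
  | one => exact RepM.one
  | mul_left x hx y hy ih =>
    rcases hx with ⟨u, rfl⟩ | ⟨β, hβ, rfl⟩
    · exact RepM.move hB hfree ih u
    · exact RepM.word ih hβ
  | inv_mul_cancel x hx y hy ih =>
    rcases hx with ⟨u, rfl⟩ | ⟨β, hβ, rfl⟩
    · have h := RepM.move hB hfree ih (-u)
      rw [Units.val_neg, zpow_neg, zpow_neg] at h
      exact h
    · have h := RepM.word ih hβ.invRev
      rw [q_inv, map_inv, ← FreeGroup.inv_mk, map_inv] at h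
      exact h

theorem MP.word {β : Wd C.ED} (hβ : Over C.AD β) :
    (o (q w0 β), ev C (FreeGroup.mk β)) ∈ MP C w0 o t :=
  Subgroup.subset_closure (Or.inr ⟨β, hβ, rfl⟩)

theorem MP.tpow (n : ℤ) : (t ^ n, FreeGroup.of none ^ n) ∈ MP C w0 o t := by
  have h : (t, FreeGroup.of none) ∈ MP C w0 o t := by
    apply Subgroup.subset_closure
    refine Or.inl ⟨1, ?_⟩
    rw [Units.val_one, zpow_one, zpow_one]
  have := Subgroup.zpow_mem _ h n
  exact this

/-- the subgroup generated by the stable letter and the lifts of the edges different from `b` -/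
def MM (C : Win E) (w0 : Wd C.ED) (o : Gp w0 →* H) (t : H) : Subgroup H :=
  (MP C w0 o t).map (MonoidHom.fst H (FreeGroup (Option E)))

theorem MM.rep (hB : Brit C w0 o t) (hfree : ∀ u : ℤˣ, FreeOn w0 (C.Nc u))
    {κ : H} (hx : κ ∈ MM C w0 o t) : ∃ (α : Wd C.ED) (l : List (ℤˣ × Gp w0)), Over C.AD α ∧
      NPi C w0 l ∧ κ = o (q w0 α) * lprod o t l := by
  obtain ⟨x, hx, rfl⟩ := hx
  obtain ⟨α, l, h1, h2, h3, h4, h5⟩ := MP.rep hB hfree hx
  exact ⟨α, _, h1, h3, h4⟩

theorem MM.word {β : Wd C.ED} (hβ : Over C.AD β) : o (q w0 β) ∈ MM C w0 o t :=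
  ⟨_, MP.word hβ, rfl⟩

theorem MM.tpow (n : ℤ) : t ^ n ∈ MM C w0 o t := ⟨_, MP.tpow n, rfl⟩

end M

section inj

variable (C : Win E) (Γ : Gr V E) (L : ℤˣ → V × C.Lev → Language (C.ED × Bool))
  {w : Wd E} {w0 : Wd C.ED} {H : Type} [Group H] (o : Gp w0 →* H) (t : H)

/-- values of runs -/
inductive RV : C.Q V → Wd E → H → Prop
  | fin {q1 : C.Q V} {h : Wd C.ED} : FC C Γ L q1 h → RV q1 (C.pr h) (o (q w0 h))
  | step {q1 q2 : C.Q V} {u : ℤˣ} {h : Wd C.ED} {W : Wd E} {X : H} : RC C Γ L q1 q2 u h →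
      RV q2 W X → RV q1 (C.pr h ++ W) (o (q w0 h) * t ^ (u : ℤ) * X)

variable {o t} (hB : Brit C w0 o t) (hfree : ∀ u : ℤˣ, FreeOn w0 (C.Nc u))
  (hL : ∀ u x, IsTrans (C.GD Γ) w0 (C.Nc u) x (L u x))

theorem np_cons {g : Gp w0} {l : List (ℤˣ × Gp w0)} {u : ℤˣ} (hl : NPi C w0 l)
    (h : As C w0 (u : ℤ) g → (l.map Prod.fst).head? = some u) : NPi C w0 ((u, g) :: l) := by
  unfold NPi
  rw [List.isChain_cons]
  refine ⟨?_, hl⟩
  intro y hy ha
  have h1 := h ha
  rw [List.head?_map] at h1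
  have hy : l.head? = some y := hy
  rw [hy] at h1
  simp only [Option.map_some, Option.some.injEq] at h1
  exact h1.symm

include hB hfree hL in
theorem RV.rep {q1 : C.Q V} {W : Wd E} {X : H} (h : RV C Γ L o t q1 W X) {κ : H}
    (hκ : κ ∈ MM C w0 o t) : ∃ g l, NPi C w0 l ∧ X * κ = o g * lprod o t l ∧
      ∀ u : ℤˣ, q1.2 = some u → As C w0 (u : ℤ) g → (l.map Prod.fst).head? = some u := by
  induction h with
  | @fin q1 h hF =>
    obtain ⟨α, l, h1, h2, h3⟩ := MM.rep hB hfree hκ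
    refine ⟨q w0 h * q w0 α, l, h2, ?_, ?_⟩
    · rw [h3, map_mul, mul_assoc]
    · rintro u hu ⟨σ, hσ, e⟩
      exfalso
      apply hF.2 u hu
      have hu' : q1.2.getD 1 = u := by rw [hu]; rfl
      have hT := hF.1
      rw [hu'] at hT
      refine TW.over (hL u q1.1) (hfree u) (C.Dsub_Nc u) (C.AD_Nc u) hT hσ h1.invRev ?_
      rw [q_append, q_inv, ← e, mul_inv_cancel_right]
  | @step q1 q2 u1 h W X hR hV ih =>
    obtain ⟨g, l, h1, h2, h3⟩ := ih
    obtain ⟨r1, r2, y, ⟨r3, r4⟩, r5⟩ := hR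
    refine ⟨q w0 h, (u1, g) :: l, np_cons C h1 (h3 u1 r1), ?_, ?_⟩
    · rw [lprod_cons, mul_assoc, h2]
      simp only [mul_assoc]
    · rintro u hu ⟨σ, hσ, e⟩
      by_cases huu : u = u1
      · rw [huu]
        rfl
      · exfalso
        have hu1 : u = -u1 := by
          rcases Int.units_eq_one_or u with rfl | rfl <;>
            rcases Int.units_eq_one_or u1 with rfl | rfl
          · exact absurd rfl huu
          · rw [neg_neg]
          · rfl
          · exact absurd rfl huu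
        subst hu1
        apply r2 hu
        refine TW.inj (hL (-u1) q1.1) (hfree (-u1)) (C.Dsub_Nc (-u1)) (TW.nil (hL (-u1) q1.1))
          r3 hσ ?_
        rw [e, List.nil_append]

include hB hfree hL in
/-- a run which stops and a run which goes on have different values -/
theorem RV.fin_step {q1 q2 : C.Q V} {h h' : Wd C.ED} {u : ℤˣ} {W : Wd E} {X : H}
    (_hF : FC C Γ L q1 h) (hR : RC C Γ L q1 q2 u h') (hV : RV C Γ L o t q2 W X) {κ : H}
    (hκ : κ ∈ MM C w0 o t) (e : o (q w0 h) * κ = o (q w0 h') * t ^ (u : ℤ) * X) : False := by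
  obtain ⟨α, l, h1, h2, h3⟩ := MM.rep hB hfree hκ
  obtain ⟨g, l', k1, k2, k3⟩ := RV.rep C Γ L hB hfree hL hV (MM C w0 o t).one_mem
  obtain ⟨r1, r2, y, ⟨r3, r4⟩, r5⟩ := hR
  rw [mul_one] at k2
  have hnp := np_cons C k1 (k3 u r1)
  have e1 : o (q w0 h') * lprod o t ((u, g) :: l') = o (q w0 h * q w0 α) * lprod o t l := by
    rw [lprod_cons, map_mul, mul_assoc, mul_assoc, ← k2, ← h3, e, mul_assoc]
  obtain ⟨c1, c2, c3⟩ := hB.cmp _ _ _ _ hnp h2 e1
  obtain ⟨σ, hσ, c4⟩ := c2 u rfl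
  -- the tail
  have hs : Over (C.Dsub (u : ℤ)) (C.sh ((-u : ℤˣ) : ℤ) σ) := by
    have := C.over_sh hσ
    rw [Units.val_neg, neg_neg] at this
    rw [Units.val_neg]
    exact this
  have hrel := hB.rel (-u) σ hσ
  have e2 : o (q w0 h) = o (q w0 h') * o (q w0 σ) * (o (q w0 α))⁻¹ := by
    rw [← c4, ← map_mul, ← map_inv, ← map_mul, mul_inv_cancel_left, mul_inv_cancel_right]
  have e3 : X * (κ⁻¹ * o (q w0 α) * t ^ (u : ℤ)) = o (q w0 (C.sh ((-u : ℤˣ) : ℤ) σ)) := by
    rw [e2] at e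
    have e4 : o (q w0 σ) * (o (q w0 α))⁻¹ * κ = t ^ (u : ℤ) * X := by
      rw [mul_assoc, mul_assoc, mul_assoc] at e
      rw [mul_assoc]
      exact mul_left_cancel e
    have e5 : t ^ ((-u : ℤˣ) : ℤ) * o (q w0 σ) * (t ^ ((-u : ℤˣ) : ℤ))⁻¹ =
        o (q w0 (C.sh ((-u : ℤˣ) : ℤ) σ)) := by
      rw [hrel, mul_inv_cancel_right]
    rw [← e5, Units.val_neg, zpow_neg, inv_inv]
    have e6 : X = (t ^ (u : ℤ))⁻¹ * (o (q w0 σ) * (o (q w0 α))⁻¹ * κ) := by
      rw [e4, inv_mul_cancel_left]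
    rw [e6]
    simp only [mul_assoc]
    rw [mul_inv_cancel_left, inv_mul_cancel_left]
  have hκ' : κ⁻¹ * o (q w0 α) * t ^ (u : ℤ) ∈ MM C w0 o t :=
    (MM C w0 o t).mul_mem ((MM C w0 o t).mul_mem ((MM C w0 o t).inv_mem hκ) (MM.word h1)) (MM.tpow _)
  obtain ⟨g2, l2, k4, k5, k6⟩ := RV.rep C Γ L hB hfree hL hV hκ'
  rw [e3] at k5
  have k7 : o g2 * lprod o t l2 = o (q w0 (C.sh ((-u : ℤˣ) : ℤ) σ)) * lprod o t [] := by
    rw [lprod_nil, mul_one, k5]
  obtain ⟨c5, _, c6⟩ := hB.cmp _ _ _ _ k4 List.IsChain.nil k7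
  have c7 : l2 = [] := by
    rw [List.map_nil, List.map_eq_nil_iff] at c5
    exact c5
  have c8 := k6 u r1 ⟨_, hs, c6 c7⟩
  rw [c7] at c8
  simp at c8

include hB hfree hL in
theorem RV.inj {q1 : C.Q V} {W W' : Wd E} {X X' : H} (h : RV C Γ L o t q1 W X)
    (h' : RV C Γ L o t q1 W' X') {κ : H} (hκ : κ ∈ MM C w0 o t) (e : X * κ = X') : W' = W := by
  induction h generalizing W' X' with
  | @fin q1 h hF =>
    rcases h' with @⟨_, h', hF'⟩ | @⟨_, q2', u', h', W', X', hR', hV'⟩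
    · obtain ⟨α, l, h1, h2, h3⟩ := MM.rep hB hfree hκ
      have e1 : o (q w0 h * q w0 α) * lprod o t l = o (q w0 h') * lprod o t [] := by
        rw [map_mul, mul_assoc, ← h3, e, lprod_nil, mul_one]
      obtain ⟨c1, c2, c3⟩ := hB.cmp _ _ _ _ h2 List.IsChain.nil e1
      rw [List.map_nil, List.map_eq_nil_iff] at c1
      have c4 := c3 c1
      rw [TW.inj (hL (q1.2.getD 1) q1.1) (hfree (q1.2.getD 1)) (C.AD_Nc (q1.2.getD 1)) hF.1 hF'.1 h1
        (by rw [q_append, c4])]
    · exact (RV.fin_step C Γ L hB hfree hL hF hR' hV' hκ e).elim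
  | @step q1 q2 u h W X hR hV ih =>
    rcases h' with @⟨_, h', hF'⟩ | @⟨_, q2', u', h', W', X', hR', hV'⟩
    · refine (RV.fin_step C Γ L hB hfree hL hF' hR hV ((MM C w0 o t).inv_mem hκ) ?_).elim
      rw [← e, mul_inv_cancel_right]
    · obtain ⟨g, l, k1, k2, k3⟩ := RV.rep C Γ L hB hfree hL hV hκ
      obtain ⟨g', l', k1', k2', k3'⟩ := RV.rep C Γ L hB hfree hL hV' (MM C w0 o t).one_mem
      rw [mul_one] at k2'
      obtain ⟨r1, r2, y, ⟨r3, r4⟩, r5, r6⟩ := hR
      obtain ⟨r1', r2', y', ⟨r3', r4'⟩, r5', r6'⟩ := hR'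
      have hnp := np_cons C k1 (k3 u r1)
      have hnp' := np_cons C k1' (k3' u' r1')
      have e1 : o (q w0 h) * lprod o t ((u, g) :: l) = o (q w0 h') * lprod o t ((u', g') :: l') := by
        rw [lprod_cons, lprod_cons, mul_assoc, mul_assoc, ← k2, ← k2']
        simp only [mul_assoc] at e ⊢
        exact e
      obtain ⟨c1, c2, c3⟩ := hB.cmp _ _ _ _ hnp hnp' e1
      have hu : u = u' := by
        rw [List.map_cons, List.map_cons, List.cons.injEq] at c1
        exact c1.1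
      subst hu
      obtain ⟨σ, hσ, c4⟩ := c2 u rfl
      have hh : h' = h := by
        refine TW.inj (hL (-u) q1.1) (hfree (-u)) (C.Dsub_Nc (-u)) r3 r3' hσ ?_
        rw [q_append, ← c4, mul_inv_cancel_left]
      subst hh
      have hy : y = y' := (C.GD Γ).path_unique r4 r4'
      subst hy
      have hq : q2 = q2' := by
        refine Prod.ext (Prod.ext ?_ (Subtype.ext ?_)) ?_
        · rw [← r5, ← r5']
        · rw [r6, r6']
        · rw [r1, r1']
      subst hq
      rw [ih hV' (by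
        simp only [mul_assoc] at e
        exact mul_left_cancel (mul_left_cancel e))]

theorem RV.of_run {ι : Gp w →* H} (hι : ∀ (h : Wd C.ED) (x y : V × C.Lev), (C.GD Γ).Path x h y →
    t ^ x.2.1 * ι (q w (C.pr h)) = o (q w0 h) * t ^ y.2.1) {q1 : C.Q V} {W : Wd E}
    (h : Run (RL C Γ L) (FL C Γ L) q1 W) :
    ∃ X, RV C Γ L o t q1 W X ∧ ∃ c : ℤ, t ^ q1.1.2.1 * ι (q w W) = X * t ^ c := by
  induction h with
  | @fin q1 W hW =>
    obtain ⟨h, hF, rfl⟩ := hW
    obtain ⟨y, hy⟩ := hF.1.path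
    exact ⟨_, RV.fin hF, y.2.1, hι h _ _ hy⟩
  | @step q1 q2 W1 W hW1 hW ih =>
    obtain ⟨h, ⟨u, hR⟩, rfl⟩ := hW1
    obtain ⟨X, hX, c, hc⟩ := ih
    refine ⟨_, RV.step hR hX, c, ?_⟩
    obtain ⟨r1, r2, y, ⟨r3, r4⟩, r5, r6⟩ := hR
    have h1 := hι h _ _ r4
    have h2 : y.2.1 = (u : ℤ) + q2.1.2.1 := by rw [r6]; ring
    rw [q_append, map_mul, ← mul_assoc, h1, h2, zpow_add, mul_assoc, mul_assoc, hc]
    simp only [mul_assoc]

end inj

section final

variable {C : Win E} {Γ : Gr V E} {w : Wd E} {w0 : Wd C.ED} {H : Type} [Group H]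
  {o : Gp w0 →* H} {t : H}

theorem iota_MP {ι : Gp w →* H} (hι : ∀ (h : Wd C.ED) (x y : V × C.Lev), (C.GD Γ).Path x h y →
    t ^ x.2.1 * ι (q w (C.pr h)) = o (q w0 h) * t ^ y.2.1) (hne : ∀ e, ∃ j, C.In e j)
    {α : Wd E} (hα : Over (fun e => e ≠ C.b) α) :
    (ι (q w α), FreeGroup.map some (FreeGroup.mk α)) ∈ MP C w0 o t := by
  have h1 : ∀ e : E, e ≠ C.b → (ι (q w [(e, true)]), FreeGroup.map some (FreeGroup.mk [(e, true)])) ∈
      MP C w0 o t := by
    intro e he
    obtain ⟨j, hj⟩ := hne e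
    let p : C.ED := ⟨(e, j), hj⟩
    have h2 := hι [(p, true)] ((C.GD Γ).src (p, true)) ((C.GD Γ).tgt (p, true)) ⟨rfl, rfl⟩
    rw [C.src_lev, C.tgt_lev] at h2
    have h3 : t ^ j * ι (q w [(e, true)]) = o (q w0 [(p, true)]) * t ^ (j + C.φ e) := h2
    have h4 : ι (q w [(e, true)]) = t ^ (-j) * o (q w0 [(p, true)]) * t ^ (j + C.φ e) := by
      rw [mul_assoc, ← h3, zpow_neg, inv_mul_cancel_left]
    have h5 : FreeGroup.map some (FreeGroup.mk [(e, true)]) = FreeGroup.of none ^ (-j) *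
        ev C (FreeGroup.mk [(p, true)]) * FreeGroup.of none ^ (j + C.φ e) := by
      have : ev C (FreeGroup.mk [(p, true)]) = FreeGroup.of none ^ j * FreeGroup.of (some e) *
          FreeGroup.of none ^ (-(j + C.φ e)) := by
        unfold ev
        rw [FreeGroup.lift_mk]
        simp only [List.map_cons, List.map_nil, List.prod_singleton, cond_true]
        rfl
      rw [this, zpow_neg, zpow_neg]
      simp only [mul_assoc]
      rw [inv_mul_cancel_left, inv_mul_cancel, mul_one]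
      rfl
    rw [h4, h5]
    exact (MP C w0 o t).mul_mem ((MP C w0 o t).mul_mem (MP.tpow _) (MP.word (by
      intro x hx
      rw [List.mem_singleton] at hx
      rw [hx]
      exact he))) (MP.tpow _)
  induction α with
  | nil =>
    rw [q_nil, map_one, ← FreeGroup.one_eq_mk, map_one]
    exact (MP C w0 o t).one_mem
  | cons a α ih =>
    have h2 := ih fun x hx => hα x (List.mem_cons_of_mem _ hx)
    have h3 : (ι (q w [a]), FreeGroup.map some (FreeGroup.mk [a])) ∈ MP C w0 o t := by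
      obtain ⟨e, b⟩ := a
      have he := h1 e (hα _ List.mem_cons_self)
      rcases b with _ | _
      · have h4 := (MP C w0 o t).inv_mem he
        have h5 : q w [(e, false)] = (q w [(e, true)])⁻¹ := by
          rw [← q_inv]
          rfl
        have h6 : FreeGroup.mk [(e, false)] = (FreeGroup.mk [(e, true)])⁻¹ := by
          rw [FreeGroup.inv_mk]
          rfl
        rw [h5, h6, map_inv, map_inv]
        exact h4
      · exact he
    have h4 := (MP C w0 o t).mul_mem h3 h2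
    have h5 : q w (a :: α) = q w [a] * q w α := q_append w [a] α
    have h6 : FreeGroup.mk (a :: α) = FreeGroup.mk [a] * FreeGroup.mk α := by
      rw [FreeGroup.mul_mk]
      rfl
    rw [h5, h6, map_mul, map_mul]
    exact h4

end final

/-- the inductive step -/
theorem Good.step [Finite V] [Finite E] (Γ : Gr V E) (w : Wd E) (C : Win E) (w0 : Wd C.ED)
    (hpr : C.pr w0 = w) (x0 : V × C.Lev) (hcl : (C.GD Γ).Path x0 w0 x0)
    (h0 : C.In C.b C.j0) (h1 : C.In C.b C.j1) (hne : ∀ e, ∃ j, C.In e j)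
    (hg0 : Good (C.GD Γ) w0 ⟨(C.b, C.j0), h0⟩) (hg1 : Good (C.GD Γ) w0 ⟨(C.b, C.j1), h1⟩) :
    Good Γ w C.b := by
  have hfree : ∀ u : ℤˣ, FreeOn w0 (C.Nc u) := by
    intro u
    rcases Int.units_eq_one_or u with rfl | rfl
    · rw [← C.Nc_one h1]
      exact hg1.free
    · rw [← C.Nc_neg h0]
      exact hg0.free
  have htr : ∀ (u : ℤˣ) (x : V × C.Lev), ∃ L, IsTrans (C.GD Γ) w0 (C.Nc u) x L := by
    intro u x
    rcases Int.units_eq_one_or u with rfl | rfl
    · rw [← C.Nc_one h1]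
      exact hg1.trans x
    · rw [← C.Nc_neg h0]
      exact hg0.trans x
  choose L hL using htr
  obtain ⟨H, iH, o, t, hB⟩ := exists_brit C w0 hfree
  obtain ⟨ι, hι⟩ := hB.iota Γ hpr hcl hne
  constructor
  · intro α hα e
    have h2 := iota_MP hι hne hα
    rw [e, map_one] at h2
    obtain ⟨α', l, k1, k2, k3, k4, k5⟩ := MP.rep hB hfree h2
    have k4 : 1 = o (q w0 α') * lprod o t (ql C w0 l) := k4
    have k5 : FreeGroup.map some (FreeGroup.mk α) = ev C (FreeGroup.mk α') * evl C l := k5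
    have e1 : o 1 * lprod o t [] = o (q w0 α') * lprod o t (ql C w0 l) := by
      rw [map_one, lprod_nil, mul_one, k4]
    obtain ⟨c1, c2, c3⟩ := hB.cmp _ _ _ _ List.IsChain.nil k3 e1
    have c4 : l = [] := by
      rw [List.map_nil, eq_comm, List.map_eq_nil_iff] at c1
      unfold ql at c1
      rw [List.map_eq_nil_iff] at c1
      exact c1
    have c5 : FreeGroup.mk α' = 1 := hfree 1 α' (k1.mono (C.AD_Nc 1)) (c3 rfl).symm
    rw [c5, c4, map_one, one_mul] at k5
    have k6 : FreeGroup.map some (FreeGroup.mk α) = FreeGroup.map some 1 := by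
      rw [k5, map_one]
      rfl
    exact FreeGroup.map_injective (Option.some_injective E) k6
  · intro v
    let q0 : C.Q V := ((v, x0.2), none)
    refine ⟨runL (RL C Γ L) (FL C Γ L) q0, ?_, ?_, ?_, ?_, ?_⟩
    · exact Run.isRegular (RL_reg C Γ L fun u x => (hL u x).reg)
        (FL_reg C Γ L fun u x => (hL u x).reg) q0
    · refine Run.fin ⟨[], ⟨TW.nil (hL _ _), ?_⟩, rfl⟩
      intro u hu
      exact absurd hu (by simp [q0])
    · intro ℓ hℓ
      exact RL_path C Γ L hℓ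
    · intro W v' hW
      exact surj_step C Γ L hpr hL hne (v, x0.2) W v' hW
    · intro ℓ hℓ ℓ' hℓ' α hα e
      obtain ⟨X, hX, c, hc⟩ := RV.of_run C Γ L hι hℓ
      obtain ⟨X', hX', c', hc'⟩ := RV.of_run C Γ L hι hℓ'
      have hκ : t ^ c * ι (q w α) * t ^ (-c') ∈ MM C w0 o t :=
        (MM C w0 o t).mul_mem ((MM C w0 o t).mul_mem (MM.tpow _) ⟨_, iota_MP hι hne hα, rfl⟩) (MM.tpow _)
      apply RV.inj C Γ L hB hfree hL hX hX' hκ
      rw [e, q_append, map_mul, ← mul_assoc, hc] at hc'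
      rw [← mul_assoc, ← mul_assoc, hc', zpow_neg, mul_inv_cancel_right]

end Pool.Agent.W395
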