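import Mathlib
import Pool.Agent.W395.Ind
import Pool.Agent.W395.StepC

/-!
# The induction
-/

set_option autoImplicit false

namespace Pool.Agent.W395

variable {V E : Type}

section lists

theorem lf_proj (φ : E → ℤ) (W : Wd E) : ∀ l, (lf φ l W).map (fun x => (x.1.1, x.2)) = W := by
  induction W with
  | nil => intro l; rfl
  | cons a W ih =>
    intro l
    show (a.1, a.2) :: (lf φ (l + vl φ a) W).map (fun x => (x.1.1, x.2)) = a :: W
    rw [ih]

theorem lf_shift (φ : E → ℤ) (M : ℤ) (W : Wd E) : ∀ l,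
    lf φ (l + M) W = (lf φ l W).map (fun x => ((x.1.1, x.1.2 + M), x.2)) := by
  induction W with
  | nil => intro l; rfl
  | cons a W ih =>
    intro l
    have h1 : l + M + vl φ a = l + vl φ a + M := by ring
    show ((a.1, if a.2 then l + M else l + M + vl φ a), a.2) :: lf φ (l + M + vl φ a) W =
      ((a.1, (if a.2 then l else l + vl φ a) + M), a.2) ::
        (lf φ (l + vl φ a) W).map (fun x => ((x.1.1, x.1.2 + M), x.2))
    rw [h1, ih]
    congr 3
    split_ifs <;> ring

theorem vl_abs (φ : E → ℤ) (a : E × Bool) : |vl φ a| = |φ a.1| := by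
  unfold vl
  split_ifs
  · rfl
  · exact abs_neg _

theorem lf_bound (φ : E → ℤ) (W : Wd E) : ∀ l M, (W.map fun a => |φ a.1|).sum ≤ M →
    ∀ x ∈ lf φ l W, |x.1.2 - l| ≤ M ∧ |x.1.2 + φ x.1.1 - l| ≤ M := by
  induction W with
  | nil =>
    intro l M _ x hx
    simp [lf] at hx
  | cons a W ih =>
    intro l M hM x hx
    rw [List.map_cons, List.sum_cons] at hM
    have hpos : 0 ≤ (W.map fun a => |φ a.1|).sum := by
      apply List.sum_nonneg
      intro y hy
      rw [List.mem_map] at hy
      obtain ⟨z, _, rfl⟩ := hy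
      exact abs_nonneg _
    have hva := vl_abs φ a
    have hx : x ∈ ((a.1, if a.2 then l else l + vl φ a), a.2) :: lf φ (l + vl φ a) W := hx
    rcases List.mem_cons.1 hx with rfl | hx
    · have h0 := abs_nonneg (φ a.1)
      dsimp only
      unfold vl
      split_ifs with h
      · refine ⟨?_, ?_⟩
        · rw [sub_self, abs_zero]
          omega
        · rw [show l + φ a.1 - l = φ a.1 by ring]
          omega
      · refine ⟨?_, ?_⟩
        · rw [show l + -φ a.1 - l = -φ a.1 by ring, abs_neg]
          omega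
        · rw [show l + -φ a.1 + φ a.1 - l = 0 by ring, abs_zero]
          omega
    · obtain ⟨h1, h2⟩ := ih (l + vl φ a) (M - |φ a.1|) (by omega) x hx
      rw [abs_le] at h1 h2 ⊢
      rw [abs_le]
      have h3 := abs_le.1 (le_of_eq hva)
      constructor <;> constructor <;> omega

theorem mem_lf (φ : E → ℤ) (W : Wd E) : ∀ l a, a ∈ W → ∃ j, ((a.1, j), a.2) ∈ lf φ l W := by
  induction W with
  | nil => intro l a ha; simp at ha
  | cons c W ih =>
    intro l a ha
    rcases List.mem_cons.1 ha with rfl | ha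
    · exact ⟨_, List.mem_cons_self⟩
    · obtain ⟨j, hj⟩ := ih (l + vl φ c) a ha
      exact ⟨j, List.mem_cons_of_mem _ hj⟩

/-- the number of different letters -/
noncomputable def nl (w : Wd E) : ℕ := by
  classical
  exact (w.map Prod.fst).toFinset.card

theorem nl_le (w : Wd E) : nl w ≤ w.length := by
  classical
  unfold nl
  refine (List.toFinset_card_le _).trans ?_
  rw [List.length_map]

theorem nl_lt {E' : Type} (f : E' → E) (w : Wd E) (w0 : Wd E')
    (hw : w0.map (fun x => (f x.1, x.2)) = w) {p p' : E'} {β β' : Bool} (hp : (p, β) ∈ w0)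
    (hp' : (p', β') ∈ w0) (hne : p ≠ p') (hf : f p = f p') : nl w < nl w0 := by
  classical
  unfold nl
  have h1 : (w.map Prod.fst).toFinset = (w0.map Prod.fst).toFinset.image f := by
    ext e
    simp only [List.mem_toFinset, Finset.mem_image, List.mem_map]
    constructor
    · rintro ⟨a, ha, rfl⟩
      rw [← hw, List.mem_map] at ha
      obtain ⟨y, hy, rfl⟩ := ha
      exact ⟨y.1, ⟨y, hy, rfl⟩, rfl⟩
    · rintro ⟨_, ⟨y, hy, rfl⟩, rfl⟩
      refine ⟨(f y.1, y.2), ?_, rfl⟩
      rw [← hw, List.mem_map]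
      exact ⟨y, hy, rfl⟩
  have h2 : ((w0.map Prod.fst).toFinset.image f).card ≤ (w0.map Prod.fst).toFinset.card :=
    Finset.card_image_le
  have h3 : ((w0.map Prod.fst).toFinset.image f).card ≠ (w0.map Prod.fst).toFinset.card := by
    intro h
    rw [Finset.card_image_iff] at h
    apply hne
    apply h _ _ hf
    · simp only [Finset.mem_coe, List.mem_toFinset, List.mem_map]
      exact ⟨_, hp, rfl⟩
    · simp only [Finset.mem_coe, List.mem_toFinset, List.mem_map]
      exact ⟨_, hp', rfl⟩
  rw [h1]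
  omega

end lists

theorem exists_lift {E' F : Type} (P : E' → Prop) (L : List (E' × F)) (h : ∀ x ∈ L, P x.1) :
    ∃ W : List ({p : E' // P p} × F), W.map (fun x => (x.1.1, x.2)) = L := by
  induction L with
  | nil => exact ⟨[], rfl⟩
  | cons a L ih =>
    obtain ⟨W, hW⟩ := ih fun x hx => h x (List.mem_cons_of_mem _ hx)
    refine ⟨(⟨a.1, h a List.mem_cons_self⟩, a.2) :: W, ?_⟩
    rw [List.map_cons, hW]

theorem path_lift (Γ : Gr V E) (C : Win E) (W : Wd E) : ∀ (W0 : Wd C.ED) (l l' : C.Lev) (u v : V),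
    W0.map (fun x => (x.1.1, x.2)) = lf C.φ l.1 W → Γ.Path u W v → l'.1 = l.1 + expo C.φ W →
    (C.GD Γ).Path (u, l) W0 (v, l') := by
  induction W with
  | nil =>
    intro W0 l l' u v h1 h2 h3
    have h1 : W0 = [] := by
      have : W0.map (fun x => (x.1.1, x.2)) = [] := h1
      rwa [List.map_eq_nil_iff] at this
    rw [h1]
    have h2 : u = v := h2
    rw [expo_nil, add_zero] at h3
    have h4 : l = l' := Subtype.ext h3.symm
    rw [h2, h4]
    rfl
  | cons a W ih =>
    intro W0 l l' u v h1 h2 h3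
    rcases W0 with _ | ⟨c, W0⟩
    · simp [lf] at h1
    · have h1 : (c.1.1, c.2) :: W0.map (fun x => (x.1.1, x.2)) =
          ((a.1, if a.2 then l.1 else l.1 + vl C.φ a), a.2) :: lf C.φ (l.1 + vl C.φ a) W := h1
      rw [List.cons.injEq] at h1
      obtain ⟨h4, h5⟩ := h1
      have h6 : c.1.1 = (a.1, if a.2 then l.1 else l.1 + vl C.φ a) := congrArg Prod.fst h4
      have h7 : c.2 = a.2 := congrArg (fun y : (E × ℤ) × Bool => y.2) h4
      have h8 : c.1.1.1 = a.1 := by rw [h6]
      have h9 : c.1.1.2 = if a.2 then l.1 else l.1 + vl C.φ a := by rw [h6]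
      have h10 : (c.1.1.1, c.2) = a := Prod.ext h8 h7
      have hs : ((C.GD Γ).src c).2.1 = l.1 := by
        rw [C.src_lev, h7, h8, h9]
        unfold vl
        split_ifs <;> ring
      have ht : ((C.GD Γ).tgt c).2.1 = l.1 + vl C.φ a := by
        rw [C.tgt_lev, h7, h8, h9]
        unfold vl
        split_ifs <;> ring
      refine ⟨?_, ?_⟩
      · refine Prod.ext ?_ (Subtype.ext hs)
        rw [C.src_vx, h10]
        exact h2.1
      · have h11 : (C.GD Γ).tgt c = (Γ.tgt a, ((C.GD Γ).tgt c).2) := by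
          refine Prod.ext ?_ rfl
          rw [C.tgt_vx, h10]
        rw [h11]
        apply ih
        · rw [ht]
          exact h5
        · exact h2.2
        · rw [h3, ht, expo_cons]
          ring

theorem cr_lift {E' : Type} (f : E' → E) (w : Wd E) (w0 : Wd E')
    (hw : w0.map (fun x => (f x.1, x.2)) = w) (h : FreeGroup.IsCyclicallyReduced w) :
    FreeGroup.IsCyclicallyReduced w0 := by
  subst hw
  constructor
  · have h1 := h.1
    unfold FreeGroup.IsReduced at h1 ⊢
    rw [List.isChain_map] at h1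
    exact List.IsChain.imp (fun a b hab h2 => hab (congrArg f h2)) h1
  · intro a ha b hb hab
    have h2 := h.2 (f a.1, a.2) (by
      rw [List.getLast?_map, Option.mem_def, Option.mem_def.1 ha]
      rfl) (f b.1, b.2) (by
      rw [List.head?_map, Option.mem_def, Option.mem_def.1 hb]
      rfl) (congrArg f hab)
    exact h2

/-- **Main induction.** -/
theorem good_all (N : ℕ) : ∀ (V E : Type) [Finite V] [Finite E] (Γ : Gr V E) (w : Wd E) (b : E),
    w.length - nl w < N → FreeGroup.IsCyclicallyReduced w → (∃ p, Γ.Path p w p) →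
      (∃ β, (b, β) ∈ w) → Good Γ w b := by
  induction N with
  | zero => intro V E _ _ Γ w b h; omega
  | succ N ih =>
    intro V E _ _ Γ w b hN hcr hcl hb
    by_cases hns : NS w
    · exact base_case Γ w b hcr hcl hb hns
    · unfold NS at hns
      push Not at hns
      obtain ⟨φ, hφ, e, j, j', β, β', hj, hj', hne⟩ := hns
      -- bounds
      obtain ⟨K, hK⟩ : ∃ K : ℤ, ∀ e, |φ e| ≤ K := by
        obtain ⟨K, hK⟩ := (Set.finite_range fun e => |φ e|).bddAbove
        exact ⟨K, fun e => hK ⟨e, rfl⟩⟩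
      have hK0 : 0 ≤ K := (abs_nonneg _).trans (hK b)
      obtain ⟨A, hA⟩ : ∃ A : ℤ, (w.map fun a => |φ a.1|).sum = A := ⟨_, rfl⟩
      have hA0 : 0 ≤ A := by
        rw [← hA]
        apply List.sum_nonneg
        intro y hy
        rw [List.mem_map] at hy
        obtain ⟨z, _, rfl⟩ := hy
        exact abs_nonneg _
      obtain ⟨M, hM⟩ : ∃ M, M = A + K := ⟨_, rfl⟩
      have hbd := lf_bound φ w M M (by rw [hA]; omega)
      -- the levels of b
      let Sb : Set ℤ := {j | ∃ β, ((b, j), β) ∈ lf φ M w}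
      have hSf : Sb.Finite := by
        refine ((List.finite_toSet (lf φ M w)).image fun x => x.1.2).subset ?_
        rintro j ⟨β, h⟩
        exact ⟨_, h, rfl⟩
      have hSn : Sb.Nonempty := by
        obtain ⟨β, hβ⟩ := hb
        obtain ⟨j, hj⟩ := mem_lf φ w M _ hβ
        exact ⟨j, β, hj⟩
      obtain ⟨j0, ⟨β0, hj0⟩, hmin⟩ := Set.exists_min_image Sb id hSf hSn
      obtain ⟨j1, ⟨β1, hj1⟩, hmax⟩ := Set.exists_max_image Sb id hSf hSn
      let C : Win E := ⟨φ, 2 * M, b, j0, j1⟩
      have hin : ∀ x ∈ lf φ M w, C.In x.1.1 x.1.2 := by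
        intro x hx
        obtain ⟨h1, h2⟩ := hbd x hx
        rw [abs_le] at h1 h2
        refine ⟨⟨⟨?_, ?_⟩, ?_, ?_⟩, ?_⟩
        · omega
        · show x.1.2 ≤ 2 * M
          omega
        · show 0 ≤ x.1.2 + φ x.1.1
          omega
        · show x.1.2 + φ x.1.1 ≤ 2 * M
          omega
        · intro hxb
          have hxb : x.1.1 = b := hxb
          have : x.1.2 ∈ Sb := by
            refine ⟨x.2, ?_⟩
            rw [← hxb]
            exact hx
          exact ⟨hmin _ this, hmax _ this⟩
      obtain ⟨w0, hw0⟩ := exists_lift (fun p : E × ℤ => C.In p.1 p.2) (lf φ M w) hin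
      have hpr : C.pr w0 = w := by
        conv_rhs => rw [← lf_proj φ w M, ← hw0]
        unfold Win.pr
        rw [List.map_map]
        rfl
      obtain ⟨p, hp⟩ := hcl
      have hlev : 0 ≤ M ∧ M ≤ C.m := by
        show 0 ≤ M ∧ M ≤ 2 * M
        omega
      have hcl0 : (C.GD Γ).Path (p, ⟨M, hlev⟩) w0 (p, ⟨M, hlev⟩) := by
        apply path_lift Γ C w w0 _ _ p p hw0 hp
        show M = M + expo φ w
        rw [hφ, add_zero]
      have hcr0 : FreeGroup.IsCyclicallyReduced w0 := cr_lift (fun p : C.ED => p.1.1) w w0 hpr hcr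
      have hmem : ∀ {p : E × ℤ} {β : Bool} (h : (p, β) ∈ lf φ M w),
          ((⟨p, hin _ h⟩ : C.ED), β) ∈ w0 := by
        intro p β h
        have h2 := h
        rw [← hw0, List.mem_map] at h2
        obtain ⟨y, hy, hy2⟩ := h2
        have h3 : y = (⟨p, hin _ h⟩, β) := by
          refine Prod.ext (Subtype.ext ?_) ?_
          · exact congrArg Prod.fst hy2
          · exact congrArg (fun z : (E × ℤ) × Bool => z.2) hy2
        rw [← h3]
        exact hy
      have h0 : C.In C.b C.j0 := hin _ hj0
      have h1 : C.In C.b C.j1 := hin _ hj1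
      have hsh : ∀ {j : ℤ} {β : Bool}, ((e, j), β) ∈ lf φ 0 w → ((e, j + M), β) ∈ lf φ M w := by
        intro j β h
        have h2 := lf_shift φ M w 0
        rw [zero_add] at h2
        rw [h2, List.mem_map]
        exact ⟨_, h, rfl⟩
      have hlt : nl w < nl w0 := by
        refine nl_lt (fun p : C.ED => p.1.1) w w0 hpr (hmem (hsh hj)) (hmem (hsh hj')) ?_ rfl
        intro h
        apply hne
        have h2 : j + M = j' + M := congrArg (fun p : C.ED => p.1.2) h
        omega
      have hlen : w0.length = w.length := by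
        rw [← hpr]
        unfold Win.pr
        rw [List.length_map]
      have hmeas : w0.length - nl w0 < N := by
        have h2 := nl_le w0
        have h3 := nl_le w
        omega
      have hne' : ∀ e, ∃ j, C.In e j := by
        intro e
        by_cases he : e = b
        · exact ⟨j0, he ▸ h0⟩
        · have h2 := abs_le.1 (hK e)
          rcases le_total 0 (φ e) with h3 | h3
          · refine ⟨0, ⟨⟨le_rfl, ?_⟩, ?_, ?_⟩, fun h => absurd h he⟩
            · show (0 : ℤ) ≤ 2 * M
              omega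
            · show 0 ≤ 0 + φ e
              omega
            · show 0 + φ e ≤ 2 * M
              omega
          · refine ⟨-φ e, ⟨⟨by omega, ?_⟩, ?_, ?_⟩, fun h => absurd h he⟩
            · show -φ e ≤ 2 * M
              omega
            · show 0 ≤ -φ e + φ e
              omega
            · show -φ e + φ e ≤ 2 * M
              omega
      exact Good.step Γ w C w0 hpr _ hcl0 h0 h1 hne'
        (ih _ _ (C.GD Γ) w0 _ hmeas hcr0 ⟨_, hcl0⟩ ⟨β0, hmem hj0⟩)
        (ih _ _ (C.GD Γ) w0 _ hmeas hcr0 ⟨_, hcl0⟩ ⟨β1, hmem hj1⟩)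

end Pool.Agent.W395
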