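import Pool.Agent.W988.RA.Defs

/-!
# Project RA (MP_6acab6_an): volume of a ball in dimension `n²`
-/

open MeasureTheory

namespace Pool.Agent.W395.RA_BALL

open Pool.Agent.W988.RA

theorem result : S_BALL := by
  intro n hn
  have hn' : (0 : ℝ) < n := Nat.cast_pos.mpr hn
  obtain ⟨β, hβ⟩ : ∃ β : ℝ, β = n / 24 := ⟨_, rfl⟩
  have hβp : 0 < β := by rw [hβ]; positivity
  have hI1 : Integrable (fun x : ℝ => Real.exp (-β * x ^ 2)) := integrable_exp_neg_mul_sq hβp
  have hI2 : Integrable (fun v : Fin n → ℝ => ∏ j, Real.exp (-β * v j ^ 2)) :=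
    Integrable.fintype_prod (f := fun (_ : Fin n) (x : ℝ) => Real.exp (-β * x ^ 2))
      (μ := fun _ => volume) (fun _ => hI1)
  have hI3 : Integrable (fun M : MM n => ∏ k, ∏ j, Real.exp (-β * M k j ^ 2)) :=
    Integrable.fintype_prod
      (f := fun (_ : Fin n) (v : Fin n → ℝ) => ∏ j, Real.exp (-β * v j ^ 2))
      (μ := fun _ => volume) (fun _ => hI2)
  have hv2 : ∫ v : Fin n → ℝ, ∏ j, Real.exp (-β * v j ^ 2) = Real.sqrt (Real.pi / β) ^ n := by
    rw [integral_fintype_prod_volume_eq_pow (fun x : ℝ => Real.exp (-β * x ^ 2)),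
      integral_gaussian, Fintype.card_fin]
  have hv3 : ∫ M : MM n, ∏ k, ∏ j, Real.exp (-β * M k j ^ 2) =
      Real.sqrt (Real.pi / β) ^ (n * n) := by
    rw [integral_fintype_prod_volume_eq_pow
      (fun v : Fin n → ℝ => ∏ j, Real.exp (-β * v j ^ 2)), hv2, Fintype.card_fin, ← pow_mul]
  have hmark := mul_meas_ge_le_lintegral₀
    (μ := (volume : Measure (MM n)))
    (f := fun M : MM n => ENNReal.ofReal (Real.exp ((n : ℝ) ^ 2 / 2) *
      ∏ k, ∏ j, Real.exp (-β * M k j ^ 2)))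
    ((hI3.const_mul _).aestronglyMeasurable.aemeasurable.ennreal_ofReal) 1
  have hint : ∫⁻ M : MM n, ENNReal.ofReal (Real.exp ((n : ℝ) ^ 2 / 2) *
      ∏ k, ∏ j, Real.exp (-β * M k j ^ 2)) =
      ENNReal.ofReal (Real.sqrt (24 * Real.pi * Real.exp 1 / n) ^ (n * n)) := by
    rw [← ofReal_integral_eq_lintegral_ofReal (hI3.const_mul _)
      (Filter.Eventually.of_forall fun M => by positivity), integral_const_mul, hv3]
    congr 1
    have h1 : Real.exp ((n : ℝ) ^ 2 / 2) = Real.sqrt (Real.exp 1) ^ (n * n) := by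
      have h2 : Real.sqrt (Real.exp 1) = Real.exp (1 / 2) := by
        rw [Real.sqrt_eq_iff_mul_self_eq (Real.exp_pos _).le (Real.exp_pos _).le,
          ← Real.exp_add]
        norm_num
      rw [h2, ← Real.exp_nat_mul]
      congr 1
      push_cast
      ring
    rw [h1, ← mul_pow, ← Real.sqrt_mul (Real.exp_pos _).le]
    congr 2
    rw [hβ]
    field_simp
  rw [one_mul, hint] at hmark
  refine le_trans (measure_mono ?_) hmark
  intro M hM
  simp only [Set.mem_setOf_eq] at hM ⊢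
  rw [ENNReal.one_le_ofReal]
  have h1 : ∏ k, ∏ j, Real.exp (-β * M k j ^ 2) = Real.exp (-β * ∑ k, ∑ j, M k j ^ 2) := by
    rw [Finset.mul_sum, Real.exp_sum]
    refine Finset.prod_congr rfl fun k _ => ?_
    rw [Finset.mul_sum, Real.exp_sum]
  rw [h1, ← Real.exp_add]
  apply Real.one_le_exp
  have h2 : β * ∑ k, ∑ j, M k j ^ 2 ≤ β * (12 * n) := mul_le_mul_of_nonneg_left hM hβp.le
  have h3 : β * (12 * n) = (n : ℝ) ^ 2 / 2 := by rw [hβ]; ring
  linarith

end Pool.Agent.W395.RA_BALL
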